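import Pool.Agent.W819.EN.Geom

/-!
# Boundary connectivity in the triangulation of the plane by the free moves and the changes

Faces: `(a, s)`.  The graph `TA G`: changes of colour (`St`: the nearest neighbours in `ℤ²`) and free
moves (`Mv G`: exactly one diagonal of every plaquette) is a triangulation of the plane.
-/

set_option autoImplicit false

namespace Pool.Agent.H78CZ
open H974 H906.Cyl
open Pool.Agent.W819.EN (Ch nb St lnk Mv fc nmv DA)

/-- the edges of the triangulation -/
def TA (G : Set Edg) (p q : ℤ × ℤ) : Prop := Mv G p q ∨ St p q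

theorem Mv_symm {G : Set Edg} {p q : ℤ × ℤ} (h : Mv G p q) : Mv G q p := h.symm

theorem nb_symm {a b : ℤ} (h : nb a b) : nb b a := h.symm

theorem St_symm {p q : ℤ × ℤ} (h : St p q) : St q p := by
  rcases h with ⟨h1, h2⟩ | ⟨h1, h2⟩
  · exact Or.inl ⟨h1.symm, h2.symm⟩
  · exact Or.inr ⟨h1.symm, h2.symm⟩

theorem TA_symm {G : Set Edg} {p q : ℤ × ℤ} (h : TA G p q) : TA G q p :=
  h.imp Mv_symm St_symm

/-- one of the two diagonals of a plaquette is a free move -/
theorem diag (G : Set Edg) (j d : ℤ) :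
    Mv G (j, d) (j + 1, d + 1) ∨ Mv G (j + 1, d) (j, d + 1) := by
  by_cases he : edz j d ∈ G <;> by_cases hp : (j + d) % 2 = 0
  · left; left
    exact ⟨rfl, Or.inl ⟨rfl, by simp only; rw [if_pos hp]; exact he⟩⟩
  · right; left
    exact ⟨rfl, Or.inr ⟨rfl, by simp only; rw [if_neg hp]; exact he⟩⟩
  · right; left
    exact ⟨rfl, Or.inr ⟨rfl, by simp only; rw [if_pos hp]; exact he⟩⟩
  · left; left
    exact ⟨rfl, Or.inl ⟨rfl, by simp only; rw [if_neg hp]; exact he⟩⟩

/-- a free move is a diagonal -/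
theorem Mv_diag {G : Set Edg} {p q : ℤ × ℤ} (h : Mv G p q) :
    ∃ z, St p z ∧ St z q := by
  obtain ⟨a, s⟩ := p
  obtain ⟨b, t⟩ := q
  rcases h with h | h
  · obtain ⟨h1, h2⟩ := h
    simp only at h1 h2
    refine ⟨(b, s), ?_, ?_⟩
    · left
      refine ⟨rfl, ?_⟩
      rcases h2 with h2 | h2
      · exact Or.inl h2.1
      · exact Or.inr h2.1
    · exact Or.inr ⟨rfl, Or.inl h1⟩
  · obtain ⟨h1, h2⟩ := h
    simp only at h1 h2
    refine ⟨(b, s), ?_, ?_⟩
    · left
      refine ⟨rfl, ?_⟩
      rcases h2 with h2 | h2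
      · exact Or.inr h2.1
      · exact Or.inl h2.1
    · exact Or.inr ⟨rfl, Or.inr h1⟩

/-! ### closed forms on `ℤ²` with values in `ZMod 2` -/

theorem int_prim (g : ℤ → ZMod 2) : ∃ f : ℤ → ZMod 2, f 0 = 0 ∧ ∀ a, f (a + 1) = f a + g a := by
  refine ⟨fun a => ∑ i ∈ Finset.Ico 0 a, g i + ∑ i ∈ Finset.Ico a 0, g i, by simp, ?_⟩
  intro a
  show ∑ i ∈ Finset.Ico 0 (a + 1), g i + ∑ i ∈ Finset.Ico (a + 1) 0, g i =
    ∑ i ∈ Finset.Ico 0 a, g i + ∑ i ∈ Finset.Ico a 0, g i + g a
  rcases le_or_gt 0 a with h | h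
  · have e1 : Finset.Ico 0 (a + 1) = insert a (Finset.Ico 0 a) := by
      ext x; simp only [Finset.mem_insert, Finset.mem_Ico]; omega
    have e2 : Finset.Ico (a + 1) 0 = ∅ := by
      ext x; simp only [Finset.mem_Ico, Finset.notMem_empty, iff_false]; omega
    have e3 : Finset.Ico a 0 = ∅ := by
      ext x; simp only [Finset.mem_Ico, Finset.notMem_empty, iff_false]; omega
    rw [e1, e2, e3, Finset.sum_insert (by simp)]
    simp
    ring
  · have e1 : Finset.Ico a 0 = insert a (Finset.Ico (a + 1) 0) := by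
      ext x; simp only [Finset.mem_insert, Finset.mem_Ico]; omega
    have e2 : Finset.Ico 0 (a + 1) = ∅ := by
      ext x; simp only [Finset.mem_Ico, Finset.notMem_empty, iff_false]; omega
    have e3 : Finset.Ico 0 a = ∅ := by
      ext x; simp only [Finset.mem_Ico, Finset.notMem_empty, iff_false]; omega
    rw [e1, e2, e3, Finset.sum_insert (by simp)]
    simp only [Finset.sum_empty, zero_add]
    have : g a + g a = 0 := CharTwo.add_self_eq_zero _
    rw [add_comm (g a) _, add_assoc, this, add_zero]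

theorem prim2 (H V : ℤ → ℤ → ZMod 2)
    (hc : ∀ a s, H a s + V (a + 1) s + H a (s + 1) + V a s = 0) :
    ∃ h : ℤ → ℤ → ZMod 2, (∀ a s, h (a + 1) s = h a s + H a s) ∧
      (∀ a s, h a (s + 1) = h a s + V a s) := by
  obtain ⟨f, hf0, hf⟩ := int_prim (fun a => H a 0)
  choose K hK0 hK using fun a => int_prim (V a)
  refine ⟨fun a s => f a + K a s, ?_, ?_⟩
  · intro a s
    show f (a + 1) + K (a + 1) s = f a + K a s + H a s
    have key : ∀ s : ℤ, K (a + 1) s + K a s + H a 0 + H a s = 0 := by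
      intro s
      induction s using Int.induction_on with
      | zero =>
        rw [hK0, hK0]
        have : H a 0 + H a 0 = 0 := CharTwo.add_self_eq_zero _
        rw [zero_add, zero_add]
        exact this
      | succ i ih =>
        rw [hK, hK]
        have h1 := hc a i
        have e : K (a + 1) i + V (a + 1) i + (K a i + V a i) + H a 0 + H a (i + 1) =
            (K (a + 1) i + K a i + H a 0 + H a i) +
            (H a i + V (a + 1) i + H a (i + 1) + V a i) := by
          have : H a i + H a i = 0 := CharTwo.add_self_eq_zero _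
          linear_combination -this
        rw [e, ih, h1, add_zero]
      | pred i ih =>
        have h1 := hc a (-(i : ℤ) - 1)
        have k1 := hK (a + 1) (-(i : ℤ) - 1)
        have k2 := hK a (-(i : ℤ) - 1)
        have e0 : (-(i : ℤ) - 1 + 1) = -(i : ℤ) := by ring
        rw [e0] at h1 k1 k2
        rw [k1, k2] at ih
        have v1 : V (a + 1) (-(i : ℤ) - 1) + V (a + 1) (-(i : ℤ) - 1) = 0 :=
          CharTwo.add_self_eq_zero _
        have v2 : V a (-(i : ℤ) - 1) + V a (-(i : ℤ) - 1) = 0 := CharTwo.add_self_eq_zero _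
        have v3 : H a (-(i : ℤ)) + H a (-(i : ℤ)) = 0 := CharTwo.add_self_eq_zero _
        linear_combination ih + h1 - v1 - v2 - v3
    rw [hf]
    have h1 := key s
    have v1 : K a s + K a s = 0 := CharTwo.add_self_eq_zero _
    have v2 : H a s + H a s = 0 := CharTwo.add_self_eq_zero _
    linear_combination h1 - v1 - v2
  · intro a s
    show f a + K a (s + 1) = f a + K a s + V a s
    rw [hK]
    ring

open Classical in
/-- the indicator of the edges between `R` and `A` -/
noncomputable def cc (R A : ℤ × ℤ → Prop) (p q : ℤ × ℤ) : ZMod 2 :=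
  if (R p ∧ A q) ∨ (A p ∧ R q) then 1 else 0

theorem cc_comm (R A : ℤ × ℤ → Prop) (p q : ℤ × ℤ) : cc R A p q = cc R A q p := by
  classical
  unfold cc
  congr 1
  apply propext
  tauto

/-- a triangle has an even number of edges between `R` and `A` -/
theorem cc_tri {G : Set Edg} {R U A : ℤ × ℤ → Prop} (hUR : ∀ p, U p → ¬ R p)
    (hUcl : ∀ p q, U p → TA G p q → ¬ R q → U q) (hAU : ∀ p, A p → U p)
    (hAcl : ∀ p q, A p → TA G p q → U q → (∃ r, R r ∧ TA G r q) → A q)
    {x y z : ℤ × ℤ} (hxy : TA G x y) (hyz : TA G y z) (hxz : TA G x z) :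
    cc R A x y + cc R A y z + cc R A x z = 0 := by
  classical
  have h2 : (1 : ZMod 2) + 1 = 0 := CharTwo.add_self_eq_zero _
  have hRA : ∀ p, A p → ¬ R p := fun p h => hUR p (hAU p h)
  -- a vertex adjacent to both `R` and `A` is in `R` or in `A`
  have key : ∀ u v w, TA G u v → TA G u w → TA G v w → R u → A v → R w ∨ A w := by
    intro u v w huv huw hvw hu hv
    by_cases hw : R w
    · exact Or.inl hw
    · right
      exact hAcl v w hv hvw (hUcl v w (hAU v hv) hvw hw) ⟨u, hu, huw⟩
  unfold cc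
  by_cases rx : R x <;> by_cases ry : R y <;> by_cases rz : R z <;>
  by_cases ax : A x <;> by_cases ay : A y <;> by_cases az : A z <;>
  first
  | (exact absurd rx (hRA _ ax))
  | (exact absurd ry (hRA _ ay))
  | (exact absurd rz (hRA _ az))
  | (simp [rx, ry, rz, ax, ay, az]; done)
  | (simp [rx, ry, rz, ax, ay, az]; exact h2)
  | (exfalso; exact (key x y z hxy hxz hyz rx ay).elim rz az)
  | (exfalso; exact (key x z y hxz hxy (TA_symm hyz) rx az).elim ry ay)
  | (exfalso; exact (key y x z (TA_symm hxy) hyz hxz ry ax).elim rz az)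
  | (exfalso; exact (key y z x hyz (TA_symm hxy) (TA_symm hxz) ry az).elim rx ax)
  | (exfalso; exact (key z x y (TA_symm hxz) (TA_symm hyz) hxy rz ax).elim ry ay)
  | (exfalso; exact (key z y x (TA_symm hyz) (TA_symm hxz) (TA_symm hxy) rz ay).elim rx ax)

/-- **Boundary connectivity.** `R` is connected, `U` is a connected component of the complement of
`R`; the points of `U` which are adjacent to `R` are connected with each other. -/
theorem bdry_conn {G : Set Edg} {R U : ℤ × ℤ → Prop}
    (hRc : ∀ r r', R r → R r' → Relation.ReflTransGen (fun a b => TA G a b ∧ R b) r r')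
    (hUR : ∀ p, U p → ¬ R p) (hUcl : ∀ p q, U p → TA G p q → ¬ R q → U q)
    (hUc : ∀ u u', U u → U u' → Relation.ReflTransGen (fun a b => TA G a b ∧ U b) u u')
    {a b : ℤ × ℤ} (ha : U a) (ha' : ∃ r, R r ∧ TA G r a) (hb : U b)
    (hb' : ∃ r, R r ∧ TA G r b) :
    Relation.ReflTransGen (fun x y => TA G x y ∧ U y ∧ ∃ r, R r ∧ TA G r y) a b := by
  classical
  by_contra hab
  set A : ℤ × ℤ → Prop := fun x =>
    Relation.ReflTransGen (fun x y => TA G x y ∧ U y ∧ ∃ r, R r ∧ TA G r y) a x with hA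
  have hAa : A a := Relation.ReflTransGen.refl
  have hAb : ¬ A b := hab
  have hAU : ∀ p, A p → U p := by
    intro p hp
    rcases Relation.ReflTransGen.cases_tail hp with h | ⟨c, -, h1⟩
    · rw [h]; exact ha
    · exact h1.2.1
  have hAcl : ∀ p q, A p → TA G p q → U q → (∃ r, R r ∧ TA G r q) → A q := by
    intro p q hp hpq hq hr
    exact Relation.ReflTransGen.tail hp ⟨hpq, hq, hr⟩
  have hRA : ∀ p, A p → ¬ R p := fun p h => hUR p (hAU p h)
  have tri : ∀ {x y z : ℤ × ℤ}, TA G x y → TA G y z → TA G x z →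
      cc R A x y + cc R A y z + cc R A x z = 0 := fun h1 h2 h3 =>
    cc_tri hUR hUcl hAU hAcl h1 h2 h3
  have hS1 : ∀ a s : ℤ, TA G (a, s) (a + 1, s) := fun a s => Or.inr (Or.inl ⟨rfl, Or.inl rfl⟩)
  have hS2 : ∀ a s : ℤ, TA G (a, s) (a, s + 1) := fun a s => Or.inr (Or.inr ⟨rfl, Or.inl rfl⟩)
  have sq : ∀ a s : ℤ, cc R A (a, s) (a + 1, s) + cc R A (a + 1, s) (a + 1, s + 1) +
      cc R A (a, s + 1) (a + 1, s + 1) + cc R A (a, s) (a, s + 1) = 0 := by
    intro a s
    rcases diag G a s with h | h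
    · have t1 := tri (hS1 a s) (hS2 (a + 1) s) (Or.inl h)
      have t2 := tri (hS2 a s) (hS1 a (s + 1)) (Or.inl h)
      have e : cc R A (a, s) (a + 1, s + 1) + cc R A (a, s) (a + 1, s + 1) = 0 :=
        CharTwo.add_self_eq_zero _
      linear_combination t1 + t2 - e
    · have t1 := tri (TA_symm (hS1 a s)) (hS2 a s) (Or.inl h)
      have t2 := tri (hS2 (a + 1) s) (TA_symm (hS1 a (s + 1))) (Or.inl h)
      have e : cc R A (a + 1, s) (a, s + 1) + cc R A (a + 1, s) (a, s + 1) = 0 :=
        CharTwo.add_self_eq_zero _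
      rw [cc_comm R A (a + 1, s) (a, s)] at t1
      rw [cc_comm R A (a + 1, s + 1) (a, s + 1)] at t2
      linear_combination t1 + t2 - e
  obtain ⟨h, hh1, hh2⟩ := prim2 (fun a s => cc R A (a, s) (a + 1, s))
    (fun a s => cc R A (a, s) (a, s + 1)) sq
  -- the potential
  have hSt : ∀ p q : ℤ × ℤ, St p q → h q.1 q.2 = h p.1 p.2 + cc R A p q := by
    rintro ⟨a, s⟩ ⟨b, t⟩ hpq
    have two : ∀ x : ZMod 2, x + x = 0 := fun x => CharTwo.add_self_eq_zero _
    rcases hpq with ⟨h1, h2⟩ | ⟨h1, h2⟩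
    · simp only at h1 h2
      subst h1
      rcases h2 with h2 | h2
      · subst h2
        exact hh1 a s
      · subst h2
        rw [cc_comm]
        have := hh1 b s
        simp only at this ⊢
        rw [this, add_assoc, two, add_zero]
    · simp only at h1 h2
      subst h1
      rcases h2 with h2 | h2
      · subst h2
        exact hh2 a s
      · subst h2
        rw [cc_comm]
        have := hh2 a t
        simp only at this ⊢
        rw [this, add_assoc, two, add_zero]
  have hTA : ∀ p q : ℤ × ℤ, TA G p q → h q.1 q.2 = h p.1 p.2 + cc R A p q := by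
    intro p q hpq
    rcases hpq with hpq | hpq
    · obtain ⟨z, hz1, hz2⟩ := Mv_diag hpq
      have t := tri (Or.inr hz1 : TA G p z) (Or.inr hz2 : TA G z q) (Or.inl hpq)
      rw [hSt z q hz2, hSt p z hz1]
      have e : cc R A p q + cc R A p q = 0 := CharTwo.add_self_eq_zero _
      linear_combination t - e
    · exact hSt p q hpq
  -- along `U`
  have hU : ∀ u u' : ℤ × ℤ, U u →
      Relation.ReflTransGen (fun a b => TA G a b ∧ U b) u u' → h u'.1 u'.2 = h u.1 u.2 ∧ U u' := by
    intro u u' hu hp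
    induction hp with
    | refl => exact ⟨rfl, hu⟩
    | @tail x y _ hs ih =>
      refine ⟨?_, hs.2⟩
      rw [hTA x y hs.1, ih.1]
      have : cc R A x y = 0 := by
        unfold cc
        rw [if_neg]
        rintro (⟨h1, -⟩ | ⟨-, h1⟩)
        · exact hUR x ih.2 h1
        · exact hUR y hs.2 h1
      rw [this, add_zero]
  have hR : ∀ u u' : ℤ × ℤ, R u →
      Relation.ReflTransGen (fun a b => TA G a b ∧ R b) u u' → h u'.1 u'.2 = h u.1 u.2 ∧ R u' := by
    intro u u' hu hp
    induction hp with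
    | refl => exact ⟨rfl, hu⟩
    | @tail x y _ hs ih =>
      refine ⟨?_, hs.2⟩
      rw [hTA x y hs.1, ih.1]
      have : cc R A x y = 0 := by
        unfold cc
        rw [if_neg]
        rintro (⟨-, h1⟩ | ⟨h1, -⟩)
        · exact hRA y h1 hs.2
        · exact hRA x h1 ih.2
      rw [this, add_zero]
  obtain ⟨ra, hra, hra'⟩ := ha'
  obtain ⟨rb, hrb, hrb'⟩ := hb'
  have e1 := (hU a b ha (hUc a b ha hb)).1
  have e2 := (hR ra rb hra (hRc ra rb hra hrb)).1
  have e3 := hTA ra a hra'
  have e4 := hTA rb b hrb'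
  have c3 : cc R A ra a = 1 := by
    unfold cc
    rw [if_pos (Or.inl ⟨hra, hAa⟩)]
  have c4 : cc R A rb b = 0 := by
    unfold cc
    rw [if_neg]
    rintro (⟨-, h1⟩ | ⟨h1, -⟩)
    · exact hAb h1
    · exact hRA rb h1 hrb
  rw [c3] at e3
  rw [c4, add_zero] at e4
  rw [e4, e2, e3] at e1
  have : (1 : ZMod 2) = 0 := by
    have h3 := e1
    linear_combination -h3
  exact one_ne_zero this

end Pool.Agent.H78CZ
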