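import Pool.Agent.H78CZ.A

/-!
# The nested clusters around a point
-/

set_option autoImplicit false

namespace Pool.Agent.H78CZ
open H974 H906.Cyl
open Pool.Agent.W819.EN (Ch nb St lnk Mv fc nmv DA)
open Relation (ReflTransGen)

section paths
variable {X : Type*} {T : X → X → Prop} {P : X → Prop}

theorem rmono {T' : X → X → Prop} (h : ∀ a b, T a b → T' a b) {a b : X}
    (hp : ReflTransGen T a b) : ReflTransGen T' a b := by
  induction hp with
  | refl => exact ReflTransGen.refl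
  | tail _ hs ih => exact ReflTransGen.tail ih (h _ _ hs)

theorem rev_path (hT : ∀ a b, T a b → T b a) {a b : X}
    (h : ReflTransGen (fun a b => T a b ∧ P b) a b) (ha : P a) :
    ReflTransGen (fun a b => T a b ∧ P b) b a ∧ P b := by
  induction h with
  | refl => exact ⟨ReflTransGen.refl, ha⟩
  | @tail x y _ hs ih =>
    exact ⟨ReflTransGen.head ⟨hT _ _ hs.1, ih.2⟩ ih.1, hs.2⟩

theorem last_exit' {a b : X} (h : ReflTransGen T a b) (ha : P a) (hb : ¬ P b) :
    ∃ x y, P x ∧ ¬ P y ∧ T x y ∧ ReflTransGen (fun a b => T a b ∧ ¬ P b) y b := by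
  have key : ∀ a, ReflTransGen T a b →
      (¬ P a ∧ ReflTransGen (fun a b => T a b ∧ ¬ P b) a b) ∨
      ∃ x y, P x ∧ ¬ P y ∧ T x y ∧ ReflTransGen (fun a b => T a b ∧ ¬ P b) y b := by
    intro a h
    induction h using ReflTransGen.head_induction_on with
    | refl => exact Or.inl ⟨hb, ReflTransGen.refl⟩
    | @head x y hxy _ ih =>
      rcases ih with ⟨h1, h2⟩ | h1
      · by_cases hx : P x
        · exact Or.inr ⟨x, y, hx, h1, hxy, h2⟩
        · exact Or.inl ⟨hx, ReflTransGen.head ⟨hxy, h1⟩ h2⟩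
      · exact Or.inr h1
  rcases key a h with ⟨h1, -⟩ | h1
  · exact absurd ha h1
  · exact h1

end paths

variable {G : Set Edg} {p0 : ℤ × ℤ}

/-- `p` can be reached from `p0` with at most `k` changes -/
def RR (G : Set Edg) (p0 : ℤ × ℤ) (k : ℕ) (p : ℤ × ℤ) : Prop := Ch (Mv G) St k p0 p

/-- the cluster of `p` -/
def cl (G : Set Edg) (p : ℤ × ℤ) : Set (ℤ × ℤ) := {q | ReflTransGen (Mv G) p q}

theorem cl_self (p : ℤ × ℤ) : p ∈ cl G p := ReflTransGen.refl

theorem mv_symm' {p q : ℤ × ℤ} (h : ReflTransGen (Mv G) p q) : ReflTransGen (Mv G) q p := by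
  induction h with
  | refl => exact ReflTransGen.refl
  | tail _ hs ih => exact ReflTransGen.head (Mv_symm hs) ih

theorem cl_eq {p q : ℤ × ℤ} (h : q ∈ cl G p) : cl G q = cl G p := by
  ext z
  exact ⟨fun hz => ReflTransGen.trans h hz, fun hz => ReflTransGen.trans (mv_symm' h) hz⟩

theorem RR_mono {k l : ℕ} (h : k ≤ l) {p : ℤ × ℤ} (hp : RR G p0 k p) : RR G p0 l p := hp.mono h

theorem RR_self (k : ℕ) : RR G p0 k p0 := Ch.refl k p0

theorem RR_mv {k : ℕ} {p q : ℤ × ℤ} (hp : RR G p0 k p) (h : Mv G p q) : RR G p0 k q :=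
  Ch.rel hp h

theorem RR_st {k : ℕ} {p q : ℤ × ℤ} (hp : RR G p0 k p) (h : St p q) : RR G p0 (k + 1) q :=
  Ch.step hp h

theorem RR_cl {k : ℕ} {p q : ℤ × ℤ} (hp : RR G p0 k p) (h : ReflTransGen (Mv G) p q) :
    RR G p0 k q := by
  induction h with
  | refl => exact hp
  | tail _ hs ih => exact RR_mv ih hs

theorem RR_cl_iff {k : ℕ} {p q : ℤ × ℤ} (h : q ∈ cl G p) : RR G p0 k q ↔ RR G p0 k p :=
  ⟨fun hq => RR_cl hq (mv_symm' h), fun hp => RR_cl hp h⟩

theorem RR_zero {p : ℤ × ℤ} : RR G p0 0 p ↔ p ∈ cl G p0 := by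
  constructor
  · intro h
    unfold RR at h
    generalize hk : 0 = k at h
    induction h with
    | refl k a => exact cl_self _
    | rel _ hr ih => exact ReflTransGen.tail (ih hk) hr
    | step _ _ _ => omega
  · intro h
    exact RR_cl (RR_self 0) h

theorem RR_conn {k : ℕ} {p : ℤ × ℤ} (h : RR G p0 k p) :
    ReflTransGen (fun a b => TA G a b ∧ RR G p0 k b) p0 p := by
  unfold RR at h
  induction h with
  | refl k a => exact ReflTransGen.refl
  | @rel k a b c hab hr ih => exact ReflTransGen.tail ih ⟨Or.inl hr, Ch.rel hab hr⟩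
  | @step k a b c hab hs ih =>
    refine ReflTransGen.tail (rmono ?_ ih) ⟨Or.inr hs, Ch.step hab hs⟩
    rintro x y ⟨h1, h2⟩
    exact ⟨h1, RR_mono (Nat.le_succ k) h2⟩

theorem RR_conn2 {k : ℕ} {p q : ℤ × ℤ} (hp : RR G p0 k p) (hq : RR G p0 k q) :
    ReflTransGen (fun a b => TA G a b ∧ RR G p0 k b) p q :=
  ReflTransGen.trans (rev_path (fun _ _ => TA_symm) (RR_conn hp) (RR_self k)).1 (RR_conn hq)

theorem RR_last {j : ℕ} {p : ℤ × ℤ} (h : RR G p0 (j + 1) p) (hn : ¬ RR G p0 j p) :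
    ∃ r p', RR G p0 j r ∧ St r p' ∧ ReflTransGen (Mv G) p' p := by
  unfold RR at h
  generalize hk : j + 1 = k at h
  induction h with
  | refl k a => exact absurd (RR_self j) hn
  | @rel k a b c hab hr ih =>
    obtain ⟨r, p', h1, h2, h3⟩ := ih (fun hb => hn (RR_mv hb hr)) hk
    exact ⟨r, p', h1, h2, ReflTransGen.tail h3 hr⟩
  | @step k a b c hab hs ih =>
    have : j = k := by omega
    subst this
    exact ⟨b, c, hab, hs, ReflTransGen.refl⟩

/-- parity of a face: the colour -/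
def par (p : ℤ × ℤ) : ℤ := (p.1 + p.2) % 2

theorem par_mv {p q : ℤ × ℤ} (h : Mv G p q) : par q = par p := by
  unfold par
  rcases h with ⟨h1, h2⟩ | ⟨h1, h2⟩
  · rcases h2 with h2 | h2 <;> have := h2.1 <;> omega
  · rcases h2 with h2 | h2 <;> have := h2.1 <;> omega

theorem par_st {p q : ℤ × ℤ} (h : St p q) : par q = 1 - par p := by
  unfold par
  unfold St nb at h
  omega

theorem par_cl {p q : ℤ × ℤ} (h : q ∈ cl G p) : par q = par p := by
  induction h with
  | refl => rfl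
  | tail _ hs ih => rw [par_mv hs, ih]

theorem ta_same {p q : ℤ × ℤ} (h : TA G p q) (hp : par q = par p) : Mv G p q := by
  rcases h with h | h
  · exact h
  · have := par_st h
    unfold par at *
    omega

theorem RR_par {k : ℕ} {p : ℤ × ℤ} (h : RR G p0 k p) :
    ∃ j ≤ k, RR G p0 j p ∧ (j + par p0 + par p) % 2 = 0 := by
  unfold RR at h
  induction h with
  | refl k a => exact ⟨0, Nat.zero_le _, RR_self 0, by unfold par; omega⟩
  | @rel k a b c hab hr ih =>
    obtain ⟨j, h1, h2, h3⟩ := ih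
    refine ⟨j, h1, RR_mv h2 hr, ?_⟩
    rw [par_mv hr]
    exact h3
  | @step k a b c hab hs ih =>
    obtain ⟨j, h1, h2, h3⟩ := ih
    refine ⟨j + 1, by omega, RR_st h2 hs, ?_⟩
    rw [par_st hs]
    push_cast
    omega

/-- the parity of the minimal number of changes -/
theorem cost_par {k : ℕ} {p : ℤ × ℤ} (h : RR G p0 k p) (hm : ∀ j < k, ¬ RR G p0 j p) :
    (k + par p0 + par p) % 2 = 0 := by
  obtain ⟨j, h1, h2, h3⟩ := RR_par h
  rcases lt_or_eq_of_le h1 with h4 | h4
  · exact absurd h2 (hm j h4)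
  · rw [← h4]; exact h3

/-- the unbounded component -/
def UU (G : Set Edg) (p0 : ℤ × ℤ) (far : ℤ × ℤ → Prop) (j : ℕ) (p : ℤ × ℤ) : Prop :=
  ∃ q, far q ∧ ReflTransGen (fun a b => TA G a b ∧ ¬ RR G p0 j b) q p

/-- the boundary of the unbounded component -/
def CB (G : Set Edg) (p0 : ℤ × ℤ) (far : ℤ × ℤ → Prop) (j : ℕ) (p : ℤ × ℤ) : Prop :=
  UU G p0 far j p ∧ ∃ r, RR G p0 j r ∧ TA G r p

section main
variable {far : ℤ × ℤ → Prop} {N j : ℕ}

theorem UU_not (hN2 : ∀ k < N, ∀ q, RR G p0 k q → ¬ far q) (hj : j < N) {p : ℤ × ℤ}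
    (h : UU G p0 far j p) : ¬ RR G p0 j p := by
  obtain ⟨q, hq, hp⟩ := h
  rcases ReflTransGen.cases_tail hp with h1 | ⟨c, -, h1⟩
  · rw [h1]
    exact fun h2 => hN2 j hj q h2 hq
  · exact h1.2

theorem CB_cost (hN2 : ∀ k < N, ∀ q, RR G p0 k q → ¬ far q) (hj : j < N) {p : ℤ × ℤ}
    (h : CB G p0 far j p) : RR G p0 (j + 1) p ∧ ∀ i < j + 1, ¬ RR G p0 i p := by
  have h1 := UU_not hN2 hj h.1
  obtain ⟨r, hr, hrp⟩ := h.2
  refine ⟨?_, fun i hi h2 => h1 (RR_mono (by omega) h2)⟩
  rcases hrp with h2 | h2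
  · exact absurd (RR_mv hr h2) h1
  · exact RR_st hr h2

/-- the boundary belongs to one cluster -/
theorem CB_one (hF : ∀ q q', far q → far q' → ReflTransGen (fun a b => TA G a b ∧ far b) q q')
    (hN2 : ∀ k < N, ∀ q, RR G p0 k q → ¬ far q) (hj : j < N) {a b : ℤ × ℤ}
    (ha : CB G p0 far j a) (hb : CB G p0 far j b) : b ∈ cl G a := by
  have hfar : ∀ q, far q → UU G p0 far j q := fun q hq => ⟨q, hq, ReflTransGen.refl⟩
  have hcl : ∀ p q, UU G p0 far j p → TA G p q → ¬ RR G p0 j q → UU G p0 far j q := by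
    rintro p q ⟨z, hz, hp⟩ hpq hq
    exact ⟨z, hz, ReflTransGen.tail hp ⟨hpq, hq⟩⟩
  have hU : ∀ q u, far q → ReflTransGen (fun a b => TA G a b ∧ ¬ RR G p0 j b) q u →
      ReflTransGen (fun a b => TA G a b ∧ UU G p0 far j b) q u := by
    intro q u hq hp
    induction hp with
    | refl => exact ReflTransGen.refl
    | @tail x y hx hs ih =>
      exact ReflTransGen.tail ih ⟨hs.1, ⟨q, hq, ReflTransGen.tail hx hs⟩⟩
  have key := bdry_conn (G := G) (R := RR G p0 j) (U := UU G p0 far j)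
    (fun r r' hr hr' => RR_conn2 hr hr') (fun p hp => UU_not hN2 hj hp) hcl
    (by
      rintro u u' ⟨q, hq, hp⟩ ⟨q', hq', hp'⟩
      have h1 := (rev_path (fun _ _ => TA_symm) (hU q u hq hp) (hfar q hq)).1
      have h2 := hU q' u' hq' hp'
      have h3 : ReflTransGen (fun a b => TA G a b ∧ UU G p0 far j b) q q' :=
        rmono (fun x y h => ⟨h.1, hfar y h.2⟩) (hF q q' hq hq')
      exact (h1.trans h3).trans h2)
    ha.1 ha.2 hb.1 hb.2
  -- the boundary has one colour
  have hpar : ∀ p, CB G p0 far j p → ((j + 1 : ℕ) + par p0 + par p) % 2 = 0 := fun p hp =>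
    cost_par (CB_cost hN2 hj hp).1 (CB_cost hN2 hj hp).2
  have h2 : ∀ z, ReflTransGen
      (fun x y => TA G x y ∧ UU G p0 far j y ∧ ∃ r, RR G p0 j r ∧ TA G r y) a z →
      z ∈ cl G a ∧ CB G p0 far j z := by
    intro z hz
    induction hz with
    | refl => exact ⟨cl_self a, ha⟩
    | @tail x y _ hs ih =>
      refine ⟨ReflTransGen.tail ih.1 (ta_same hs.1 ?_), hs.2⟩
      have e1 := hpar x ih.2
      have e2 := hpar y hs.2
      unfold par at *
      omega
  exact (h2 b key).1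

/-- `K` separates `p0` from the far points -/
def Sur (G : Set Edg) (p0 : ℤ × ℤ) (far : ℤ × ℤ → Prop) (K : Set (ℤ × ℤ)) : Prop :=
  ¬ (p0 ∉ K ∧ ∃ q, far q ∧ ReflTransGen (fun a b => TA G a b ∧ b ∉ K) p0 q)

theorem CB_exists (hN1 : ∃ q, far q ∧ RR G p0 N q)
    (hN2 : ∀ k < N, ∀ q, RR G p0 k q → ¬ far q) (hj : j < N) : ∃ u, CB G p0 far j u := by
  obtain ⟨q, hq, hp⟩ := hN1
  have h1 : ReflTransGen (TA G) p0 q := rmono (fun x y h => h.1) (RR_conn hp)
  obtain ⟨x, y, hx, hy, hxy, hyq⟩ := last_exit' (P := RR G p0 j) h1 (RR_self j)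
    (fun h => hN2 j hj q h hq)
  refine ⟨y, ⟨q, hq, ?_⟩, x, hx, hxy⟩
  exact (rev_path (P := fun b => ¬ RR G p0 j b) (fun _ _ => TA_symm) hyq hy).1

/-- the nested clusters -/
theorem nest (hF : ∀ q q', far q → far q' → ReflTransGen (fun a b => TA G a b ∧ far b) q q')
    (hN1 : ∃ q, far q ∧ RR G p0 N q) (hN2 : ∀ k < N, ∀ q, RR G p0 k q → ¬ far q)
    (hfin : ∀ p, ∃ k, RR G p0 k p) :
    ∃ f : ℕ → Set (ℤ × ℤ), (∀ k < N, (∃ p, f k = cl G p) ∧ (∀ p ∈ f k, ¬ far p) ∧
        Sur G p0 far (f k) ∧ ∀ p ∈ f k, RR G p0 k p ∧ ∀ i < k, ¬ RR G p0 i p) ∧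
      ∀ K, (∃ p, K = cl G p) → (∀ p ∈ K, ¬ far p) → Sur G p0 far K → ∃ k < N, K = f k := by
  classical
  have hex : ∀ j, j < N → ∃ u, CB G p0 far j u := fun j hj => CB_exists hN1 hN2 hj
  choose u hu using hex
  have hone : ∀ {j} (hj : j < N) {b}, CB G p0 far j b → b ∈ cl G (u j hj) := fun hj b hb =>
    CB_one hF hN2 hj (hu _ hj) hb
  refine ⟨fun k => if h : 1 ≤ k ∧ k ≤ N then cl G (u (k - 1) (by omega)) else cl G p0, ?_, ?_⟩
  · intro k hk
    by_cases h1 : 1 ≤ k
    · obtain ⟨j, rfl⟩ : ∃ j, k = j + 1 := ⟨k - 1, by omega⟩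
      have hj : j < N := by omega
      have e : (if h : 1 ≤ j + 1 ∧ j + 1 ≤ N then cl G (u (j + 1 - 1) (by omega))
          else cl G p0) = cl G (u j hj) := by
        rw [dif_pos ⟨h1, by omega⟩]
        rfl
      simp only [e]
      have hcost := CB_cost hN2 hj (hu j hj)
      have hc : ∀ p ∈ cl G (u j hj), RR G p0 (j + 1) p ∧ ∀ i < j + 1, ¬ RR G p0 i p := by
        intro p hp
        refine ⟨(RR_cl_iff hp).2 hcost.1, fun i hi h => hcost.2 i hi ((RR_cl_iff hp).1 h)⟩
      refine ⟨⟨_, rfl⟩, fun p hp => hN2 _ hk p (hc p hp).1, ?_, hc⟩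
      rintro ⟨h2, q, hq, h3⟩
      obtain ⟨x, y, hx, hy, hxy, hyq⟩ := last_exit' (P := RR G p0 j) h3 (RR_self j)
        (fun h => hN2 j hj q h hq)
      have hy' : CB G p0 far j y := by
        refine ⟨⟨q, hq, ?_⟩, x, hx, hxy.1⟩
        have h4 : ReflTransGen (fun a b => TA G a b ∧ ¬ RR G p0 j b) y q :=
          rmono (fun a b h => ⟨h.1.1, h.2⟩) hyq
        exact (rev_path (P := fun b => ¬ RR G p0 j b) (fun _ _ => TA_symm) h4 hy).1
      exact hxy.2 (hone hj hy')
    · have hk0 : k = 0 := by omega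
      subst hk0
      have e : (if h : 1 ≤ 0 ∧ 0 ≤ N then cl G (u (0 - 1) (by omega)) else cl G p0) =
          cl G p0 := by
        rw [dif_neg (by omega)]
      simp only [e]
      refine ⟨⟨_, rfl⟩, fun p hp => hN2 0 hk p (RR_zero.2 hp), fun h => h.1 (cl_self p0),
        fun p hp => ⟨RR_zero.2 hp, fun i hi => absurd hi (Nat.not_lt_zero i)⟩⟩
  · rintro K ⟨p1, rfl⟩ hnear hsur
    obtain ⟨k, hk, hkm⟩ : ∃ k, RR G p0 k p1 ∧ ∀ i < k, ¬ RR G p0 i p1 :=
      ⟨Nat.find (hfin p1), Nat.find_spec (hfin p1), fun i hi => Nat.find_min (hfin p1) hi⟩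
    rcases Nat.eq_zero_or_pos k with h0 | h0
    · subst h0
      have h1 : cl G p1 = cl G p0 := cl_eq (RR_zero.1 hk)
      have hN0 : 0 < N := by
        by_contra hN
        have hN' : N = 0 := by omega
        subst hN'
        obtain ⟨q, hq, h2⟩ := hN1
        have h3 := RR_zero.1 h2
        rw [← h1] at h3
        exact hnear q h3 hq
      refine ⟨0, hN0, ?_⟩
      show cl G p1 = if h : 1 ≤ 0 ∧ 0 ≤ N then cl G (u (0 - 1) (by omega)) else cl G p0
      rw [dif_neg (by omega)]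
      exact h1
    · obtain ⟨j, rfl⟩ : ∃ j, k = j + 1 := ⟨k - 1, by omega⟩
      have hK : ∀ z ∈ cl G p1, ¬ RR G p0 j z := fun z hz h =>
        hkm j (by omega) ((RR_cl_iff hz).1 h)
      have hj : j < N := by
        by_contra hjN
        push Not at hjN
        apply hsur
        obtain ⟨q, hq, h2⟩ := hN1
        refine ⟨fun h => hK p0 h (RR_self j), q, hq, ?_⟩
        refine rmono ?_ (RR_conn h2)
        rintro a b ⟨h3, h4⟩
        exact ⟨h3, fun h5 => hK b h5 (RR_mono hjN h4)⟩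
      obtain ⟨r, p', hr, hrp, hpp⟩ := RR_last hk (hkm j (by omega))
      have hp'K : p' ∈ cl G p1 := mv_symm' hpp
      by_cases hU : UU G p0 far j p'
      · have hp' : CB G p0 far j p' := ⟨hU, r, hr, Or.inr hrp⟩
        by_cases hjN : j + 1 < N
        · refine ⟨j + 1, hjN, ?_⟩
          show cl G p1 = if h : 1 ≤ j + 1 ∧ j + 1 ≤ N then cl G (u (j + 1 - 1) (by omega))
            else cl G p0
          rw [dif_pos ⟨by omega, by omega⟩]
          have h2 := hone hj hp'
          show cl G p1 = cl G (u j hj)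
          rw [← cl_eq hp'K, cl_eq h2]
        · exfalso
          have hN : N = j + 1 := by omega
          obtain ⟨q, hq, h2⟩ := hN1
          rw [hN] at h2
          have hqj : ¬ RR G p0 j q := fun h => hN2 j hj q h hq
          obtain ⟨r', p'', hr', hrp', hpq⟩ := RR_last h2 hqj
          have hU' : UU G p0 far j p'' := by
            refine ⟨q, hq, ?_⟩
            have h5 : ∀ z, ReflTransGen (Mv G) q z →
                ReflTransGen (fun a b => TA G a b ∧ ¬ RR G p0 j b) q z := by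
              intro z hz
              induction hz with
              | refl => exact ReflTransGen.refl
              | @tail x y hx hs ih =>
                exact ReflTransGen.tail ih ⟨Or.inl hs, fun h6 =>
                  hqj ((RR_cl_iff (ReflTransGen.tail hx hs)).1 h6)⟩
            exact h5 _ (mv_symm' hpq)
          have hp'' : CB G p0 far j p'' := ⟨hU', r', hr', Or.inr hrp'⟩
          have h6 : p'' ∈ cl G p' := CB_one hF hN2 hj hp' hp''
          have h7 : q ∈ cl G p1 := (hp'K.trans h6).trans hpq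
          exact hnear q h7 hq
      · exfalso
        apply hsur
        refine ⟨fun h => hK p0 h (RR_self j), ?_⟩
        have hUK : ∀ z, UU G p0 far j z → z ∉ cl G p1 := by
          intro z hz hzK
          apply hU
          obtain ⟨q, hq, hp⟩ := hz
          refine ⟨q, hq, ?_⟩
          have h5 : ∀ w, ReflTransGen (Mv G) z w → w ∈ cl G p1 ∧
              ReflTransGen (fun a b => TA G a b ∧ ¬ RR G p0 j b) q w := by
            intro w hw
            induction hw with
            | refl => exact ⟨hzK, hp⟩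
            | @tail x y hx hs ih =>
              have h6 : y ∈ cl G p1 := ReflTransGen.tail ih.1 hs
              exact ⟨h6, ReflTransGen.tail ih.2 ⟨Or.inl hs, hK y h6⟩⟩
          have h7 : ReflTransGen (Mv G) z p' := (mv_symm' hzK).trans hp'K
          exact (h5 p' h7).2
        obtain ⟨⟨q, hq, hqu⟩, x, hx, hxu⟩ := hu j hj
        refine ⟨q, hq, ?_⟩
        have h1 : ReflTransGen (fun a b => TA G a b ∧ b ∉ cl G p1) p0 x :=
          rmono (fun a b h => ⟨h.1, fun h2 => hK b h2 h.2⟩) (RR_conn hx)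
        have h2 : TA G x (u j hj) ∧ u j hj ∉ cl G p1 := ⟨hxu, hUK _ (hu j hj).1⟩
        have h3 : ∀ w, ReflTransGen (fun a b => TA G a b ∧ ¬ RR G p0 j b) q w →
            ReflTransGen (fun a b => TA G a b ∧ b ∉ cl G p1) q w := by
          intro w hw
          induction hw with
          | refl => exact ReflTransGen.refl
          | @tail x y hx hs ih =>
            exact ReflTransGen.tail ih ⟨hs.1, hUK y ⟨q, hq, ReflTransGen.tail hx hs⟩⟩
        have h4 := (rev_path (P := fun b => b ∉ cl G p1) (fun _ _ => TA_symm) (h3 _ hqu)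
          (hUK q ⟨q, hq, ReflTransGen.refl⟩)).1
        exact (ReflTransGen.tail h1 h2).trans h4

end main

end Pool.Agent.H78CZ
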