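import Pool.Agent.H78CZ.B
import Pool.Agent.W819.EN.Layers

/-!
# The number of open clusters which surround a vertex inside a box
-/

set_option autoImplicit false

namespace Pool.Agent.H78CZ
open H974 H906.Cyl
open Pool.Agent.W819.EN (Ch nb St lnk Mv fc nmv DA NS start_eq)
open Relation (ReflTransGen)

variable {G : Set Edg}

theorem hseg {P : ℤ × ℤ → Prop} (x y : ℤ) (n : ℕ)
    (h : ∀ t : ℤ, x ≤ t → t ≤ x + n → P (t, y)) :
    ReflTransGen (fun a b => TA G a b ∧ P b) (x, y) (x + n, y) := by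
  induction n with
  | zero => simpa using ReflTransGen.refl
  | succ n ih =>
    refine ReflTransGen.tail (ih fun t h1 h2 => h t h1 (by push_cast; omega)) ⟨?_, ?_⟩
    · refine Or.inr (Or.inl ⟨rfl, Or.inl ?_⟩)
      simp only
      push_cast
      ring
    · exact h _ (by push_cast; omega) (by push_cast; omega)

theorem vseg {P : ℤ × ℤ → Prop} (x y : ℤ) (n : ℕ)
    (h : ∀ t : ℤ, y ≤ t → t ≤ y + n → P (x, t)) :
    ReflTransGen (fun a b => TA G a b ∧ P b) (x, y) (x, y + n) := by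
  induction n with
  | zero => simpa using ReflTransGen.refl
  | succ n ih =>
    refine ReflTransGen.tail (ih fun t h1 h2 => h t h1 (by push_cast; omega)) ⟨?_, ?_⟩
    · refine Or.inr (Or.inr ⟨rfl, Or.inl ?_⟩)
      simp only
      push_cast
      ring
    · exact h _ (by push_cast; omega) (by push_cast; omega)

theorem hseg' {P : ℤ × ℤ → Prop} {x x' y : ℤ} (hx : x ≤ x')
    (h : ∀ t : ℤ, x ≤ t → t ≤ x' → P (t, y)) :
    ReflTransGen (fun a b => TA G a b ∧ P b) (x, y) (x', y) := by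
  obtain ⟨n, rfl⟩ : ∃ n : ℕ, x' = x + n := ⟨(x' - x).toNat, by omega⟩
  exact hseg x y n h

theorem vseg' {P : ℤ × ℤ → Prop} {x y y' : ℤ} (hy : y ≤ y')
    (h : ∀ t : ℤ, y ≤ t → t ≤ y' → P (x, t)) :
    ReflTransGen (fun a b => TA G a b ∧ P b) (x, y) (x, y') := by
  obtain ⟨n, rfl⟩ : ∃ n : ℕ, y' = y + n := ⟨(y' - y).toNat, by omega⟩
  exact vseg x y n h

/-- a far point is connected with a corner, through far points -/
theorem far_corner (v : Vtx) (M : ℤ) (T : ℤ) {q : ℤ × ℤ} (hq : M ≤ nmv v q) (hT : M ≤ T)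
    (hT1 : |q.1 - (v.1 + v.2)| ≤ T) (hT2 : |q.2 - (v.1 - v.2)| ≤ T) :
    ReflTransGen (fun a b => TA G a b ∧ M ≤ nmv v b) q (v.1 + v.2 + T, v.1 - v.2 + T) := by
  obtain ⟨x, y⟩ := q
  simp only at hT1 hT2
  have hT1' := abs_le.1 hT1
  have hT2' := abs_le.1 hT2
  unfold nmv at hq
  simp only at hq
  have hx0 := abs_nonneg (x - (v.1 + v.2))
  have side : ∀ t : ℤ, M ≤ nmv v (v.1 + v.2 + T, t) := by
    intro t
    unfold nmv
    simp only
    have e : v.1 + v.2 + T - (v.1 + v.2) = T := by ring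
    rw [e]
    have := le_abs_self T
    have := abs_nonneg (t - (v.1 - v.2))
    omega
  rcases le_or_gt (v.1 - v.2) y with h | h
  · have s1 : ReflTransGen (fun a b => TA G a b ∧ M ≤ nmv v b) (x, y) (x, v.1 - v.2 + T) := by
      apply vseg' (by omega)
      intro t h1 h2
      unfold nmv
      simp only
      rw [abs_of_nonneg (by omega : 0 ≤ y - (v.1 - v.2))] at hq
      rw [abs_of_nonneg (by omega : 0 ≤ t - (v.1 - v.2))]
      omega
    have s2 : ReflTransGen (fun a b => TA G a b ∧ M ≤ nmv v b) (x, v.1 - v.2 + T)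
        (v.1 + v.2 + T, v.1 - v.2 + T) := by
      apply hseg' (by omega)
      intro t h1 h2
      unfold nmv
      simp only
      have e : v.1 - v.2 + T - (v.1 - v.2) = T := by ring
      rw [e]
      have := le_abs_self T
      have := abs_nonneg (t - (v.1 + v.2))
      omega
    exact s1.trans s2
  · have hd : M ≤ nmv v (x, v.1 - v.2 - T) := by
      unfold nmv
      simp only
      have e : v.1 - v.2 - T - (v.1 - v.2) = -T := by ring
      rw [e, abs_neg]
      have := le_abs_self T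
      omega
    have s1 : ReflTransGen (fun a b => TA G a b ∧ M ≤ nmv v b) (x, y) (x, v.1 - v.2 - T) := by
      have := vseg' (G := G) (P := fun b => M ≤ nmv v b) (x := x) (y := v.1 - v.2 - T)
        (y' := y) (by omega) (by
          intro t h1 h2
          show M ≤ nmv v (x, t)
          unfold nmv
          simp only
          rw [abs_of_neg (by omega : y - (v.1 - v.2) < 0)] at hq
          rw [abs_of_neg (by omega : t - (v.1 - v.2) < 0)]
          omega)
      exact (rev_path (P := fun b => M ≤ nmv v b) (fun _ _ => TA_symm) this hd).1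
    have s2 : ReflTransGen (fun a b => TA G a b ∧ M ≤ nmv v b) (x, v.1 - v.2 - T)
        (v.1 + v.2 + T, v.1 - v.2 - T) := by
      apply hseg' (by omega)
      intro t h1 h2
      unfold nmv
      simp only
      have e : v.1 - v.2 - T - (v.1 - v.2) = -T := by ring
      rw [e, abs_neg]
      have := le_abs_self T
      have := abs_nonneg (t - (v.1 + v.2))
      omega
    have s3 : ReflTransGen (fun a b => TA G a b ∧ M ≤ nmv v b) (v.1 + v.2 + T, v.1 - v.2 - T)
        (v.1 + v.2 + T, v.1 - v.2 + T) := by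
      apply vseg' (by omega)
      intro t _ _
      exact side t
    exact (s1.trans s2).trans s3

theorem far_conn (v : Vtx) (M : ℤ) {q q' : ℤ × ℤ} (hq : M ≤ nmv v q) (hq' : M ≤ nmv v q') :
    ReflTransGen (fun a b => TA G a b ∧ M ≤ nmv v b) q q' := by
  set T : ℤ := |M| + (|q.1 - (v.1 + v.2)| + |q.2 - (v.1 - v.2)|) +
    (|q'.1 - (v.1 + v.2)| + |q'.2 - (v.1 - v.2)|) with hT
  have a0 := abs_nonneg M
  have a0' := le_abs_self M
  have a1 := abs_nonneg (q.1 - (v.1 + v.2))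
  have a2 := abs_nonneg (q.2 - (v.1 - v.2))
  have a3 := abs_nonneg (q'.1 - (v.1 + v.2))
  have a4 := abs_nonneg (q'.2 - (v.1 - v.2))
  have h1 := far_corner (G := G) v M T hq (by omega) (by omega) (by omega)
  have h2 := far_corner (G := G) v M T hq' (by omega) (by omega) (by omega)
  exact h1.trans (rev_path (P := fun b => M ≤ nmv v b) (fun _ _ => TA_symm) h2 hq').1

theorem nmv_nonneg (v : Vtx) (p : ℤ × ℤ) : 0 ≤ nmv v p :=
  add_nonneg (abs_nonneg _) (abs_nonneg _)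

theorem hfin (v : Vtx) (p : ℤ × ℤ) : ∃ k, RR G (fc v) k p := by
  have h := far_conn (G := G) v 0 (nmv_nonneg v (fc v)) (nmv_nonneg v p)
  induction h with
  | refl => exact ⟨0, RR_self 0⟩
  | tail _ hs ih =>
    obtain ⟨k, hk⟩ := ih
    rcases hs.1 with h1 | h1
    · exact ⟨k, RR_mv hk h1⟩
    · exact ⟨k + 1, RR_st hk h1⟩

theorem DA_iff {v : Vtx} {R K : ℕ} :
    DA G v 0 R K ↔ ∃ q, 2 * (R : ℤ) ≤ nmv v q ∧ RR G (fc v) K q := by
  constructor
  · rintro ⟨p, q, h1, h2, h3⟩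
    rw [start_eq h1] at h3
    exact ⟨q, h2, h3⟩
  · rintro ⟨q, h2, h3⟩
    refine ⟨fc v, q, ?_, h2, h3⟩
    unfold nmv fc
    simp

theorem exists_far (v : Vtx) (M : ℤ) : ∃ q : ℤ × ℤ, M ≤ nmv v q := by
  refine ⟨(v.1 + v.2 + |M|, v.1 - v.2), ?_⟩
  unfold nmv
  simp only
  have e : v.1 + v.2 + |M| - (v.1 + v.2) = |M| := by ring
  rw [e, abs_abs]
  have := le_abs_self M
  have := abs_nonneg (v.1 - v.2 - (v.1 - v.2))
  omega

theorem NS_mem (v : Vtx) (R : ℕ) : DA G v 0 R (NS G v 0 R) := by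
  unfold NS
  apply Nat.sInf_mem (s := {K | DA G v 0 R K})
  obtain ⟨q, hq⟩ := exists_far v (2 * (R : ℤ))
  obtain ⟨k, hk⟩ := hfin (G := G) v q
  exact ⟨k, DA_iff.2 ⟨q, hq, hk⟩⟩

theorem NS_min {v : Vtx} {R k : ℕ} (hk : k < NS G v 0 R) : ¬ DA G v 0 R k :=
  Nat.notMem_of_lt_sInf (s := {K | DA G v 0 R K}) hk

theorem par_fc (u : Vtx) : par (fc u) = 0 := by
  unfold par fc
  simp only
  omega

theorem exists_fc {p : ℤ × ℤ} (h : par p = 0) : ∃ u : Vtx, p = fc u := by
  refine ⟨((p.1 + p.2) / 2, (p.1 - p.2) / 2), ?_⟩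
  unfold par at h
  unfold fc
  apply Prod.ext <;> simp only <;> omega

theorem fc_inj {u w : Vtx} (h : fc u = fc w) : u = w := by
  unfold fc at h
  have h1 := congrArg Prod.fst h
  have h2 := congrArg Prod.snd h
  simp only at h1 h2
  apply Prod.ext <;> omega

/-- the open clusters -/
def OC (G : Set Edg) : Set (Set (ℤ × ℤ)) := {K | ∃ u : Vtx, K = cl G (fc u)}

/-- the open clusters which surround `v` inside the box of radius `R` around `v` -/
def SC (G : Set Edg) (v : Vtx) (R : ℕ) : Set (Set (ℤ × ℤ)) :=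
  {K | K ∈ OC G ∧ (∀ p ∈ K, nmv v p < 2 * (R : ℤ)) ∧
    Sur G (fc v) (fun q => 2 * (R : ℤ) ≤ nmv v q) K}

theorem card_even (N : ℕ) : ((Finset.range N).filter (fun k => k % 2 = 0)).card = (N + 1) / 2 := by
  induction N with
  | zero => rfl
  | succ N ih =>
    rw [Finset.range_add_one, Finset.filter_insert]
    split_ifs with h
    · rw [Finset.card_insert_of_notMem (by simp), ih]
      omega
    · rw [ih]
      omega

/-- **The number of open clusters around `v` inside a box.** -/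
theorem ncard_SC (G : Set Edg) (v : Vtx) (R : ℕ) :
    (SC G v R).Finite ∧ (SC G v R).ncard = (NS G v 0 R + 1) / 2 := by
  set N := NS G v 0 R with hN
  set far : ℤ × ℤ → Prop := fun q => 2 * (R : ℤ) ≤ nmv v q with hfar
  obtain ⟨f, hf1, hf2⟩ := nest (G := G) (p0 := fc v) (far := far) (N := N)
    (fun q q' hq hq' => far_conn v _ hq hq')
    (by
      obtain ⟨q, hq, h⟩ := DA_iff.1 (NS_mem (G := G) v R)
      exact ⟨q, hq, h⟩)
    (fun k hk q hq hq' => NS_min hk (DA_iff.2 ⟨q, hq', hq⟩))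
    (fun p => hfin v p)
  have key : SC G v R = f '' ↑((Finset.range N).filter (fun k => k % 2 = 0)) := by
    ext K
    constructor
    · rintro ⟨⟨u, hu⟩, h1, h2⟩
      obtain ⟨k, hk, rfl⟩ := hf2 K ⟨fc u, hu⟩ (fun p hp h => by have := h1 p hp; omega) h2
      refine ⟨k, ?_, rfl⟩
      rw [Finset.coe_filter]
      refine ⟨Finset.mem_range.2 hk, ?_⟩
      have h3 : fc u ∈ f k := by rw [hu]; exact cl_self _
      have h4 := (hf1 k hk).2.2.2 _ h3
      have h5 := cost_par h4.1 h4.2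
      rw [par_fc, par_fc] at h5
      omega
    · rintro ⟨k, hk, rfl⟩
      rw [Finset.coe_filter] at hk
      obtain ⟨hk1, hk2⟩ := hk
      rw [Finset.mem_range] at hk1
      obtain ⟨⟨p, hp⟩, h2, h3, h4⟩ := hf1 k hk1
      have h5 : p ∈ f k := by rw [hp]; exact cl_self _
      have h6 := cost_par (h4 p h5).1 (h4 p h5).2
      rw [par_fc] at h6
      have h7 : par p = 0 := by unfold par at h6 ⊢; omega
      obtain ⟨u, hu⟩ := exists_fc h7
      exact ⟨⟨u, by rw [hp, hu]⟩, fun q hq => not_le.1 (h2 q hq), h3⟩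
  have hinj : Set.InjOn f ↑((Finset.range N).filter (fun k => k % 2 = 0)) := by
    intro k hk l hl hkl
    rw [Finset.coe_filter] at hk hl
    have hk1 := Finset.mem_range.1 hk.1
    have hl1 := Finset.mem_range.1 hl.1
    obtain ⟨⟨p, hp⟩, -, -, h4⟩ := hf1 k hk1
    obtain ⟨-, -, -, h4'⟩ := hf1 l hl1
    have h5 : p ∈ f k := by rw [hp]; exact cl_self _
    have h6 : p ∈ f l := by rw [← hkl]; exact h5
    have h7 := h4 p h5
    have h8 := h4' p h6
    rcases lt_trichotomy k l with h | h | h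
    · exact absurd h7.1 (h8.2 k h)
    · exact h
    · exact absurd h8.1 (h7.2 l h)
  refine ⟨by rw [key]; exact (Finset.finite_toSet _).image f, ?_⟩
  rw [key, Set.InjOn.ncard_image hinj, Set.ncard_coe_finset, card_even]

/-! ### the hull -/

/-- twice the sup norm of a face -/
def nmo (p : ℤ × ℤ) : ℤ := nmv (0, 0) p

/-- `p` can escape to infinity without meeting `K` -/
def Esc (G : Set Edg) (K : Set (ℤ × ℤ)) (p : ℤ × ℤ) : Prop :=
  p ∉ K ∧ ∀ m : ℕ, ∃ q, (m : ℤ) ≤ nmo q ∧ ReflTransGen (fun a b => TA G a b ∧ b ∉ K) p q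

theorem nmo_ge (v : Vtx) (q : ℤ × ℤ) : nmo q - (|v.1 + v.2| + |v.1 - v.2|) ≤ nmv v q := by
  unfold nmo nmv
  simp only [add_zero, sub_zero]
  have h1 := abs_sub_abs_le_abs_sub q.1 (v.1 + v.2)
  have h2 := abs_sub_abs_le_abs_sub q.2 (v.1 - v.2)
  omega

theorem nmv_ge (v : Vtx) (q : ℤ × ℤ) : nmv v q - (|v.1 + v.2| + |v.1 - v.2|) ≤ nmo q := by
  unfold nmo nmv
  simp only [add_zero, sub_zero]
  have h1 := abs_sub q.1 (v.1 + v.2)
  have h2 := abs_sub q.2 (v.1 - v.2)
  omega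

theorem esc_iff {v : Vtx} {M : ℤ} {K : Set (ℤ × ℤ)} (hK : ∀ p ∈ K, nmv v p < M) {p : ℤ × ℤ} :
    Esc G K p ↔ (p ∉ K ∧ ∃ q, M ≤ nmv v q ∧
      ReflTransGen (fun a b => TA G a b ∧ b ∉ K) p q) := by
  constructor
  · rintro ⟨h1, h2⟩
    refine ⟨h1, ?_⟩
    obtain ⟨q, hq, h3⟩ := h2 (M + (|v.1 + v.2| + |v.1 - v.2|)).toNat
    refine ⟨q, ?_, h3⟩
    have := nmo_ge v q
    omega
  · rintro ⟨h1, q, hq, h2⟩
    refine ⟨h1, fun m => ?_⟩
    obtain ⟨q', hq'⟩ := exists_far v (|M| + m + (|v.1 + v.2| + |v.1 - v.2|))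
    have a0 := le_abs_self M
    have a1 := abs_nonneg M
    have a2 := abs_nonneg (v.1 + v.2)
    have a3 := abs_nonneg (v.1 - v.2)
    refine ⟨q', ?_, h2.trans ?_⟩
    · have := nmv_ge v q'
      omega
    · refine rmono ?_ (far_conn (G := G) v M hq (by omega))
      rintro a b ⟨h3, h4⟩
      exact ⟨h3, fun h5 => by have := hK b h5; omega⟩

theorem esc_of_far {v : Vtx} {M : ℤ} {K : Set (ℤ × ℤ)} (hK : ∀ p ∈ K, nmv v p < M) {p : ℤ × ℤ}
    (hp : M ≤ nmv v p) : Esc G K p :=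
  (esc_iff hK).2 ⟨fun h => by have := hK p h; omega, p, hp, ReflTransGen.refl⟩

theorem sur_iff {v : Vtx} {R : ℕ} {K : Set (ℤ × ℤ)} (hK : ∀ p ∈ K, nmv v p < 2 * (R : ℤ)) :
    Sur G (fc v) (fun q => 2 * (R : ℤ) ≤ nmv v q) K ↔ ¬ Esc G K (fc v) := by
  unfold Sur
  rw [esc_iff hK]

/-- the vertices of the hull -/
def hul (G : Set Edg) (K : Set (ℤ × ℤ)) : Set Vtx := {u | ¬ Esc G K (fc u)}

theorem SC_eq (G : Set Edg) (v : Vtx) (R : ℕ) : SC G v R =
    {K | K ∈ OC G ∧ (∀ p ∈ K, nmv v p < 2 * (R : ℤ)) ∧ v ∈ hul G K} := by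
  ext K
  constructor
  · rintro ⟨h1, h2, h3⟩
    exact ⟨h1, h2, (sur_iff h2).1 h3⟩
  · rintro ⟨h1, h2, h3⟩
    exact ⟨h1, h2, (sur_iff h2).2 h3⟩

end Pool.Agent.H78CZ
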