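import Pool.Agent.H78CZ.C

/-!
# Areas of hulls: sums over clusters and sums over vertices
-/

set_option autoImplicit false

namespace Pool.Agent.H78CZ
open H974 H906.Cyl Finset
open Pool.Agent.W819.EN (Ch nb St lnk Mv fc nmv DA NS start_eq vb)
open Relation (ReflTransGen)

variable {G : Set Edg}

theorem nmv_fc (v u : Vtx) : nmv v (fc u) = 2 * max |u.1 - v.1| |u.2 - v.2| := by
  unfold nmv fc
  simp only
  have e1 : u.1 + u.2 - (v.1 + v.2) = (u.1 - v.1) + (u.2 - v.2) := by ring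
  have e2 : u.1 - u.2 - (v.1 - v.2) = (u.1 - v.1) - (u.2 - v.2) := by ring
  rw [e1, e2]
  generalize u.1 - v.1 = x
  generalize u.2 - v.2 = y
  rcases abs_cases (x + y) with h1 | h1 <;> rcases abs_cases (x - y) with h2 | h2 <;>
  rcases abs_cases x with h3 | h3 <;> rcases abs_cases y with h4 | h4 <;>
  rcases max_cases |x| |y| with h5 | h5 <;> omega

/-- the square of radius `< ρ` around `v` -/
noncomputable def sq (v : Vtx) (ρ : ℕ) : Finset Vtx :=
  Finset.Ioo (v.1 - ρ) (v.1 + ρ) ×ˢ Finset.Ioo (v.2 - ρ) (v.2 + ρ)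

theorem mem_sq {v u : Vtx} {ρ : ℕ} : u ∈ sq v ρ ↔ nmv v (fc u) < 2 * (ρ : ℤ) := by
  rw [nmv_fc]
  unfold sq
  rw [Finset.mem_product, Finset.mem_Ioo, Finset.mem_Ioo]
  rcases abs_cases (u.1 - v.1) with h3 | h3 <;> rcases abs_cases (u.2 - v.2) with h4 | h4 <;>
  rcases max_cases |u.1 - v.1| |u.2 - v.2| with h5 | h5 <;> omega

theorem card_sq {v : Vtx} {ρ : ℕ} (h : 1 ≤ ρ) : (sq v ρ).card = (2 * ρ - 1) ^ 2 := by
  unfold sq
  rw [Finset.card_product, Int.card_Ioo, Int.card_Ioo, _root_.sq]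
  congr 1 <;> omega

theorem mem_vb {u : Vtx} {n : ℕ} : u ∈ vb n ↔ nmo (fc u) ≤ 2 * (n : ℤ) := by
  unfold nmo
  rw [nmv_fc]
  unfold vb
  rw [Finset.mem_product, Finset.mem_Icc, Finset.mem_Icc]
  simp only [sub_zero]
  rcases abs_cases u.1 with h3 | h3 <;> rcases abs_cases u.2 with h4 | h4 <;>
  rcases max_cases |u.1| |u.2| with h5 | h5 <;> omega

theorem vb_sq (n : ℕ) : vb n = sq (0, 0) (n + 1) := by
  ext u
  rw [mem_vb, mem_sq]
  unfold nmo
  rw [nmv_fc]
  push_cast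
  omega

theorem OC_primal {K : Set (ℤ × ℤ)} (hK : K ∈ OC G) {p : ℤ × ℤ} (hp : p ∈ K) :
    ∃ u : Vtx, p = fc u := by
  obtain ⟨w, rfl⟩ := hK
  apply exists_fc
  rw [par_cl hp, par_fc]

theorem self_hul {K : Set (ℤ × ℤ)} {u : Vtx} (h : fc u ∈ K) : u ∈ hul G K :=
  fun h2 => h2.1 h

theorem hul_sub {v : Vtx} {ρ : ℕ} {K : Set (ℤ × ℤ)} (hK : ∀ p ∈ K, nmv v p < 2 * (ρ : ℤ)) :
    hul G K ⊆ ↑(sq v ρ) := by
  intro u hu
  rw [Finset.mem_coe, mem_sq]
  by_contra h
  exact hu (esc_of_far hK (not_lt.1 h))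

/-- the open clusters of the box -/
def CL (n : ℕ) (G : Set Edg) : Set (Set (ℤ × ℤ)) :=
  {K | K ∈ OC G ∧ ∀ p ∈ K, nmo p ≤ 2 * (n : ℤ)}

theorem CL_near {n : ℕ} {K : Set (ℤ × ℤ)} (hK : K ∈ CL n G) :
    ∀ p ∈ K, nmv (0, 0) p < 2 * ((n + 1 : ℕ) : ℤ) := by
  intro p hp
  have := hK.2 p hp
  unfold nmo at this
  push_cast
  omega

theorem CL_hul {n : ℕ} {K : Set (ℤ × ℤ)} (hK : K ∈ CL n G) : hul G K ⊆ ↑(vb n) := by
  rw [vb_sq]
  exact hul_sub (CL_near hK)

theorem CL_finite (n : ℕ) (G : Set Edg) : (CL n G).Finite := by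
  apply Set.Finite.subset ((Finset.finite_toSet (vb n)).image (fun u => cl G (fc u)))
  rintro K ⟨⟨u, rfl⟩, h⟩
  refine ⟨u, ?_, rfl⟩
  rw [Finset.mem_coe, mem_vb]
  exact h _ (cl_self _)

/-- the area of the hull -/
noncomputable def area (G : Set Edg) (K : Set (ℤ × ℤ)) : ℕ := (hul G K).ncard

/-- the open clusters of the box, as a finite set -/
noncomputable def CLf (n : ℕ) (G : Set Edg) : Finset (Set (ℤ × ℤ)) := (CL_finite n G).toFinset

theorem mem_CLf {n : ℕ} {K : Set (ℤ × ℤ)} : K ∈ CLf n G ↔ K ∈ CL n G := by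
  unfold CLf
  rw [Set.Finite.mem_toFinset]

/-- the truncated sum of the areas -/
noncomputable def SX (n X : ℕ) (G : Set Edg) : ℕ := ∑ K ∈ CLf n G, min (area G K) X

open Classical in
theorem SC_filter {n : ℕ} {v : Vtx} {R : ℕ} (h : SC G v R ⊆ CL n G) :
    (SC G v R).ncard = ((CLf n G).filter (fun K => K ∈ SC G v R)).card := by
  rw [← Set.ncard_coe_finset]
  congr 1
  ext K
  rw [Finset.coe_filter]
  constructor
  · intro hK
    exact ⟨mem_CLf.2 (h hK), hK⟩
  · intro hK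
    exact hK.2

theorem SC_sub {n : ℕ} {v : Vtx} {R : ℕ} (h1 : |v.1| + (R : ℤ) ≤ n + 1)
    (h2 : |v.2| + (R : ℤ) ≤ n + 1) : SC G v R ⊆ CL n G := by
  rintro K ⟨hK, h3, -⟩
  refine ⟨hK, fun p hp => ?_⟩
  obtain ⟨u, rfl⟩ := OC_primal hK hp
  have h4 := h3 _ hp
  unfold nmo
  rw [nmv_fc] at h4 ⊢
  simp only [sub_zero]
  rcases abs_cases (u.1 - v.1) with h5 | h5 <;> rcases abs_cases (u.2 - v.2) with h6 | h6 <;>
  rcases abs_cases u.1 with h7 | h7 <;> rcases abs_cases u.2 with h8 | h8 <;>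
  rcases abs_cases v.1 with h9 | h9 <;> rcases abs_cases v.2 with h10 | h10 <;>
  rcases max_cases |u.1 - v.1| |u.2 - v.2| with h11 | h11 <;>
  rcases max_cases |u.1| |u.2| with h12 | h12 <;> omega

/-- **Lower bound.** -/
theorem sum_lower (G : Set Edg) (n X : ℕ) (Rv : Vtx → ℕ)
    (h1 : ∀ v ∈ vb n, 1 ≤ Rv v)
    (h2 : ∀ v ∈ vb n, |v.1| + (Rv v : ℤ) ≤ n + 1 ∧ |v.2| + (Rv v : ℤ) ≤ n + 1)
    (h3 : ∀ v ∈ vb n, (2 * Rv v - 1) ^ 2 ≤ X) :
    ∑ v ∈ vb n, (NS G v 0 (Rv v) + 1) / 2 ≤ SX n X G := by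
  classical
  have e1 : ∀ v ∈ vb n, (NS G v 0 (Rv v) + 1) / 2 =
      ∑ K ∈ CLf n G, if K ∈ SC G v (Rv v) then 1 else 0 := by
    intro v hv
    rw [← (ncard_SC G v (Rv v)).2, SC_filter (SC_sub (h2 v hv).1 (h2 v hv).2),
      Finset.card_filter]
  rw [Finset.sum_congr rfl e1, Finset.sum_comm]
  unfold SX
  apply Finset.sum_le_sum
  intro K hK
  rw [mem_CLf] at hK
  rw [← Finset.card_filter]
  have hsub : (↑((vb n).filter (fun v => K ∈ SC G v (Rv v))) : Set Vtx) ⊆ hul G K := by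
    intro v hv
    rw [Finset.coe_filter] at hv
    have h4 := hv.2
    rw [SC_eq] at h4
    exact h4.2.2
  have hfin : (hul G K).Finite := (Finset.finite_toSet _).subset (CL_hul hK)
  apply le_min
  · rw [← Set.ncard_coe_finset]
    exact Set.ncard_le_ncard hsub hfin
  · rcases Finset.eq_empty_or_nonempty ((vb n).filter (fun v => K ∈ SC G v (Rv v))) with h4 | h4
    · rw [h4]; simp
    · obtain ⟨v, hv⟩ := h4
      rw [Finset.mem_filter] at hv
      have h5 : hul G K ⊆ ↑(sq v (Rv v)) := hul_sub hv.2.2.1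
      have h6 : ((vb n).filter (fun v => K ∈ SC G v (Rv v))).card ≤ (sq v (Rv v)).card := by
        apply Finset.card_le_card
        rw [← Finset.coe_subset]
        exact hsub.trans h5
      rw [card_sq (h1 v hv.1)] at h6
      exact h6.trans (h3 v hv.1)

/-- the cluster is small at the scale `R` -/
def Small (G : Set Edg) (R : ℕ) (K : Set (ℤ × ℤ)) : Prop :=
  ∀ v ∈ hul G K, ∀ p ∈ K, nmv v p < 2 * (R : ℤ)

open Classical in
/-- **Upper bound.** -/
theorem sum_upper (G : Set Edg) (n X R : ℕ) :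
    SX n X G ≤ ∑ v ∈ vb n, (NS G v 0 R + 1) / 2 +
      X * ((CLf n G).filter (fun K => ¬ Small G R K)).card := by
  unfold SX
  rw [← Finset.sum_filter_add_sum_filter_not (CLf n G) (fun K => Small G R K)]
  apply add_le_add
  · calc ∑ K ∈ (CLf n G).filter (fun K => Small G R K), min (area G K) X
        ≤ ∑ K ∈ (CLf n G).filter (fun K => Small G R K),
            ∑ v ∈ vb n, if K ∈ SC G v R then 1 else 0 := by
          apply Finset.sum_le_sum
          intro K hK
          rw [Finset.mem_filter, mem_CLf] at hK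
          refine (min_le_left _ _).trans ?_
          rw [← Finset.card_filter]
          unfold area
          rw [← Set.ncard_coe_finset]
          apply Set.ncard_le_ncard _ (Finset.finite_toSet _)
          intro v hv
          rw [Finset.coe_filter]
          refine ⟨?_, ?_⟩
          · have := CL_hul hK.1 hv
            exact this
          · rw [SC_eq]
            exact ⟨hK.1.1, hK.2 v hv, hv⟩
      _ ≤ ∑ K ∈ CLf n G, ∑ v ∈ vb n, if K ∈ SC G v R then 1 else 0 := by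
          apply Finset.sum_le_sum_of_subset
          exact Finset.filter_subset _ _
      _ = ∑ v ∈ vb n, ∑ K ∈ CLf n G, if K ∈ SC G v R then 1 else 0 := Finset.sum_comm
      _ ≤ _ := by
          apply Finset.sum_le_sum
          intro v _
          rw [← (ncard_SC G v R).2, ← Finset.card_filter, ← Set.ncard_coe_finset]
          apply Set.ncard_le_ncard _ (ncard_SC G v R).1
          intro K hK
          rw [Finset.coe_filter] at hK
          exact hK.2
  · calc ∑ K ∈ (CLf n G).filter (fun K => ¬ Small G R K), min (area G K) X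
        ≤ ∑ K ∈ (CLf n G).filter (fun K => ¬ Small G R K), X := by
          apply Finset.sum_le_sum
          intro K _
          exact min_le_right _ _
      _ = _ := by
          rw [Finset.sum_const, smul_eq_mul, mul_comm]

/-- a cluster which is not small has, around each of its vertices, a distant vertex -/
theorem not_small {K : Set (ℤ × ℤ)} (hK : K ∈ OC G) {R ρ : ℕ} (hR : 2 * ρ ≤ R + 1)
    (h : ¬ Small G R K) {w : Vtx} (_hw : fc w ∈ K) : ∃ u : Vtx, fc u ∈ K ∧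
      (ρ : ℤ) ≤ max |u.1 - w.1| |u.2 - w.2| := by
  by_contra hcon
  push Not at hcon
  apply h
  have h1 : ∀ p ∈ K, nmv w p < 2 * (ρ : ℤ) := by
    intro p hp
    obtain ⟨u, rfl⟩ := OC_primal hK hp
    rw [nmv_fc]
    have := hcon u hp
    omega
  intro v hv p hp
  have h2 := hul_sub h1 hv
  rw [Finset.mem_coe, mem_sq] at h2
  have h3 := h1 p hp
  obtain ⟨u, rfl⟩ := OC_primal hK hp
  rw [nmv_fc] at h2 h3 ⊢
  rcases abs_cases (u.1 - v.1) with h5 | h5 <;> rcases abs_cases (u.2 - v.2) with h6 | h6 <;>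
  rcases abs_cases (v.1 - w.1) with h7 | h7 <;> rcases abs_cases (v.2 - w.2) with h8 | h8 <;>
  rcases abs_cases (u.1 - w.1) with h9 | h9 <;> rcases abs_cases (u.2 - w.2) with h10 | h10 <;>
  rcases max_cases |u.1 - v.1| |u.2 - v.2| with h11 | h11 <;>
  rcases max_cases |v.1 - w.1| |v.2 - w.2| with h12 | h12 <;>
  rcases max_cases |u.1 - w.1| |u.2 - w.2| with h13 | h13 <;> omega

end Pool.Agent.H78CZ
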