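import Pool.Agent.H78CZ.D
import Pool.Agent.W38.EN.Cir
import Pool.Agent.Y993.LL.Zip2

/-!
# The number of large clusters
-/

set_option autoImplicit false

namespace Pool.Agent.H78CZ
open H974 H906.Cyl Finset
open Pool.Agent.W819.EN (Ch nb St lnk Mv fc nmv DA NS start_eq vb P2 bx)
open Relation (ReflTransGen)

variable {G : Set Edg}

theorem edz_e (x y : ℤ) : edz (x + y) (x - y) = (x, y, true) := by
  unfold edz
  rw [if_pos (by omega)]
  simp only [Prod.mk.injEq, and_true]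
  omega

theorem edz_o (x y : ℤ) : edz (x + y) (x - y - 1) = (x, y, false) := by
  unfold edz
  rw [if_neg (by omega)]
  simp only [Prod.mk.injEq, and_true]
  omega

/-- free moves between vertices are open edges -/
theorem mv_fc {u : Vtx} {q : ℤ × ℤ} : Mv G (fc u) q ↔ ∃ w, q = fc w ∧ Adj G u w := by
  obtain ⟨x, y⟩ := u
  constructor
  · intro h
    obtain ⟨a, s⟩ := q
    rcases h with ⟨h1, h2⟩ | ⟨h1, h2⟩
    · simp only [fc] at h1 h2
      subst h1
      rcases h2 with ⟨h2, h3⟩ | ⟨h2, h3⟩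
      · subst h2
        rw [if_pos (by omega), edz_e] at h3
        refine ⟨(x + 1, y), ?_, (x, y, true), h3, Or.inl ⟨rfl, rfl⟩⟩
        simp only [fc, Prod.mk.injEq]; constructor <;> first | trivial | omega
      · have ha : a = x + (y - 1) := by omega
        subst ha
        rw [if_neg (by omega), show (x - y : ℤ) = x - (y - 1) - 1 by ring, edz_o] at h3
        refine ⟨(x, y - 1), ?_, (x, y - 1, false), h3, Or.inr ⟨rfl, ?_⟩⟩
        · simp only [fc, Prod.mk.injEq]; constructor <;> first | trivial | omega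
        · simp [tgt]
    · simp only [fc] at h1 h2
      have hs : s = (x - 1) - y := by omega
      subst hs
      rcases h2 with ⟨h2, h3⟩ | ⟨h2, h3⟩
      · have ha : a = (x - 1) + y := by omega
        subst ha
        rw [if_pos (by omega), edz_e] at h3
        refine ⟨(x - 1, y), ?_, (x - 1, y, true), h3, Or.inr ⟨rfl, ?_⟩⟩
        · simp only [fc]
        · simp [tgt]
      · have ha : a = x + (y + 1) := by omega
        subst ha
        rw [if_neg (by omega), show (x - 1 - y : ℤ) = x - y - 1 by ring, edz_o] at h3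
        refine ⟨(x, y + 1), ?_, (x, y, false), h3, Or.inl ⟨rfl, rfl⟩⟩
        simp only [fc, Prod.mk.injEq]; constructor <;> first | trivial | omega
  · rintro ⟨w, rfl, e, he, hc⟩
    rcases hc with ⟨h1, h2⟩ | ⟨h1, h2⟩
    · rw [← h1, ← h2]
      exact Pool.Agent.W38.EN.free_of_mem he
    · rw [← h1, ← h2]
      exact Mv_symm (Pool.Agent.W38.EN.free_of_mem he)

theorem cl_fc {u : Vtx} {q : ℤ × ℤ} : q ∈ cl G (fc u) ↔ ∃ w, q = fc w ∧ Reach G u w := by
  constructor
  · intro h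
    induction h with
    | refl => exact ⟨u, rfl, Reach.refl _ _⟩
    | tail _ hs ih =>
      obtain ⟨w, rfl, hw⟩ := ih
      obtain ⟨w', rfl, hw'⟩ := mv_fc.1 hs
      exact ⟨w', rfl, hw.trans hw'.reach⟩
  · rintro ⟨w, rfl, h⟩
    induction h with
    | refl => exact cl_self _
    | tail _ hs ih => exact ReflTransGen.tail ih (mv_fc.2 ⟨_, rfl, hs⟩)

theorem cl_fc' {u w : Vtx} : fc w ∈ cl G (fc u) ↔ Reach G u w := by
  rw [cl_fc]
  constructor
  · rintro ⟨w', h1, h2⟩
    rw [fc_inj h1]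
    exact h2
  · intro h
    exact ⟨w, rfl, h⟩

/-- the distant vertices -/
def Bd (z : Vtx) (m : ℕ) : Set Vtx := {w | 3 * (m : ℤ) ≤ max |w.1 - z.1| |w.2 - z.2|}

/-- the number of clusters which cross the annulus -/
noncomputable def YY (z : Vtx) (m : ℕ) (F : Set Edg) : ℕ :=
  NC src tgt (H984P.ctr z m) (Bd z m) (F ∩ ↑(bx z (3 * m)))

open Pool.Agent.Y993.LL (zz JJ)

open Classical in
/-- **The number of clusters which are not small.** -/
theorem card_large (G : Set Edg) (n m R : ℕ) (hm : 1 ≤ m) (hR : 8 * m ≤ R + 1) :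
    ((CLf n G).filter (fun K => ¬ Small G R K)).card ≤ ∑ j ∈ JJ n m, YY (zz m j) m G := by
  set T : Finset ((_ : ℤ × ℤ) × Set Vtx) := (JJ n m).sigma (fun j =>
    TC src tgt (H984P.ctr (zz m j) m) (Bd (zz m j) m) (G ∩ ↑(bx (zz m j) (3 * m)))) with hT
  have hcard : T.card = ∑ j ∈ JJ n m, YY (zz m j) m G := by
    rw [hT, Finset.card_sigma]
    rfl
  rw [← hcard]
  set g : ((_ : ℤ × ℤ) × Set Vtx) → Set (ℤ × ℤ) := fun t =>
    if h : t.2.Nonempty then cl G (fc h.choose) else ∅ with hg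
  apply Finset.card_le_card_of_surjOn g
  intro K hK
  rw [Finset.coe_filter] at hK
  obtain ⟨hK1, hK2⟩ := hK
  rw [mem_CLf] at hK1
  obtain ⟨w, hw⟩ := hK1.1
  have hwK : fc w ∈ K := by rw [hw]; exact cl_self _
  obtain ⟨u, hu, hfar⟩ := not_small hK1.1 (ρ := 4 * m) (by omega) hK2 hwK
  have hwv : w ∈ vb n := mem_vb.2 (hK1.2 _ hwK)
  unfold vb at hwv
  rw [Finset.mem_product, Finset.mem_Icc, Finset.mem_Icc] at hwv
  obtain ⟨⟨a1, a2⟩, a3, a4⟩ := hwv
  have hm0 : (0 : ℤ) < m := by exact_mod_cast hm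
  set j : ℤ × ℤ := (w.1 / m, w.2 / m) with hj
  have d1 := Int.emod_add_mul_ediv w.1 m
  have d2 := Int.emod_nonneg w.1 hm0.ne'
  have d3 := Int.emod_lt_of_pos w.1 hm0
  have d4 := Int.emod_add_mul_ediv w.2 m
  have d5 := Int.emod_nonneg w.2 hm0.ne'
  have d6 := Int.emod_lt_of_pos w.2 hm0
  have e1 := Int.emod_add_mul_ediv (n : ℤ) m
  have e2 := Int.emod_nonneg (n : ℤ) hm0.ne'
  have e3 := Int.emod_lt_of_pos (n : ℤ) hm0
  have hjJ : j ∈ JJ n m := by
    unfold JJ
    rw [Finset.mem_product, Finset.mem_Icc, Finset.mem_Icc]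
    refine ⟨⟨?_, ?_⟩, ?_, ?_⟩
    · simp only [hj]
      by_contra hc
      push Not at hc
      have : (m : ℤ) * (w.1 / m) ≤ m * (-(n / m + 1 : ℤ) - 1) :=
        mul_le_mul_of_nonneg_left (by omega) hm0.le
      have e : (m : ℤ) * (-(n / m + 1 : ℤ) - 1) = -(m * (n / m)) - 2 * m := by ring
      omega
    · simp only [hj]
      by_contra hc
      push Not at hc
      have : (m : ℤ) * ((n / m + 1 : ℤ) + 1) ≤ m * (w.1 / m) :=
        mul_le_mul_of_nonneg_left (by omega) hm0.le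
      have e : (m : ℤ) * ((n / m + 1 : ℤ) + 1) = (m * (n / m)) + 2 * m := by ring
      omega
    · simp only [hj]
      by_contra hc
      push Not at hc
      have : (m : ℤ) * (w.2 / m) ≤ m * (-(n / m + 1 : ℤ) - 1) :=
        mul_le_mul_of_nonneg_left (by omega) hm0.le
      have e : (m : ℤ) * (-(n / m + 1 : ℤ) - 1) = -(m * (n / m)) - 2 * m := by ring
      omega
    · simp only [hj]
      by_contra hc
      push Not at hc
      have : (m : ℤ) * ((n / m + 1 : ℤ) + 1) ≤ m * (w.2 / m) :=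
        mul_le_mul_of_nonneg_left (by omega) hm0.le
      have e : (m : ℤ) * ((n / m + 1 : ℤ) + 1) = (m * (n / m)) + 2 * m := by ring
      omega
  have hz1 : (zz m j).1 ≤ w.1 ∧ w.1 ≤ (zz m j).1 + m := by
    unfold zz; simp only [hj]; omega
  have hz2 : (zz m j).2 ≤ w.2 ∧ w.2 ≤ (zz m j).2 + m := by
    unfold zz; simp only [hj]; omega
  set z := zz m j with hz
  have hreach : Reach G w u := by
    rw [hw] at hu
    exact cl_fc'.1 hu
  have hu' : u.1 ≤ z.1 - 3 * m ∨ z.1 + 3 * m ≤ u.1 ∨ u.2 ≤ z.2 - 3 * m ∨ z.2 + 3 * m ≤ u.2 := by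
    rcases abs_cases (u.1 - w.1) with h3 | h3 <;> rcases abs_cases (u.2 - w.2) with h4 | h4 <;>
    rcases max_cases |u.1 - w.1| |u.2 - w.2| with h5 | h5 <;> push_cast at hfar <;> omega
  obtain ⟨w', k1, k2, k3⟩ := first_exit (a := z.1 - 3 * m) (b := z.1 + 3 * m)
    (c := z.2 - 3 * m) (d := z.2 + 3 * m) (by unfold inR; omega) hreach hu'
  have hRB : RB src tgt (Bd z m) (G ∩ ↑(bx z (3 * m))) w := by
    refine ⟨w', ?_, k3⟩
    show 3 * (m : ℤ) ≤ max |w'.1 - z.1| |w'.2 - z.2|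
    rcases abs_cases (w'.1 - z.1) with h3 | h3 <;> rcases abs_cases (w'.2 - z.2) with h4 | h4 <;>
    rcases max_cases |w'.1 - z.1| |w'.2 - z.2| with h5 | h5 <;> omega
  have hwc : w ∈ H984P.ctr z m := by
    unfold H984P.ctr
    rw [Finset.mem_product, Finset.mem_Icc, Finset.mem_Icc]
    refine ⟨⟨?_, ?_⟩, ?_, ?_⟩ <;> omega
  refine ⟨⟨j, clu src tgt (G ∩ ↑(bx z (3 * m))) w⟩, ?_, ?_⟩
  · rw [Finset.mem_coe, hT, Finset.mem_sigma]
    refine ⟨hjJ, ?_⟩
    rw [mem_TC]
    exact ⟨w, hwc, hRB, rfl⟩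
  · have hne : (clu src tgt (G ∩ ↑(bx z (3 * m))) w).Nonempty := ⟨w, GR.refl _ _⟩
    have e : g ⟨j, clu src tgt (G ∩ ↑(bx z (3 * m))) w⟩ = cl G (fc hne.choose) := by
      rw [hg]
      simp only
      rw [dif_pos hne]
    rw [e, hw]
    have h1 := hne.choose_spec
    have h2 : Reach G w hne.choose := GR.mono (s := src) (t := tgt) Set.inter_subset_left h1
    exact cl_eq (cl_fc'.2 h2)

theorem ok2 : Ok P2 := fun _ => ⟨by norm_num, by norm_num⟩

/-- the second moment of the number of crossing clusters -/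
theorem YY_sq {z : Vtx} {m : ℕ} (hm : 5 ≤ m) {S : Finset Edg} (hS : bx z (3 * m) ⊆ S) :
    Ex P2 S (fun F => ((YY z m (↑F) : ℕ) : ℝ) * (YY z m (↑F) : ℕ)) ≤ 2 / ((1 / 2 : ℝ) ^ 188) ^ 2 := by
  have h0 : Ex P2 S (fun F => ((YY z m (↑F) : ℕ) : ℝ) * (YY z m (↑F) : ℕ)) =
      Ex P2 (bx z (3 * m)) (fun F => ((NC src tgt (H984P.ctr z m) (Bd z m) (↑F : Set Edg) : ℕ) : ℝ) ^ 2) := by
    rw [Ex_local hS (f := fun F => ((YY z m (↑F) : ℕ) : ℝ) * (YY z m (↑F) : ℕ))]
    · apply Ex_congr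
      intro F hF
      unfold YY
      have e : (↑F : Set Edg) ∩ ↑(bx z (3 * m)) = ↑F := by
        rw [Set.inter_eq_left]
        exact_mod_cast hF
      rw [e]
      ring
    · intro F
      unfold YY
      have e : (↑(F ∩ bx z (3 * (m : ℤ))) : Set Edg) ∩ ↑(bx z (3 * (m : ℤ))) =
          ↑F ∩ ↑(bx z (3 * (m : ℤ))) := by
        rw [Finset.coe_inter, Set.inter_assoc, Set.inter_self]
      rw [e]
      exact fun _ => rfl
  rw [h0]
  have e1 : ((1 / 2 : ℝ) ^ 188) = 1 - (1 - (1 / 2 : ℝ) ^ 188) := by ring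
  rw [e1]
  apply NC_sq ok2
  · have : (0 : ℝ) < (1 / 2) ^ 188 := by positivity
    linarith
  · have hm' : (5 : ℤ) ≤ m := by exact_mod_cast hm
    have h1 := Pool.Agent.Y993.LL.pr_BlkZ (z := z) (m := m) hm' (S := bx z (3 * m))
      (by
        unfold Pool.Agent.Y993.LL.anZ
        exact Finset.sdiff_subset)
    have h2 : Pr P2 (bx z (3 * m)) (fun G : Finset Edg => ∃ x ∈ H984P.ctr z m,
        RB src tgt (Bd z m) (↑G : Set Edg) x) ≤
        Pr P2 (bx z (3 * m)) (fun F => ¬ Pool.Agent.Y993.LL.BlkZ z m (3 * m) F) := by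
      apply Pr_mono ok2
      rintro F _ ⟨x, hx, b, hb, hxb⟩
      have hb' : 3 * (m : ℤ) ≤ max |b.1 - z.1| |b.2 - z.2| := hb
      unfold H984P.ctr at hx
      rw [Finset.mem_product, Finset.mem_Icc, Finset.mem_Icc] at hx
      apply Pool.Agent.Y993.LL.not_BlkZ (G := ↑F) (u := x) (v := b) (by omega)
        (fun e he _ => Finset.mem_coe.1 he) (by unfold inR; omega) hxb
      rcases abs_cases (b.1 - z.1) with h3 | h3 <;> rcases abs_cases (b.2 - z.2) with h4 | h4 <;>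
      rcases max_cases |b.1 - z.1| |b.2 - z.2| with h5 | h5 <;> omega
    rw [Pr_not] at h2
    linarith

theorem YY_local {z : Vtx} {m : ℕ} (F : Finset Edg) :
    YY z m (↑F) = YY z m (↑(F ∩ bx z (3 * m))) := by
  unfold YY
  rw [Finset.coe_inter, Set.inter_assoc, Set.inter_self]

end Pool.Agent.H78CZ
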