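import Pool.Agent.H78CZ.E
import Pool.Agent.W819.EN.Final

/-!
# Moments of the numbers of layers
-/

set_option autoImplicit false

namespace Pool.Agent.H78CZ
open H974 H906.Cyl Finset
open Pool.Agent.W819.EN (Ch nb St lnk Mv fc nmv DA NS start_eq vb P2 bx an NA Geo geoNA Lnk Cir Rad
  LTail ltail)
open Pool.Agent.H863R2.NL (ET cN)
open Pool.Agent.W230.EN (bx_tr)

theorem bx_mono (v : Vtx) {k l : ℤ} (h : k ≤ l) : bx v k ⊆ bx v l :=
  Pool.Agent.W214.EN.bx_mono v h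

theorem NA_local (F : Finset Edg) (v : Vtx) (R : ℕ) {S : Finset Edg} (hS : bx v R ⊆ S) :
    NA F v 0 R = NA (F ∩ S) v 0 R := by
  rw [geoNA.loc F v 0 R (Nat.zero_le _), geoNA.loc (F ∩ S) v 0 R (Nat.zero_le _),
    Finset.inter_assoc]
  have : an v 0 R ⊆ S := (Finset.sdiff_subset).trans hS
  rw [Finset.inter_eq_right.2 this]

theorem ex_tr (v : Vtx) (k : ℤ) (f : Finset Edg → ℝ) :
    Ex P2 (bx v k) f = Ex P2 (bx (0, 0) k) (fun F => f ((trl v.1 v.2).mp F)) := by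
  rw [← bx_tr v k]
  exact Ex_map P2 (trl v.1 v.2).φ.toEmbedding (bx (0, 0) k) f

/-- the mean number of layers around `v` -/
theorem mean_NA (v : Vtx) (R : ℕ) {S : Finset Edg} (hS : bx v R ⊆ S) :
    Ex P2 S (fun F => (NA F v 0 R : ℝ)) = ET R (fun m => (m : ℝ)) := by
  rw [Ex_local hS (f := fun F => (NA F v 0 R : ℝ))
    (fun F _ => by show (NA F v 0 R : ℝ) = NA (F ∩ bx v R) v 0 R
                   rw [← NA_local F v R (Finset.Subset.refl _)])]
  rw [ex_tr, Pool.Agent.W819.EN.ET_eq]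
  apply Ex_congr
  intro F _
  have h := geoNA.tr F v (0, 0) 0 R
  simp only [zero_add] at h
  rw [h]

theorem ET_bound : ∃ C : ℝ, 0 ≤ C ∧ ∀ r : ℕ, 1 ≤ r →
    |ET r (fun m => (m : ℝ)) - cN * Real.log r| ≤ C := by
  obtain ⟨C, hC⟩ := Pool.Agent.H863R2.NL.ET_mean
  refine ⟨C, (abs_nonneg _).trans (hC 1 le_rfl), hC⟩

/-- the increment of the number of layers -/
noncomputable def DD (j : ℕ) (v : Vtx) (F : Finset Edg) : ℝ :=
  (NA F v 0 (2 ^ (j + 1)) : ℝ) - NA F v 0 (2 ^ j)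

theorem pow_le_succ (j : ℕ) : 2 ^ j ≤ 2 ^ (j + 1) := Nat.pow_le_pow_right (by norm_num) (by omega)

theorem DD_nonneg (j : ℕ) (v : Vtx) (F : Finset Edg) : 0 ≤ DD j v F := by
  unfold DD
  have h := geoNA.mono F v 0 0 (2 ^ j) (2 ^ (j + 1)) le_rfl (pow_le_succ j)
  have h' : (NA F v 0 (2 ^ j) : ℝ) ≤ NA F v 0 (2 ^ (j + 1)) := by exact_mod_cast h
  linarith

theorem DD_nat (j : ℕ) (v : Vtx) (F : Finset Edg) :
    DD j v F = ((NA F v 0 (2 ^ (j + 1)) - NA F v 0 (2 ^ j) : ℕ) : ℝ) := by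
  unfold DD
  have h := geoNA.mono F v 0 0 (2 ^ j) (2 ^ (j + 1)) le_rfl (pow_le_succ j)
  rw [Nat.cast_sub h]

theorem DD_local (j : ℕ) (v : Vtx) (F : Finset Edg) {S : Finset Edg}
    (hS : bx v ((2 ^ (j + 1) : ℕ) : ℤ) ⊆ S) : DD j v F = DD j v (F ∩ S) := by
  unfold DD
  have h : bx v ((2 ^ j : ℕ) : ℤ) ⊆ S :=
    (bx_mono v (by exact_mod_cast pow_le_succ j)).trans hS
  rw [← NA_local F v _ hS, ← NA_local F v _ h]

/-- one scale costs at most `20 k + 4` if there is a cheap link -/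
theorem D_link {j : ℕ} (hj : 2 ≤ j) (v : Vtx) (F : Finset Edg) (k : ℕ)
    (hL : Lnk v (2 ^ (j - 2)) k F) :
    NA F v 0 (2 ^ (j + 1)) - NA F v 0 (2 ^ j) ≤ 20 * k + 4 := by
  set b : ℕ := 2 ^ (j - 2) with hb
  have hb1 : 1 ≤ b := Nat.one_le_two_pow
  have e1 : 2 ^ j = 4 * b := by
    rw [hb, show (4 : ℕ) = 2 ^ 2 by norm_num, ← pow_add]
    congr 1
    omega
  have e2 : 2 ^ (j + 1) = 8 * b := by
    rw [pow_succ, e1]
    ring
  rw [e1, e2]
  have h1 := geoNA.link F v b k 0 (8 * b) hb1 (Nat.zero_le _) le_rfl hL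
  have h2 : NA F v 0 (2 * b) ≤ NA F v 0 (4 * b) := geoNA.mono F v 0 0 _ _ le_rfl (by omega)
  have h3 : NA F v (4 * b) (8 * b) ≤ NA F v b (8 * b) :=
    geoNA.mono F v (4 * b) b (8 * b) (8 * b) (by omega) le_rfl
  have h4 : NA F v b (8 * b) ≤ 2 * k := Pool.Agent.W38.EN.t_RAD F v b k hb1 hL.2.2
  omega

/-- **Second moments of the increments.** -/
theorem DD_sq : ∃ B : ℝ, 0 ≤ B ∧ ∀ (j : ℕ) (v : Vtx) (S : Finset Edg),
    bx v ((2 ^ (j + 1) : ℕ) : ℤ) ⊆ S → Ex P2 S (fun F => DD j v F * DD j v F) ≤ B := by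
  obtain ⟨C, hC, hT⟩ := ltail ((1 / 2 : ℝ) ^ 20) (by positivity)
  refine ⟨64 + (C + 1) * 2 ^ 24 * 8, by positivity, ?_⟩
  intro j v S hS
  rcases Nat.lt_or_ge j 2 with hj | hj
  · have h1 : Ex P2 S (fun F => DD j v F * DD j v F) ≤ Ex P2 S (fun _ => 64) := by
      apply Ex_mono ok2
      intro F _
      have h2 := DD_nonneg j v F
      have h3 : DD j v F ≤ 8 := by
        unfold DD
        have h4 := geoNA.le F v 0 (2 ^ (j + 1))
        have h5 : 2 ^ (j + 1) ≤ 4 := by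
          calc 2 ^ (j + 1) ≤ 2 ^ 2 := Nat.pow_le_pow_right (by norm_num) (by omega)
            _ = 4 := by norm_num
        have h6 : (NA F v 0 (2 ^ (j + 1)) : ℝ) ≤ 8 := by
          exact_mod_cast (by omega : NA F v 0 (2 ^ (j + 1)) ≤ 8)
        have h7 : (0 : ℝ) ≤ NA F v 0 (2 ^ j) := Nat.cast_nonneg _
        linarith
      nlinarith
    rw [Ex_const] at h1
    have : 0 ≤ (C + 1) * 2 ^ 24 * 8 := by positivity
    linarith
  · set D : Finset Edg → ℕ := fun F => NA F v 0 (2 ^ (j + 1)) - NA F v 0 (2 ^ j) with hD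
    set M : ℕ := 2 * 2 ^ (j + 1) with hM
    have hDM : ∀ F, D F ≤ M := by
      intro F
      have h4 := geoNA.le F v 0 (2 ^ (j + 1))
      simp only [hD]
      omega
    have e1 : Ex P2 S (fun F => DD j v F * DD j v F) =
        ∑ k ∈ Finset.range M, (2 * (k:ℝ) + 1) * Pr P2 S (fun F => k + 1 ≤ D F) := by
      have : ∀ F, DD j v F * DD j v F =
          ∑ k ∈ Finset.range M, (2 * (k:ℝ) + 1) * ind (k + 1 ≤ D F) := by
        intro F
        rw [← sq_eq_sum (D F) M (hDM F), DD_nat]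
        simp only [hD]
        ring
      rw [Ex_congr (g := fun F => ∑ k ∈ Finset.range M, (2 * (k:ℝ) + 1) * ind (k + 1 ≤ D F))
        (fun F _ => this F), Ex_sum]
      apply Finset.sum_congr rfl
      intro k _
      rw [Ex_mul_left]
      rfl
    have hb : bx v (8 * ((2 ^ (j - 2) : ℕ) : ℤ)) ⊆ S := by
      have : (8 * ((2 ^ (j - 2) : ℕ) : ℤ)) = ((2 ^ (j + 1) : ℕ) : ℤ) := by
        have e : (2 : ℕ) ^ (j + 1) = 8 * 2 ^ (j - 2) := by
          rw [show (8 : ℕ) = 2 ^ 3 by norm_num, ← pow_add]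
          congr 1
          omega
        rw [e]
        push_cast
        ring
      rw [this]
      exact hS
    have h2 : ∀ k : ℕ, Pr P2 S (fun F => k + 1 ≤ D F) ≤ (C + 1) * 2 ^ 24 * (1 / 2) ^ k := by
      intro k
      rcases Nat.lt_or_ge k 4 with hk | hk
      · have h3 : Pr P2 S (fun F => k + 1 ≤ D F) ≤ 1 := Pr_le_one ok2 _ _
        have h4 : (1 / 2 : ℝ) ^ 4 ≤ (1 / 2) ^ k :=
          pow_le_pow_of_le_one (by norm_num) (by norm_num) hk.le
        have h5 : (1 : ℝ) ≤ (C + 1) * 2 ^ 24 * (1 / 2) ^ 4 := by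
          have : (1 : ℝ) * (2 ^ 24 * (1 / 2) ^ 4) ≤ (C + 1) * (2 ^ 24 * (1 / 2) ^ 4) :=
            mul_le_mul_of_nonneg_right (by linarith) (by norm_num)
          norm_num at this ⊢
          linarith
        have h6 : (C + 1) * 2 ^ 24 * (1 / 2) ^ 4 ≤ (C + 1) * 2 ^ 24 * (1 / 2) ^ k :=
          mul_le_mul_of_nonneg_left h4 (by positivity)
        linarith
      · set k' := (k - 4) / 20 with hk'
        have h3 : Pr P2 S (fun F => k + 1 ≤ D F) ≤
            Pr P2 S (fun F => ¬ Lnk v (2 ^ (j - 2)) k' F) := by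
          apply Pr_mono ok2
          intro F _ hF hL
          have := D_link hj v F k' hL
          simp only [hD] at hF
          omega
        have h4 := hT (2 ^ (j - 2)) v S Nat.one_le_two_pow hb k'
        have h5 : ((1 / 2 : ℝ) ^ 20) ^ k' ≤ 2 ^ 23 * (1 / 2) ^ k := by
          rw [← pow_mul]
          have h6 : k ≤ 20 * k' + 23 := by omega
          have h7 : (1 / 2 : ℝ) ^ (20 * k' + 23) ≤ (1 / 2) ^ k :=
            pow_le_pow_of_le_one (by norm_num) (by norm_num) h6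
          rw [pow_add] at h7
          have h8 : (0 : ℝ) ≤ (1 / 2) ^ (20 * k') := by positivity
          have h9 : (1 / 2 : ℝ) ^ 23 * 2 ^ 23 = 1 := by
            rw [← mul_pow]
            norm_num
          calc (1 / 2 : ℝ) ^ (20 * k') = 2 ^ 23 * ((1 / 2) ^ (20 * k') * (1 / 2) ^ 23) := by
                linear_combination (-(1 / 2 : ℝ) ^ (20 * k')) * h9
            _ ≤ _ := mul_le_mul_of_nonneg_left h7 (by positivity)
        have h10 : C * ((1 / 2 : ℝ) ^ 20) ^ k' ≤ C * (2 ^ 23 * (1 / 2) ^ k) :=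
          mul_le_mul_of_nonneg_left h5 hC.le
        have h11 : C * (2 ^ 23 * (1 / 2 : ℝ) ^ k) ≤ (C + 1) * 2 ^ 24 * (1 / 2) ^ k := by
          have h12 : (0 : ℝ) ≤ (1 / 2) ^ k := by positivity
          have h13 : C * 2 ^ 23 ≤ (C + 1) * 2 ^ 24 := by nlinarith
          nlinarith [mul_le_mul_of_nonneg_right h13 h12]
        linarith
    rw [e1]
    have h3 : ∑ k ∈ Finset.range M, (2 * (k:ℝ) + 1) * Pr P2 S (fun F => k + 1 ≤ D F) ≤
        ∑ k ∈ Finset.range M, (C + 1) * 2 ^ 24 * 2 * (((k:ℝ) + 1) * (1 / 2) ^ k) := by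
      apply Finset.sum_le_sum
      intro k _
      have h4 : (0 : ℝ) ≤ (1 / 2) ^ k := by positivity
      have h5 : (0 : ℝ) ≤ (C + 1) * 2 ^ 24 := by positivity
      calc (2 * (k:ℝ) + 1) * Pr P2 S (fun F => k + 1 ≤ D F)
          ≤ (2 * (k:ℝ) + 1) * ((C + 1) * 2 ^ 24 * (1 / 2) ^ k) :=
            mul_le_mul_of_nonneg_left (h2 k) (by positivity)
        _ ≤ (2 * (k:ℝ) + 2) * ((C + 1) * 2 ^ 24 * (1 / 2) ^ k) :=
            mul_le_mul_of_nonneg_right (by linarith) (mul_nonneg h5 h4)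
        _ = _ := by ring
    refine h3.trans ?_
    rw [← Finset.mul_sum]
    have h4 := geom_bound (lam := 1 / 2) (by norm_num) (by norm_num) M
    have h5 : (1 : ℝ) / (1 - 1 / 2) ^ 2 = 4 := by norm_num
    rw [h5] at h4
    have h6 : (C + 1) * 2 ^ 24 * 2 * ∑ k ∈ Finset.range M, (((k:ℝ) + 1) * (1 / 2) ^ k) ≤
        (C + 1) * 2 ^ 24 * 2 * 4 := mul_le_mul_of_nonneg_left h4 (by positivity)
    linarith

/-! ### variances of sums of local variables -/

theorem var_sum {U : Finset Edg} {ι : Type*} (I : Finset ι)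
    (X : ι → Finset Edg → ℝ) (S : ι → Finset Edg) (hS : ∀ i ∈ I, S i ⊆ U)
    (hX : ∀ i F, 0 ≤ X i F) (hl : ∀ i ∈ I, ∀ F, X i F = X i (F ∩ S i)) (D : ℝ)
    (near : ι → ι → Prop) [∀ i j, Decidable (near i j)]
    (hnear : ∀ i ∈ I, ∀ j ∈ I, ¬ near i j → Disjoint (S i) (S j))
    (hD : ∀ i ∈ I, ((I.filter (fun j => near i j)).card : ℝ) ≤ D) {B : ℝ} (hB0 : 0 ≤ B)
    (hB : ∀ i ∈ I, Ex P2 U (fun F => X i F * X i F) ≤ B) :
    Ex P2 U (fun F => (∑ i ∈ I, X i F - ∑ i ∈ I, Ex P2 U (X i)) ^ 2) ≤ D * I.card * B := by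
  classical
  set m : ℝ := ∑ i ∈ I, Ex P2 U (X i) with hm
  have hm1 : Ex P2 U (fun F => ∑ i ∈ I, X i F) = m := by rw [Ex_sum]
  have h2 : Ex P2 U (fun F => (∑ i ∈ I, X i F - m) ^ 2) =
      Ex P2 U (fun F => (∑ i ∈ I, X i F) * (∑ i ∈ I, X i F)) - m * m := by
    have e : ∀ F : Finset Edg, (∑ i ∈ I, X i F - m) ^ 2 =
        (∑ i ∈ I, X i F) * (∑ i ∈ I, X i F) - 2 * m * (∑ i ∈ I, X i F) + m ^ 2 := by
      intro F; ring
    rw [Ex_congr (g := fun F => (∑ i ∈ I, X i F) * (∑ i ∈ I, X i F) -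
      2 * m * (∑ i ∈ I, X i F) + m ^ 2) (fun F _ => e F)]
    rw [Ex_add, Ex_sub, Ex_mul_left, Ex_const, hm1]
    ring
  have h3 : Ex P2 U (fun F => (∑ i ∈ I, X i F) * (∑ i ∈ I, X i F)) =
      ∑ i ∈ I, ∑ j ∈ I, Ex P2 U (fun F => X i F * X j F) := by
    rw [Ex_congr (g := fun F => ∑ i ∈ I, ∑ j ∈ I, X i F * X j F)
      (fun F _ => Finset.sum_mul_sum _ _ _ _), Ex_sum]
    exact Finset.sum_congr rfl fun i _ => Ex_sum _ _ _ _
  rw [h2, h3, hm, Finset.sum_mul_sum, ← Finset.sum_sub_distrib]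
  have h4 : ∀ i ∈ I, (∑ j ∈ I, Ex P2 U (fun F => X i F * X j F) -
      ∑ j ∈ I, Ex P2 U (X i) * Ex P2 U (X j)) ≤ D * B := by
    intro i hi
    rw [← Finset.sum_sub_distrib]
    have h5 : ∀ j ∈ I, Ex P2 U (fun F => X i F * X j F) - Ex P2 U (X i) * Ex P2 U (X j) ≤
        if near i j then B else 0 := by
      intro j hj
      split_ifs with h
      · have e1 : Ex P2 U (fun F => X i F * X j F) ≤
            Ex P2 U (fun F => 1/2 * (X i F * X i F) + 1/2 * (X j F * X j F)) := by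
          apply Ex_mono ok2
          intro F _
          nlinarith [sq_nonneg (X i F - X j F)]
        rw [Ex_add, Ex_mul_left, Ex_mul_left] at e1
        have e2 := hB i hi
        have e3 := hB j hj
        have e4 : 0 ≤ Ex P2 U (X i) * Ex P2 U (X j) :=
          mul_nonneg (Ex_nonneg ok2 fun F _ => hX i F) (Ex_nonneg ok2 fun F _ => hX j F)
        linarith
      · rw [Ex_mul_indep (hS i hi) (hS j hj) (hnear i hi j hj h) (fun F _ => hl i hi F)
          (fun F _ => hl j hj F)]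
        linarith
    refine (Finset.sum_le_sum h5).trans ?_
    rw [← Finset.sum_filter, Finset.sum_const, nsmul_eq_mul]
    exact mul_le_mul_of_nonneg_right (hD i hi) hB0
  refine (Finset.sum_le_sum h4).trans ?_
  rw [Finset.sum_const, nsmul_eq_mul]
  apply le_of_eq
  ring

theorem bx_disj {v w : Vtx} {k : ℤ} (h : 2 * k < |v.1 - w.1| ∨ 2 * k < |v.2 - w.2|) :
    Disjoint (bx v k) (bx w k) := by
  rw [Finset.disjoint_left]
  rintro ⟨x, y, _ | _⟩ h1 h2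
  · unfold bx at h1 h2
    rw [mem_RE_false] at h1 h2
    rcases abs_cases (v.1 - w.1) with h3 | h3 <;> rcases abs_cases (v.2 - w.2) with h4 | h4 <;>
    omega
  · unfold bx at h1 h2
    rw [mem_RE_true] at h1 h2
    rcases abs_cases (v.1 - w.1) with h3 | h3 <;> rcases abs_cases (v.2 - w.2) with h4 | h4 <;>
    omega

/-- the variance of a sum of increments -/
theorem var_V {B : ℝ} (hB0 : 0 ≤ B) (hB : ∀ (j : ℕ) (v : Vtx) (S : Finset Edg),
    bx v ((2 ^ (j + 1) : ℕ) : ℤ) ⊆ S → Ex P2 S (fun F => DD j v F * DD j v F) ≤ B)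
    (j : ℕ) (I : Finset Vtx) {U : Finset Edg} (hU : ∀ v ∈ I, bx v ((2 ^ (j + 1) : ℕ) : ℤ) ⊆ U) :
    Ex P2 U (fun F => (∑ v ∈ I, DD j v F - ∑ v ∈ I, Ex P2 U (DD j v)) ^ 2) ≤
      (256 * 4 ^ j) * I.card * B := by
  classical
  apply var_sum I (DD j) (fun v => bx v ((2 ^ (j + 1) : ℕ) : ℤ)) hU (fun v F => DD_nonneg j v F)
    (fun v _ F => DD_local j v F (Finset.Subset.refl _)) (256 * 4 ^ j)
    (fun v w => |v.1 - w.1| ≤ 2 * ((2 ^ (j + 1) : ℕ) : ℤ) ∧
      |v.2 - w.2| ≤ 2 * ((2 ^ (j + 1) : ℕ) : ℤ)) _ _ hB0 (fun v hv => hB j v U (hU v hv))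
  · intro v _ w _ h
    apply bx_disj
    by_contra hc
    push Not at hc
    exact h hc
  · intro v _
    set k : ℕ := 2 * 2 ^ (j + 1) with hk
    have hkk : (2 * ((2 ^ (j + 1) : ℕ) : ℤ)) = (k : ℤ) := by rw [hk]; push_cast; ring
    have h1 : (I.filter (fun w => |v.1 - w.1| ≤ 2 * ((2 ^ (j + 1) : ℕ) : ℤ) ∧
        |v.2 - w.2| ≤ 2 * ((2 ^ (j + 1) : ℕ) : ℤ))).card ≤ (2 * k + 1) * (2 * k + 1) := by
      have h2 : I.filter (fun w => |v.1 - w.1| ≤ 2 * ((2 ^ (j + 1) : ℕ) : ℤ) ∧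
          |v.2 - w.2| ≤ 2 * ((2 ^ (j + 1) : ℕ) : ℤ)) ⊆
          Finset.Icc (v.1 - k) (v.1 + k) ×ˢ Finset.Icc (v.2 - k) (v.2 + k) := by
        intro w hw
        rw [Finset.mem_filter, hkk, abs_le, abs_le] at hw
        rw [Finset.mem_product, Finset.mem_Icc, Finset.mem_Icc]
        omega
      refine (Finset.card_le_card h2).trans (le_of_eq ?_)
      rw [Finset.card_product, Int.card_Icc, Int.card_Icc]
      congr 1 <;> omega
    have h2 : ((I.filter (fun w => |v.1 - w.1| ≤ 2 * ((2 ^ (j + 1) : ℕ) : ℤ) ∧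
        |v.2 - w.2| ≤ 2 * ((2 ^ (j + 1) : ℕ) : ℤ))).card : ℝ) ≤
        ((2 * k + 1) * (2 * k + 1) : ℕ) := by exact_mod_cast h1
    refine h2.trans ?_
    have e : (k : ℝ) = 4 * 2 ^ j := by
      rw [hk]
      push_cast
      ring
    push_cast
    rw [e]
    have h3 : (1 : ℝ) ≤ 2 ^ j := one_le_pow₀ (by norm_num)
    have h4 : (4 : ℝ) ^ j = 2 ^ j * 2 ^ j := by rw [← mul_pow]; norm_num
    rw [h4]
    nlinarith

end Pool.Agent.H78CZ
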