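import Pool.Agent.H78CZ.F

/-!
# The fluctuation functional
-/

set_option autoImplicit false

namespace Pool.Agent.H78CZ
open H974 H906.Cyl Finset
open Pool.Agent.W819.EN (Ch nb St lnk Mv fc nmv DA NS start_eq vb P2 bx an NA Geo geoNA Lnk Cir Rad
  LTail ltail)
open Pool.Agent.H863R2.NL (ET cN)
open Pool.Agent.Y993.LL (zz JJ card_JJ JJ_abs near_card)

/-- the big box -/
noncomputable def UB (n : ℕ) : Finset Edg := bx (0, 0) ((5 * n : ℕ) : ℤ)

/-- distance to the complement of the box -/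
def dd (n : ℕ) (v : Vtx) : ℕ := n + 1 - max v.1.natAbs v.2.natAbs

/-- dyadic distance to the complement -/
def jd (n : ℕ) (v : Vtx) : ℕ := Nat.log 2 (dd n v)

/-- the mesh of the grid -/
def mm (i : ℕ) : ℕ := 2 ^ (i - 3)

theorem vb_abs {n : ℕ} {v : Vtx} (h : v ∈ vb n) : (-(n : ℤ) ≤ v.1 ∧ v.1 ≤ n) ∧
    (-(n : ℤ) ≤ v.2 ∧ v.2 ≤ n) := by
  unfold vb at h
  rw [Finset.mem_product, Finset.mem_Icc, Finset.mem_Icc] at h
  exact h

theorem card_vb (n : ℕ) : (vb n).card = (2 * n + 1) ^ 2 := by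
  unfold vb
  rw [Finset.card_product, Int.card_Icc, _root_.sq]
  congr 1 <;> omega

theorem bx_UB {n : ℕ} {v : Vtx} {R : ℕ} (hv : v ∈ vb n) (hR : R ≤ 4 * n) : bx v (R : ℤ) ⊆ UB n := by
  have h := vb_abs hv
  unfold UB bx
  rintro ⟨x, y, _ | _⟩ h8
  · rw [mem_RE_false] at h8 ⊢
    push_cast
    simp only [zero_sub, zero_add]
    omega
  · rw [mem_RE_true] at h8 ⊢
    push_cast
    simp only [zero_sub, zero_add]
    omega

theorem bx_UB' {n m : ℕ} (hm : 1 ≤ m) (hmn : m ≤ n) {q : ℤ × ℤ} (hq : q ∈ JJ n m) :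
    bx (zz m q) (3 * (m : ℤ)) ⊆ UB n := by
  have h := JJ_abs hm hmn hq
  unfold UB bx zz
  rintro ⟨x, y, _ | _⟩ h8
  · rw [mem_RE_false] at h8 ⊢
    push_cast
    simp only [zero_sub, zero_add] at h8 ⊢
    omega
  · rw [mem_RE_true] at h8 ⊢
    push_cast
    simp only [zero_sub, zero_add] at h8 ⊢
    omega

/-- fluctuation of a sum of increments -/
noncomputable def fl (n i : ℕ) (I : Finset Vtx) (F : Finset Edg) : ℝ :=
  ∑ v ∈ I, DD i v F - ∑ v ∈ I, Ex P2 (UB n) (DD i v)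

/-- the sum of the numbers of crossing clusters -/
noncomputable def ys (n i : ℕ) (F : Finset Edg) : ℝ :=
  ∑ q ∈ JJ n (mm i), ((YY (zz (mm i) q) (mm i) (↑F) : ℕ) : ℝ)

/-- the mean -/
noncomputable def ye (n i : ℕ) : ℝ :=
  ∑ q ∈ JJ n (mm i), Ex P2 (UB n) (fun F => ((YY (zz (mm i) q) (mm i) (↑F) : ℕ) : ℝ))

open Classical in
/-- the fluctuations at one scale -/
noncomputable def aa (n i : ℕ) (F : Finset Edg) : ℝ :=
  |fl n i ((vb n).filter (fun v => i < jd n v)) F| + |fl n i (vb n) F| +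
    if 6 ≤ i then 4 ^ i * |ys n i F - ye n i| else 0

theorem aa_nonneg (n i : ℕ) (F : Finset Edg) : 0 ≤ aa n i F := by
  unfold aa
  split_ifs <;> positivity

/-- the fluctuation functional -/
noncomputable def QQ (n : ℕ) (F : Finset Edg) : ℝ := ∑ i ∈ Finset.range (Nat.log 2 n + 1), aa n i F

theorem QQ_nonneg (n : ℕ) (F : Finset Edg) : 0 ≤ QQ n F :=
  Finset.sum_nonneg fun i _ => aa_nonneg n i F

/-- bound for the second moment of the number of crossing clusters -/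
noncomputable def BY : ℝ := 2 / ((1 / 2 : ℝ) ^ 188) ^ 2

theorem BY_pos : 0 < BY := by unfold BY; positivity

theorem mm_le {n i : ℕ} (hn : 1 ≤ n) (hi : i < Nat.log 2 n + 1) : mm i ≤ n := by
  unfold mm
  calc 2 ^ (i - 3) ≤ 2 ^ (Nat.log 2 n) := Nat.pow_le_pow_right (by norm_num) (by omega)
    _ ≤ n := Nat.pow_log_le_self 2 (by omega)

theorem mm_five {i : ℕ} (hi : 6 ≤ i) : 5 ≤ mm i := by
  unfold mm
  calc 5 ≤ 2 ^ 3 := by norm_num
    _ ≤ 2 ^ (i - 3) := Nat.pow_le_pow_right (by norm_num) (by omega)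

theorem mm_sq {i : ℕ} (hi : 3 ≤ i) : (64 : ℝ) * (mm i : ℝ) ^ 2 = 4 ^ i := by
  unfold mm
  obtain ⟨k, rfl⟩ : ∃ k, i = k + 3 := ⟨i - 3, by omega⟩
  have : k + 3 - 3 = k := by omega
  rw [this]
  push_cast
  rw [← pow_mul, mul_comm k 2, pow_mul, pow_add]
  norm_num
  ring

theorem card_JJ' {n i : ℕ} (hn : 1 ≤ n) (hi : i < Nat.log 2 n + 1) (hi6 : 6 ≤ i) :
    ((JJ n (mm i)).card : ℝ) * 4 ^ i ≤ 1600 * (n : ℝ) ^ 2 := by
  have h1 := card_JJ (n := n) (k := mm i) ((by norm_num : 1 ≤ 5).trans (mm_five hi6)) (mm_le hn hi)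
  have h2 := mm_sq (i := i) (by omega)
  have hm : (0 : ℝ) < mm i := by
    have := mm_five hi6
    have : 0 < mm i := by omega
    exact_mod_cast this
  have h3 : 25 * ((n : ℝ) / mm i) ^ 2 * 4 ^ i = 1600 * (n : ℝ) ^ 2 := by
    rw [← h2]
    field_simp
    ring
  rw [← h3]
  exact mul_le_mul_of_nonneg_right h1 (by positivity)

theorem YY_ex {n i : ℕ} (hn : 1 ≤ n) (hi : i < Nat.log 2 n + 1) (hi6 : 6 ≤ i) {q : ℤ × ℤ}
    (hq : q ∈ JJ n (mm i)) :
    Ex P2 (UB n) (fun F => ((YY (zz (mm i) q) (mm i) (↑F) : ℕ) : ℝ)) ≤ 1 + BY := by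
  have h0 := YY_sq (z := zz (mm i) q) (mm_five hi6)
    (bx_UB' ((by norm_num : 1 ≤ 5).trans (mm_five hi6)) (mm_le hn hi) hq)
  have h1 : Ex P2 (UB n) (fun F => ((YY (zz (mm i) q) (mm i) (↑F) : ℕ) : ℝ)) ≤
      Ex P2 (UB n) (fun F => 1 + ((YY (zz (mm i) q) (mm i) (↑F) : ℕ) : ℝ) *
        (YY (zz (mm i) q) (mm i) (↑F) : ℕ)) := by
    apply Ex_mono ok2
    intro F _
    nlinarith [sq_nonneg (((YY (zz (mm i) q) (mm i) (↑F) : ℕ) : ℝ) - 1),
      (Nat.cast_nonneg (YY (zz (mm i) q) (mm i) (↑F)) : (0:ℝ) ≤ _)]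
  rw [Ex_add, Ex_const] at h1
  exact h1.trans (add_le_add le_rfl h0)

theorem ye_le {n i : ℕ} (hn : 1 ≤ n) (hi : i < Nat.log 2 n + 1) (hi6 : 6 ≤ i) :
    4 ^ i * ye n i ≤ 1600 * (1 + BY) * (n : ℝ) ^ 2 := by
  have h1 : ye n i ≤ (JJ n (mm i)).card * (1 + BY) := by
    unfold ye
    refine (Finset.sum_le_sum fun q hq => YY_ex hn hi hi6 hq).trans ?_
    rw [Finset.sum_const, nsmul_eq_mul]
  have h2 := card_JJ' hn hi hi6
  have hB := BY_pos
  calc 4 ^ i * ye n i ≤ 4 ^ i * ((JJ n (mm i)).card * (1 + BY)) :=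
        mul_le_mul_of_nonneg_left h1 (by positivity)
    _ = ((JJ n (mm i)).card * 4 ^ i) * (1 + BY) := by ring
    _ ≤ (1600 * (n : ℝ) ^ 2) * (1 + BY) := mul_le_mul_of_nonneg_right h2 (by positivity)
    _ = _ := by ring

theorem var_ys {n i : ℕ} (hn : 1 ≤ n) (hi : i < Nat.log 2 n + 1) (hi6 : 6 ≤ i) :
    Ex P2 (UB n) (fun F => (4 ^ i * |ys n i F - ye n i|) ^ 2) ≤
      1000000 * BY * (n : ℝ) ^ 2 * 4 ^ i := by
  classical
  have hm5 := mm_five hi6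
  have h1 := var_sum (U := UB n) (JJ n (mm i))
    (fun q F => ((YY (zz (mm i) q) (mm i) (↑F) : ℕ) : ℝ))
    (fun q => bx (zz (mm i) q) (3 * (mm i : ℤ)))
    (fun q hq => bx_UB' ((by norm_num : 1 ≤ 5).trans hm5) (mm_le hn hi) hq)
    (fun q F => Nat.cast_nonneg _) (fun q _ F => by
      show ((YY (zz (mm i) q) (mm i) (↑F) : ℕ) : ℝ) = _
      rw [YY_local F]) 625
    (fun i j => |i.1 - j.1| ≤ 12 ∧ |i.2 - j.2| ≤ 12)
    (by
      intro q _ q' _ h
      apply bx_disj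
      by_contra hc
      push Not at hc
      obtain ⟨c1, c2⟩ := hc
      apply h
      unfold zz at c1 c2
      simp only at c1 c2
      rw [← mul_sub, abs_mul, Nat.abs_cast] at c1 c2
      have hm0 : (0 : ℤ) < mm i := by
        have : 0 < mm i := by omega
        exact_mod_cast this
      constructor
      · by_contra hc'
        push Not at hc'
        nlinarith
      · by_contra hc'
        push Not at hc'
        nlinarith)
    (by
      intro q _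
      exact_mod_cast near_card n (mm i) q)
    BY_pos.le
    (fun q hq => YY_sq hm5
      (bx_UB' ((by norm_num : 1 ≤ 5).trans hm5) (mm_le hn hi) hq))
  have h2 : Ex P2 (UB n) (fun F => (4 ^ i * |ys n i F - ye n i|) ^ 2) =
      (4 ^ i) ^ 2 * Ex P2 (UB n) (fun F => (ys n i F - ye n i) ^ 2) := by
    rw [← Ex_mul_left]
    apply Ex_congr
    intro F _
    rw [mul_pow, sq_abs]
  rw [h2]
  have h3 := card_JJ' hn hi hi6
  have hB := BY_pos
  calc ((4 : ℝ) ^ i) ^ 2 * Ex P2 (UB n) (fun F => (ys n i F - ye n i) ^ 2)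
      ≤ ((4 : ℝ) ^ i) ^ 2 * (625 * (JJ n (mm i)).card * BY) :=
        mul_le_mul_of_nonneg_left h1 (by positivity)
    _ = 625 * BY * 4 ^ i * ((JJ n (mm i)).card * 4 ^ i) := by ring
    _ ≤ 625 * BY * 4 ^ i * (1600 * (n : ℝ) ^ 2) :=
        mul_le_mul_of_nonneg_left h3 (by positivity)
    _ = _ := by ring

/-- the second moment of the fluctuations at one scale -/
theorem aa_sq {B : ℝ} (hB0 : 0 ≤ B) (hB : ∀ (j : ℕ) (v : Vtx) (S : Finset Edg),
    bx v ((2 ^ (j + 1) : ℕ) : ℤ) ⊆ S → Ex P2 S (fun F => DD j v F * DD j v F) ≤ B)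
    {n i : ℕ} (hn : 1 ≤ n) (hi : i < Nat.log 2 n + 1) :
    Ex P2 (UB n) (fun F => aa n i F ^ 2) ≤ 3 * (4608 * B + 1000000 * BY) * (n : ℝ) ^ 2 * 4 ^ i := by
  classical
  have hnR : (1 : ℝ) ≤ n := by exact_mod_cast hn
  have h2i : 2 ^ (i + 1) ≤ 2 * n := by
    calc 2 ^ (i + 1) ≤ 2 ^ (Nat.log 2 n + 1) := Nat.pow_le_pow_right (by norm_num) (by omega)
      _ = 2 * 2 ^ (Nat.log 2 n) := by rw [pow_succ]; ring
      _ ≤ 2 * n := Nat.mul_le_mul_left 2 (Nat.pow_log_le_self 2 (by omega))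
  have hI : ∀ I : Finset Vtx, I ⊆ vb n → Ex P2 (UB n) (fun F => |fl n i I F| ^ 2) ≤
      2304 * B * (n : ℝ) ^ 2 * 4 ^ i := by
    intro I hI
    have h1 := var_V hB0 hB i I (U := UB n) (fun v hv => bx_UB (hI hv) (by omega))
    have h2 : Ex P2 (UB n) (fun F => |fl n i I F| ^ 2) =
        Ex P2 (UB n) (fun F => (∑ v ∈ I, DD i v F - ∑ v ∈ I, Ex P2 (UB n) (DD i v)) ^ 2) := by
      apply Ex_congr
      intro F _
      rw [sq_abs]
      rfl
    rw [h2]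
    refine h1.trans ?_
    have h3 : (I.card : ℝ) ≤ 9 * (n : ℝ) ^ 2 := by
      have h4 : I.card ≤ (2 * n + 1) ^ 2 := by
        rw [← card_vb]
        exact Finset.card_le_card hI
      have h5 : (I.card : ℝ) ≤ (2 * (n : ℝ) + 1) ^ 2 := by exact_mod_cast h4
      nlinarith
    calc 256 * 4 ^ i * (I.card : ℝ) * B ≤ 256 * 4 ^ i * (9 * (n : ℝ) ^ 2) * B := by
          apply mul_le_mul_of_nonneg_right _ hB0
          exact mul_le_mul_of_nonneg_left h3 (by positivity)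
      _ = _ := by ring
  have e1 := hI _ (Finset.filter_subset (fun v => i < jd n v) (vb n))
  have e2 := hI _ (Finset.Subset.refl (vb n))
  have e3 : Ex P2 (UB n) (fun F => (if 6 ≤ i then 4 ^ i * |ys n i F - ye n i| else 0) ^ 2) ≤
      1000000 * BY * (n : ℝ) ^ 2 * 4 ^ i := by
    split_ifs with h6
    · exact var_ys hn hi h6
    · have hB := BY_pos
      have e : (fun _ : Finset Edg => (0 : ℝ) ^ 2) = fun _ => 0 := by funext; norm_num
      rw [e, Ex_const]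
      positivity
  have h4 : Ex P2 (UB n) (fun F => aa n i F ^ 2) ≤ Ex P2 (UB n) (fun F =>
      3 * |fl n i ((vb n).filter (fun v => i < jd n v)) F| ^ 2 + 3 * |fl n i (vb n) F| ^ 2 +
        3 * (if 6 ≤ i then 4 ^ i * |ys n i F - ye n i| else 0) ^ 2) := by
    apply Ex_mono ok2
    intro F _
    unfold aa
    generalize |fl n i ((vb n).filter (fun v => i < jd n v)) F| = x
    generalize |fl n i (vb n) F| = y
    generalize (if 6 ≤ i then 4 ^ i * |ys n i F - ye n i| else 0) = z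
    nlinarith [sq_nonneg (x - y), sq_nonneg (y - z), sq_nonneg (x - z)]
  rw [Ex_add, Ex_add, Ex_mul_left, Ex_mul_left, Ex_mul_left] at h4
  linarith

theorem geo2 (N : ℕ) : ∑ i ∈ Finset.range N, (2 : ℝ) ^ i ≤ 2 ^ N := by
  induction N with
  | zero => simp
  | succ N ih =>
    rw [Finset.sum_range_succ, pow_succ]
    linarith

/-- **The second moment of the fluctuation functional.** -/
theorem QQ_sq : ∃ C : ℝ, 0 < C ∧ ∀ n : ℕ, 1 ≤ n →
    Ex P2 (UB n) (fun F => QQ n F ^ 2) ≤ C * (n : ℝ) ^ 4 := by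
  obtain ⟨B, hB0, hB⟩ := DD_sq
  set C1 : ℝ := 3 * (4608 * B + 1000000 * BY) with hC1
  have hC10 : 0 < C1 := by
    have := BY_pos
    rw [hC1]
    positivity
  refine ⟨4 * C1, by positivity, ?_⟩
  intro n hn
  set N := Nat.log 2 n + 1 with hN
  have hnR : (1 : ℝ) ≤ n := by exact_mod_cast hn
  have h2N : (2 : ℝ) ^ N ≤ 2 * n := by
    have : 2 ^ N ≤ 2 * n := by
      rw [hN, pow_succ]
      have := Nat.pow_log_le_self 2 (show n ≠ 0 by omega)
      omega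
    exact_mod_cast this
  have h1 : Ex P2 (UB n) (fun F => QQ n F ^ 2) ≤ Ex P2 (UB n) (fun F =>
      (∑ i ∈ Finset.range N, (2 : ℝ) ^ i) *
        ∑ i ∈ Finset.range N, ((1 / 2 : ℝ) ^ i * aa n i F ^ 2)) := by
    apply Ex_mono ok2
    intro F _
    unfold QQ
    apply Finset.sum_sq_le_sum_mul_sum_of_sq_le_mul
    · intro i _; positivity
    · intro i _; positivity
    · intro i _
      rw [← mul_assoc, ← mul_pow]
      norm_num
  rw [Ex_mul_left, Ex_sum] at h1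
  have h2 : ∑ i ∈ Finset.range N, Ex P2 (UB n) (fun F => (1 / 2 : ℝ) ^ i * aa n i F ^ 2) ≤
      ∑ i ∈ Finset.range N, C1 * (n : ℝ) ^ 2 * 2 ^ i := by
    apply Finset.sum_le_sum
    intro i hi
    rw [Finset.mem_range] at hi
    rw [Ex_mul_left]
    have h3 := aa_sq hB0 hB hn hi
    have h4 : (1 / 2 : ℝ) ^ i * 4 ^ i = 2 ^ i := by rw [← mul_pow]; norm_num
    calc (1 / 2 : ℝ) ^ i * Ex P2 (UB n) (fun F => aa n i F ^ 2)
        ≤ (1 / 2 : ℝ) ^ i * (C1 * (n : ℝ) ^ 2 * 4 ^ i) :=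
          mul_le_mul_of_nonneg_left h3 (by positivity)
      _ = C1 * (n : ℝ) ^ 2 * ((1 / 2 : ℝ) ^ i * 4 ^ i) := by ring
      _ = _ := by rw [h4]
  rw [← Finset.mul_sum] at h2
  have h5 := geo2 N
  have h6 : (0 : ℝ) ≤ ∑ i ∈ Finset.range N, (2 : ℝ) ^ i := Finset.sum_nonneg fun i _ => by positivity
  have h7 : ∑ i ∈ Finset.range N, (2 : ℝ) ^ i ≤ 2 * n := h5.trans h2N
  calc Ex P2 (UB n) (fun F => QQ n F ^ 2)
      ≤ (∑ i ∈ Finset.range N, (2 : ℝ) ^ i) *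
        ∑ i ∈ Finset.range N, Ex P2 (UB n) (fun F => (1 / 2 : ℝ) ^ i * aa n i F ^ 2) := h1
    _ ≤ (∑ i ∈ Finset.range N, (2 : ℝ) ^ i) * (C1 * (n : ℝ) ^ 2 *
        ∑ i ∈ Finset.range N, (2 : ℝ) ^ i) := mul_le_mul_of_nonneg_left h2 h6
    _ ≤ (2 * n) * (C1 * (n : ℝ) ^ 2 * (2 * n)) := by
        apply mul_le_mul h7 _ (by positivity) (by positivity)
        exact mul_le_mul_of_nonneg_left h7 (by positivity)
    _ = _ := by ring

/-- Markov's inequality -/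
theorem QQ_pr : ∃ C : ℝ, 0 < C ∧ ∀ n : ℕ, 1 ≤ n → ∀ L : ℝ, 0 < L →
    Pr P2 (UB n) (fun F => L * (n : ℝ) ^ 2 < QQ n F) ≤ C / L ^ 2 := by
  obtain ⟨C, hC, h⟩ := QQ_sq
  refine ⟨C, hC, ?_⟩
  intro n hn L hL
  have hnR : (1 : ℝ) ≤ n := by exact_mod_cast hn
  rw [le_div_iff₀ (by positivity)]
  have h1 : Pr P2 (UB n) (fun F => L * (n : ℝ) ^ 2 < QQ n F) * (L * (n : ℝ) ^ 2) ^ 2 ≤
      Ex P2 (UB n) (fun F => QQ n F ^ 2) := by
    unfold Pr
    rw [← Ex_mul_right]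
    apply Ex_mono ok2
    intro F _
    by_cases hQ : L * (n : ℝ) ^ 2 < QQ n F
    · rw [ind_of hQ, one_mul]
      exact pow_le_pow_left₀ (by positivity) hQ.le 2
    · rw [ind_not_of hQ, zero_mul]
      positivity
  have h2 := h1.trans (h n hn)
  have h3 : (0 : ℝ) < (n : ℝ) ^ 4 := by positivity
  have h4 : Pr P2 (UB n) (fun F => L * (n : ℝ) ^ 2 < QQ n F) * L ^ 2 * (n : ℝ) ^ 4 ≤
      C * (n : ℝ) ^ 4 := by
    calc _ = Pr P2 (UB n) (fun F => L * (n : ℝ) ^ 2 < QQ n F) * (L * (n : ℝ) ^ 2) ^ 2 := by ring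
      _ ≤ _ := h2
  exact le_of_mul_le_mul_right h4 h3

end Pool.Agent.H78CZ
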