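import Pool.Agent.H78CZ.G

/-!
# The truncated sums of the areas, at all scales
-/

set_option autoImplicit false

namespace Pool.Agent.H78CZ
open H974 H906.Cyl Finset
open Pool.Agent.W819.EN (Ch nb St lnk Mv fc nmv DA NS start_eq vb P2 bx an NA Geo geoNA Lnk Cir Rad
  LTail ltail)
open Pool.Agent.H863R2.NL (ET cN)
open Pool.Agent.Y993.LL (zz JJ card_JJ JJ_abs near_card)

theorem FF_inter (S T : Finset Edg) (h : T ⊆ S) (ω : sqLattice.edgeSet → Bool) :
    FF S ω ∩ T = FF T ω := by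
  ext e
  rw [Finset.mem_inter, mem_FF, mem_FF]
  exact ⟨fun h1 => ⟨h1.2, h1.1.2⟩, fun h1 => ⟨⟨h h1.1, h1.2⟩, h1.1⟩⟩

theorem NS_FF {n : ℕ} {v : Vtx} {R : ℕ} (hv : v ∈ vb n) (hR : R ≤ 4 * n)
    (ω : sqLattice.edgeSet → Bool) : NS (opn ω) v 0 R = NA (FF (UB n) ω) v 0 R := by
  rw [← Pool.Agent.W819.EN.layers_NS, Pool.Agent.W819.EN.layers_eq]
  unfold Pool.Agent.W819.EN.lay
  rw [NA_local (FF (UB n) ω) v R (Finset.Subset.refl _), FF_inter _ _ (bx_UB hv hR)]

theorem YY_FF {n m : ℕ} (hm : 1 ≤ m) (hmn : m ≤ n) {q : ℤ × ℤ} (hq : q ∈ JJ n m)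
    (ω : sqLattice.edgeSet → Bool) : YY (zz m q) m (opn ω) = YY (zz m q) m ↑(FF (UB n) ω) := by
  unfold YY
  congr 1
  ext e
  have h := bx_UB' hm hmn hq
  constructor
  · rintro ⟨h1, h2⟩
    exact ⟨Finset.mem_coe.2 ((mem_FF).2 ⟨h (Finset.mem_coe.1 h2), h1⟩), h2⟩
  · rintro ⟨h1, h2⟩
    exact ⟨((mem_FF).1 (Finset.mem_coe.1 h1)).2, h2⟩

/-- the mean number of layers -/
noncomputable def ee (R : ℕ) : ℝ := ET R (fun m => (m : ℝ))

theorem ex_DD {n i : ℕ} {v : Vtx} (hv : v ∈ vb n) (hi : 2 ^ (i + 1) ≤ 4 * n) :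
    Ex P2 (UB n) (DD i v) = ee (2 ^ (i + 1)) - ee (2 ^ i) := by
  have e : DD i v = fun F => (NA F v 0 (2 ^ (i + 1)) : ℝ) - NA F v 0 (2 ^ i) := rfl
  rw [e, Ex_sub, mean_NA v _ (bx_UB hv hi), mean_NA v _ (bx_UB hv ((pow_le_succ i).trans hi))]
  rfl

theorem tele (f : ℕ → ℝ) (K : ℕ) : f K = f 0 + ∑ i ∈ Finset.range K, (f (i + 1) - f i) := by
  rw [Finset.sum_range_sub]
  ring

open Classical in
theorem tele_sum {I : Finset Vtx} (K : Vtx → ℕ) (J : ℕ) (hK : ∀ v ∈ I, K v ≤ J)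
    (f : Vtx → ℕ → ℝ) : ∑ v ∈ I, f v (K v) = ∑ v ∈ I, f v 0 +
      ∑ i ∈ Finset.range J, ∑ v ∈ I.filter (fun v => i < K v), (f v (i + 1) - f v i) := by
  have h1 : ∀ v ∈ I, f v (K v) = f v 0 +
      ∑ i ∈ Finset.range J, if i < K v then (f v (i + 1) - f v i) else 0 := by
    intro v hv
    rw [tele (f v) (K v), ← Finset.sum_filter]
    congr 1
    apply Finset.sum_congr _ fun _ _ => rfl
    ext i
    rw [Finset.mem_range, Finset.mem_filter, Finset.mem_range]
    have := hK v hv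
    omega
  rw [Finset.sum_congr rfl h1, Finset.sum_add_distrib, Finset.sum_comm]
  congr 1
  apply Finset.sum_congr rfl
  intro i _
  rw [Finset.sum_filter]

theorem one_bd {n : ℕ} (hn : 1 ≤ n) {v : Vtx} (hv : v ∈ vb n) (F : Finset Edg) :
    |(NA F v 0 1 : ℝ) - ee 1| ≤ 2 := by
  have h1 : NA F v 0 1 ≤ 2 := by
    have := geoNA.le F v 0 1
    omega
  have h1' : (NA F v 0 1 : ℝ) ≤ 2 := by exact_mod_cast h1
  have h2 : (0 : ℝ) ≤ (NA F v 0 1 : ℝ) := Nat.cast_nonneg _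
  have h3 : ee 1 = Ex P2 (UB n) (fun F => (NA F v 0 1 : ℝ)) := by
    rw [mean_NA v 1 (bx_UB hv (by omega))]
    rfl
  have h4 : 0 ≤ ee 1 := by
    rw [h3]
    exact Ex_nonneg ok2 fun F _ => Nat.cast_nonneg _
  have h5 : ee 1 ≤ 2 := by
    rw [h3, ← Ex_const P2 (UB n) 2]
    apply Ex_mono ok2
    intro F _
    have := geoNA.le F v 0 1
    exact_mod_cast (by omega : NA F v 0 1 ≤ 2)
  rw [abs_le]
  constructor <;> linarith

open Classical in
/-- fluctuations of the sums of the numbers of layers -/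
theorem layer_sum {n : ℕ} (hn : 1 ≤ n) (K : Vtx → ℕ) (J : ℕ) (hJ : J ≤ Nat.log 2 n)
    (hK : ∀ v ∈ vb n, K v ≤ J) (F : Finset Edg) :
    |∑ v ∈ vb n, (NA F v 0 (2 ^ K v) : ℝ) - ∑ v ∈ vb n, ee (2 ^ K v)| ≤ 2 * (vb n).card +
      ∑ i ∈ Finset.range J, |fl n i ((vb n).filter (fun v => i < K v)) F| := by
  have h1 := tele_sum K J hK (fun v i => (NA F v 0 (2 ^ i) : ℝ))
  have h2 := tele_sum K J hK (fun _ i => ee (2 ^ i))
  rw [h1, h2]
  have e : ∑ v ∈ vb n, (NA F v 0 (2 ^ 0) : ℝ) +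
      ∑ i ∈ Finset.range J, ∑ v ∈ (vb n).filter (fun v => i < K v),
        ((NA F v 0 (2 ^ (i + 1)) : ℝ) - NA F v 0 (2 ^ i)) -
      (∑ v ∈ vb n, ee (2 ^ 0) + ∑ i ∈ Finset.range J, ∑ v ∈ (vb n).filter (fun v => i < K v),
        (ee (2 ^ (i + 1)) - ee (2 ^ i))) =
      ∑ v ∈ vb n, ((NA F v 0 1 : ℝ) - ee 1) +
        ∑ i ∈ Finset.range J, fl n i ((vb n).filter (fun v => i < K v)) F := by
    have e1 : ∀ i ∈ Finset.range J, fl n i ((vb n).filter (fun v => i < K v)) F =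
        ∑ v ∈ (vb n).filter (fun v => i < K v), ((NA F v 0 (2 ^ (i + 1)) : ℝ) - NA F v 0 (2 ^ i)) -
        ∑ v ∈ (vb n).filter (fun v => i < K v), (ee (2 ^ (i + 1)) - ee (2 ^ i)) := by
      intro i hi
      rw [Finset.mem_range] at hi
      unfold fl
      congr 1
      apply Finset.sum_congr rfl
      intro v hv
      rw [Finset.mem_filter] at hv
      apply ex_DD hv.1
      calc 2 ^ (i + 1) ≤ 2 ^ (Nat.log 2 n) := Nat.pow_le_pow_right (by norm_num) (by omega)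
        _ ≤ n := Nat.pow_log_le_self 2 (by omega)
        _ ≤ 4 * n := by omega
    rw [Finset.sum_congr rfl e1, Finset.sum_sub_distrib, Finset.sum_sub_distrib]
    simp only [pow_zero]
    ring
  rw [e]
  refine (abs_add_le _ _).trans (add_le_add ?_ (Finset.abs_sum_le_sum_abs _ _))
  refine (Finset.abs_sum_le_sum_abs _ _).trans ?_
  refine (Finset.sum_le_sum fun v hv => one_bd hn hv F).trans ?_
  rw [Finset.sum_const, nsmul_eq_mul]
  linarith

theorem QQ_ge_up {n J : ℕ} (hJ : J ≤ Nat.log 2 n) (F : Finset Edg) :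
    ∑ i ∈ Finset.range J, |fl n i (vb n) F| ≤ QQ n F := by
  unfold QQ
  calc ∑ i ∈ Finset.range J, |fl n i (vb n) F| ≤ ∑ i ∈ Finset.range J, aa n i F := by
        apply Finset.sum_le_sum
        intro i _
        unfold aa
        have h1 := abs_nonneg (fl n i ((vb n).filter (fun v => i < jd n v)) F)
        have h2 : (0 : ℝ) ≤ if 6 ≤ i then 4 ^ i * |ys n i F - ye n i| else 0 := by
          split_ifs <;> positivity
        linarith
    _ ≤ _ := by
        apply Finset.sum_le_sum_of_subset_of_nonneg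
        · exact Finset.range_mono (by omega)
        · intro i _ _
          exact aa_nonneg n i F

theorem QQ_ge_lo {n J : ℕ} (hJ : J ≤ Nat.log 2 n) (F : Finset Edg) :
    ∑ i ∈ Finset.range J, |fl n i ((vb n).filter (fun v => i < jd n v)) F| ≤ QQ n F := by
  unfold QQ
  calc _ ≤ ∑ i ∈ Finset.range J, aa n i F := by
        apply Finset.sum_le_sum
        intro i _
        unfold aa
        have h1 := abs_nonneg (fl n i (vb n) F)
        have h2 : (0 : ℝ) ≤ if 6 ≤ i then 4 ^ i * |ys n i F - ye n i| else 0 := by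
          split_ifs <;> positivity
        linarith
    _ ≤ _ := by
        apply Finset.sum_le_sum_of_subset_of_nonneg
        · exact Finset.range_mono (by omega)
        · intro i _ _
          exact aa_nonneg n i F

theorem QQ_ge_ys {n i : ℕ} (hi : i ≤ Nat.log 2 n) (h6 : 6 ≤ i) (F : Finset Edg) :
    4 ^ i * |ys n i F - ye n i| ≤ QQ n F := by
  unfold QQ
  refine le_trans ?_ (Finset.single_le_sum (f := fun i => aa n i F)
    (fun i _ => aa_nonneg n i F) (Finset.mem_range.2 (by omega : i < Nat.log 2 n + 1)))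
  unfold aa
  rw [if_pos h6]
  have h1 := abs_nonneg (fl n i ((vb n).filter (fun v => i < jd n v)) F)
  have h2 := abs_nonneg (fl n i (vb n) F)
  linarith

/-- the scale of `X` -/
theorem scale {n X : ℕ} (_hn : 1 ≤ n) (hX1 : 1 ≤ X) (hX2 : X ≤ (2 * n + 1) ^ 2) :
    ∃ J, J ≤ Nat.log 2 n ∧ 4 ^ J ≤ X ∧ X ≤ 36 * 4 ^ J := by
  refine ⟨min (Nat.log 2 n) (Nat.log 4 X), min_le_left _ _, ?_, ?_⟩
  · calc 4 ^ min (Nat.log 2 n) (Nat.log 4 X) ≤ 4 ^ Nat.log 4 X :=
        Nat.pow_le_pow_right (by norm_num) (min_le_right _ _)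
      _ ≤ X := Nat.pow_log_le_self 4 (by omega)
  · rcases le_total (Nat.log 2 n) (Nat.log 4 X) with h | h
    · rw [min_eq_left h]
      have h1 : n < 2 ^ (Nat.log 2 n + 1) := Nat.lt_pow_succ_log_self (by norm_num) n
      set J := Nat.log 2 n
      have h2 : (4 : ℕ) ^ J = 2 ^ J * 2 ^ J := by rw [← mul_pow]; norm_num
      rw [h2]
      rw [pow_succ] at h1
      have h3 : 2 * n + 1 ≤ 6 * 2 ^ J := by
        have : 1 ≤ 2 ^ J := Nat.one_le_two_pow
        omega
      calc X ≤ (2 * n + 1) ^ 2 := hX2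
        _ ≤ (6 * 2 ^ J) ^ 2 := Nat.pow_le_pow_left h3 2
        _ = _ := by ring
    · rw [min_eq_right h]
      have h1 : X < 4 ^ (Nat.log 4 X + 1) := Nat.lt_pow_succ_log_self (by norm_num) X
      rw [pow_succ] at h1
      omega

theorem log_scale {X J : ℕ} (h1 : 4 ^ J ≤ X) (h2 : X ≤ 36 * 4 ^ J) :
    (J : ℝ) * Real.log 2 ≤ Real.log X / 2 ∧ Real.log X / 2 ≤ J * Real.log 2 + 3 := by
  have hJ : (0 : ℝ) < 4 ^ J := by positivity
  have h1' : (4 : ℝ) ^ J ≤ X := by exact_mod_cast h1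
  have h2' : (X : ℝ) ≤ 36 * 4 ^ J := by exact_mod_cast h2
  have hX : (0 : ℝ) < X := lt_of_lt_of_le hJ h1'
  have e4 : Real.log 4 = 2 * Real.log 2 := by
    rw [show (4 : ℝ) = 2 ^ 2 by norm_num, Real.log_pow]
    norm_num
  have h3 := Real.log_le_log hJ h1'
  have h4 := Real.log_le_log hX h2'
  rw [Real.log_pow] at h3
  rw [Real.log_mul (by norm_num) hJ.ne', Real.log_pow] at h4
  rw [e4] at h3 h4
  have h5 : Real.log 36 ≤ 6 := by
    have h6 : Real.log 36 = 2 * Real.log 6 := by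
      rw [show (36 : ℝ) = 6 ^ 2 by norm_num, Real.log_pow]
      norm_num
    have h7 : Real.log 6 ≤ 3 := by
      have h8 : Real.log 6 = Real.log 2 + Real.log 3 := by
        rw [← Real.log_mul (by norm_num) (by norm_num)]
        norm_num
      have h9 := Real.log_le_sub_one_of_pos (show (0:ℝ) < 2 by norm_num)
      have h10 := Real.log_le_sub_one_of_pos (show (0:ℝ) < 3 by norm_num)
      linarith
    linarith
  constructor <;> linarith

theorem CLf_card (n : ℕ) (G : Set Edg) : (CLf n G).card ≤ (vb n).card := by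
  classical
  have h : CLf n G ⊆ (vb n).image (fun u => cl G (fc u)) := by
    intro K hK
    rw [mem_CLf] at hK
    obtain ⟨⟨u, rfl⟩, h⟩ := hK
    rw [Finset.mem_image]
    exact ⟨u, mem_vb.2 (h _ (cl_self _)), rfl⟩
  exact (Finset.card_le_card h).trans Finset.card_image_le

theorem cN_pos : 0 < cN := Pool.Agent.H863R2.NL.PowAux.cN_pos

theorem ee_bound : ∃ C : ℝ, 0 ≤ C ∧ ∀ K : ℕ,
    cN * (K * Real.log 2) - C ≤ ee (2 ^ K) ∧ ee (2 ^ K) ≤ cN * (K * Real.log 2) + C := by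
  obtain ⟨C, hC, h⟩ := ET_bound
  refine ⟨C, hC, fun K => ?_⟩
  have h1 := abs_le.1 (h (2 ^ K) Nat.one_le_two_pow)
  have h2 : Real.log ((2 ^ K : ℕ) : ℝ) = K * Real.log 2 := by
    push_cast
    rw [Real.log_pow]
  rw [h2] at h1
  unfold ee
  constructor <;> linarith [h1.1, h1.2]

/-- **Upper bound at all scales.** -/
theorem main_up : ∃ C : ℝ, 0 < C ∧ ∀ n : ℕ, 1 ≤ n → ∀ (ω : sqLattice.edgeSet → Bool) (X : ℕ),
    1 ≤ X → X ≤ (2 * n + 1) ^ 2 →
    (SX n X (opn ω) : ℝ) ≤ (2 * n + 1) ^ 2 * (cN / 4 * Real.log X) +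
      37 * QQ n (FF (UB n) ω) + C * (2 * n + 1) ^ 2 := by
  classical
  obtain ⟨C0, hC0, hee⟩ := ee_bound
  have hBY := BY_pos
  refine ⟨C0 + 2 + 36864 + 57600 * (1 + BY), by positivity, ?_⟩
  intro n hn ω X hX1 hX2
  obtain ⟨J, hJ, h4J, hXJ⟩ := scale hn hX1 hX2
  set F := FF (UB n) ω with hF
  have hnR : (1 : ℝ) ≤ n := by exact_mod_cast hn
  have hcard : ((vb n).card : ℝ) = (2 * n + 1) ^ 2 := by
    rw [card_vb]
    push_cast
    ring
  have h2J : 2 ^ J ≤ n := (Nat.pow_le_pow_right (by norm_num) hJ).trans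
    (Nat.pow_log_le_self 2 (by omega))
  -- the two parts
  have h1 := sum_upper (opn ω) n X (2 ^ J)
  have h1' : (SX n X (opn ω) : ℝ) ≤ ∑ v ∈ vb n, (((NS (opn ω) v 0 (2 ^ J) + 1) / 2 : ℕ) : ℝ) +
      X * (((CLf n (opn ω)).filter (fun K => ¬ Small (opn ω) (2 ^ J) K)).card : ℕ) := by
    have : (SX n X (opn ω) : ℝ) ≤ ((∑ v ∈ vb n, (NS (opn ω) v 0 (2 ^ J) + 1) / 2 +
      X * ((CLf n (opn ω)).filter (fun K => ¬ Small (opn ω) (2 ^ J) K)).card : ℕ) : ℝ) := by
      exact_mod_cast h1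
    push_cast at this
    push_cast
    exact this
  -- first part
  have h2 : ∑ v ∈ vb n, (((NS (opn ω) v 0 (2 ^ J) + 1) / 2 : ℕ) : ℝ) ≤
      ∑ v ∈ vb n, ((NA F v 0 (2 ^ J) : ℝ) / 2 + 1 / 2) := by
    apply Finset.sum_le_sum
    intro v hv
    rw [NS_FF hv (by omega) ω]
    have : (((NA F v 0 (2 ^ J) + 1) / 2 : ℕ) : ℝ) ≤ ((NA F v 0 (2 ^ J) + 1 : ℕ) : ℝ) / 2 :=
      Nat.cast_div_le
    push_cast at this
    linarith
  have h3 := layer_sum hn (fun _ => J) J hJ (fun _ _ => le_rfl) F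
  have h4 : ∑ i ∈ Finset.range J, |fl n i ((vb n).filter (fun _ => i < J)) F| =
      ∑ i ∈ Finset.range J, |fl n i (vb n) F| := by
    apply Finset.sum_congr rfl
    intro i hi
    rw [Finset.mem_range] at hi
    rw [Finset.filter_true_of_mem (fun _ _ => hi)]
  have h5 := QQ_ge_up hJ F
  have h6 : ∑ v ∈ vb n, (NA F v 0 (2 ^ J) : ℝ) ≤ (vb n).card * ee (2 ^ J) +
      2 * (vb n).card + QQ n F := by
    have h7 := (abs_le.1 h3).2
    rw [Finset.sum_const, nsmul_eq_mul] at h7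
    have h8 := h4 ▸ h7
    linarith
  have h9 := (hee J).2
  have h10 := (log_scale h4J hXJ).1
  have h11 : ∑ v ∈ vb n, ((NA F v 0 (2 ^ J) : ℝ) / 2 + 1 / 2) ≤
      (2 * n + 1) ^ 2 * (cN / 4 * Real.log X) + QQ n F / 2 + (C0 + 2) * (2 * n + 1) ^ 2 := by
    rw [Finset.sum_add_distrib, ← Finset.sum_div, Finset.sum_const, nsmul_eq_mul]
    have hc := cN_pos
    have h12 : ee (2 ^ J) ≤ cN * (Real.log X / 2) + C0 := by
      have := mul_le_mul_of_nonneg_left h10 hc.le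
      linarith
    have h13 : ((vb n).card : ℝ) * ee (2 ^ J) ≤ (vb n).card * (cN * (Real.log X / 2) + C0) :=
      mul_le_mul_of_nonneg_left h12 (Nat.cast_nonneg _)
    rw [hcard] at h6 h13 ⊢
    have h14 : (0 : ℝ) ≤ (2 * (n : ℝ) + 1) ^ 2 := by positivity
    nlinarith
  -- second part
  have h15 : (X : ℝ) * (((CLf n (opn ω)).filter (fun K => ¬ Small (opn ω) (2 ^ J) K)).card : ℕ) ≤
      36 * QQ n F + (36864 + 57600 * (1 + BY)) * (2 * n + 1) ^ 2 := by
    have hQ := QQ_nonneg n F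
    have hXR : (X : ℝ) ≤ 36 * 4 ^ J := by exact_mod_cast hXJ
    rcases Nat.lt_or_ge J 6 with hJ6 | hJ6
    · have h16 : (((CLf n (opn ω)).filter (fun K => ¬ Small (opn ω) (2 ^ J) K)).card : ℝ) ≤
          (2 * n + 1) ^ 2 := by
        rw [← hcard]
        exact_mod_cast (Finset.card_filter_le _ _).trans (CLf_card n (opn ω))
      have h17 : (X : ℝ) ≤ 36864 := by
        have : (4 : ℝ) ^ J ≤ 4 ^ 5 := pow_le_pow_right₀ (by norm_num) (by omega)
        norm_num at this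
        linarith
      have h18 := mul_le_mul h17 h16 (Nat.cast_nonneg _) (by norm_num)
      have h19 : (0 : ℝ) ≤ 57600 * (1 + BY) * (2 * n + 1) ^ 2 := by positivity
      linarith
    · have h16 := card_large (opn ω) n (mm J) (2 ^ J)
        ((by norm_num : 1 ≤ 5).trans (mm_five hJ6)) (by
          unfold mm
          have : 8 * 2 ^ (J - 3) = 2 ^ J := by
            rw [show (8 : ℕ) = 2 ^ 3 by norm_num, ← pow_add]
            congr 1
            omega
          omega)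
      have h17 : ∑ q ∈ JJ n (mm J), YY (zz (mm J) q) (mm J) (opn ω) =
          ∑ q ∈ JJ n (mm J), YY (zz (mm J) q) (mm J) ↑F := by
        apply Finset.sum_congr rfl
        intro q hq
        exact YY_FF ((by norm_num : 1 ≤ 5).trans (mm_five hJ6)) (mm_le hn (by omega)) hq ω
      rw [h17] at h16
      have h18 : (((CLf n (opn ω)).filter (fun K => ¬ Small (opn ω) (2 ^ J) K)).card : ℝ) ≤
          ys n J F := by
        unfold ys
        exact_mod_cast h16
      have h19 := QQ_ge_ys hJ hJ6 F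
      have h20 : 4 ^ J * ys n J F ≤ QQ n F + 4 ^ J * ye n J := by
        have h21 : ys n J F - ye n J ≤ |ys n J F - ye n J| := le_abs_self _
        have h22 : (0 : ℝ) < 4 ^ J := by positivity
        have h23 := mul_le_mul_of_nonneg_left h21 h22.le
        linarith
      have h21 := ye_le hn (by omega : J < Nat.log 2 n + 1) hJ6
      have hys : 0 ≤ ys n J F := by
        unfold ys
        exact Finset.sum_nonneg fun _ _ => Nat.cast_nonneg _
      calc (X : ℝ) * (((CLf n (opn ω)).filter (fun K => ¬ Small (opn ω) (2 ^ J) K)).card : ℕ)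
          ≤ (36 * 4 ^ J) * ys n J F := mul_le_mul hXR h18 (Nat.cast_nonneg _) (by positivity)
        _ = 36 * (4 ^ J * ys n J F) := by ring
        _ ≤ 36 * (QQ n F + 1600 * (1 + BY) * (n : ℝ) ^ 2) := by linarith
        _ ≤ 36 * QQ n F + (36864 + 57600 * (1 + BY)) * (2 * n + 1) ^ 2 := by
            have h22 : (n : ℝ) ^ 2 ≤ (2 * n + 1) ^ 2 := by nlinarith
            have h23 : 57600 * (1 + BY) * (n : ℝ) ^ 2 ≤ 57600 * (1 + BY) * (2 * n + 1) ^ 2 :=
              mul_le_mul_of_nonneg_left h22 (by positivity)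
            nlinarith
  have hQ := QQ_nonneg n F
  nlinarith

theorem slab_card (n t : ℕ) : ((vb n).filter (fun v => dd n v ≤ t)).card ≤ 4 * t * (2 * n + 1) := by
  classical
  set A1 := Finset.Icc ((n : ℤ) + 1 - t) n ×ˢ Finset.Icc (-(n : ℤ)) n
  set A2 := Finset.Icc (-(n : ℤ)) (-((n : ℤ) + 1 - t)) ×ˢ Finset.Icc (-(n : ℤ)) n
  set A3 := Finset.Icc (-(n : ℤ)) n ×ˢ Finset.Icc ((n : ℤ) + 1 - t) n
  set A4 := Finset.Icc (-(n : ℤ)) n ×ˢ Finset.Icc (-(n : ℤ)) (-((n : ℤ) + 1 - t))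
  have h1 : (vb n).filter (fun v => dd n v ≤ t) ⊆ (A1 ∪ A2) ∪ (A3 ∪ A4) := by
    intro v hv
    rw [Finset.mem_filter] at hv
    have h2 := vb_abs hv.1
    have h3 := hv.2
    unfold dd at h3
    simp only [A1, A2, A3, A4, Finset.mem_union, Finset.mem_product, Finset.mem_Icc]
    omega
  refine (Finset.card_le_card h1).trans ((Finset.card_union_le _ _).trans ?_)
  have h2 := Finset.card_union_le A1 A2
  have h3 := Finset.card_union_le A3 A4
  have c1 : A1.card = t * (2 * n + 1) := by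
    simp only [A1, Finset.card_product, Int.card_Icc]
    congr 1 <;> omega
  have c2 : A2.card = t * (2 * n + 1) := by
    simp only [A2, Finset.card_product, Int.card_Icc]
    congr 1 <;> omega
  have c3 : A3.card = (2 * n + 1) * t := by
    simp only [A3, Finset.card_product, Int.card_Icc]
    congr 1 <;> omega
  have c4 : A4.card = (2 * n + 1) * t := by
    simp only [A4, Finset.card_product, Int.card_Icc]
    congr 1 <;> omega
  rw [c1, c2] at h2
  rw [c3, c4] at h3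
  have e : 4 * t * (2 * n + 1) = (t * (2 * n + 1) + t * (2 * n + 1)) +
      ((2 * n + 1) * t + (2 * n + 1) * t) := by ring
  omega

/-- the loss at the boundary of the box -/
theorem bdry_loss {n J : ℕ} (hn : 1 ≤ n) (hJ : J ≤ Nat.log 2 n) :
    (J : ℝ) * (2 * n + 1) ^ 2 ≤ ∑ v ∈ vb n, ((min J (jd n v) : ℕ) : ℝ) + 4 * (2 * n + 1) ^ 2 := by
  classical
  have h1 : ∀ v ∈ vb n, (J : ℝ) ≤ ((min J (jd n v) : ℕ) : ℝ) +
      ∑ i ∈ Finset.range J, (if jd n v ≤ i then (1 : ℝ) else 0) := by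
    intro v _
    have h2 : J ≤ min J (jd n v) + ((Finset.range J).filter (fun i => jd n v ≤ i)).card := by
      have h3 : Finset.Ico (jd n v) J ⊆ (Finset.range J).filter (fun i => jd n v ≤ i) := by
        intro i hi
        rw [Finset.mem_Ico] at hi
        rw [Finset.mem_filter, Finset.mem_range]
        omega
      have h4 := Finset.card_le_card h3
      rw [Nat.card_Ico] at h4
      omega
    have h3 : ∑ i ∈ Finset.range J, (if jd n v ≤ i then (1 : ℝ) else 0) =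
        (((Finset.range J).filter (fun i => jd n v ≤ i)).card : ℝ) := by
      rw [Finset.sum_ite, Finset.sum_const_zero, add_zero, Finset.sum_const, nsmul_eq_mul, mul_one]
    rw [h3]
    exact_mod_cast h2
  have h2 := Finset.sum_le_sum h1
  rw [Finset.sum_const, nsmul_eq_mul, card_vb, Finset.sum_add_distrib, Finset.sum_comm] at h2
  have h3 : ∑ i ∈ Finset.range J, ∑ v ∈ vb n, (if jd n v ≤ i then (1 : ℝ) else 0) ≤
      ∑ i ∈ Finset.range J, 8 * (2 * n + 1) * (2 : ℝ) ^ i := by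
    apply Finset.sum_le_sum
    intro i _
    rw [Finset.sum_ite, Finset.sum_const_zero, add_zero, Finset.sum_const, nsmul_eq_mul, mul_one]
    have h4 : (vb n).filter (fun v => jd n v ≤ i) ⊆
        (vb n).filter (fun v => dd n v ≤ 2 ^ (i + 1)) := by
      intro v hv
      rw [Finset.mem_filter] at hv ⊢
      refine ⟨hv.1, ?_⟩
      have h5 : dd n v < 2 ^ (Nat.log 2 (dd n v) + 1) := Nat.lt_pow_succ_log_self (by norm_num) _
      have h6 : 2 ^ (Nat.log 2 (dd n v) + 1) ≤ 2 ^ (i + 1) :=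
        Nat.pow_le_pow_right (by norm_num) (by have := hv.2; unfold jd at this; omega)
      omega
    have h5 := (Finset.card_le_card h4).trans (slab_card n (2 ^ (i + 1)))
    have h6 : (((vb n).filter (fun v => jd n v ≤ i)).card : ℝ) ≤
        ((4 * 2 ^ (i + 1) * (2 * n + 1) : ℕ) : ℝ) := by exact_mod_cast h5
    refine h6.trans (le_of_eq ?_)
    push_cast
    ring
  have h4 : ∑ i ∈ Finset.range J, 8 * (2 * n + 1) * (2 : ℝ) ^ i ≤ 4 * (2 * (n : ℝ) + 1) ^ 2 := by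
    rw [← Finset.mul_sum]
    have h5 := geo2 J
    have h6 : (2 : ℝ) ^ J ≤ n := by
      have : 2 ^ J ≤ n := (Nat.pow_le_pow_right (by norm_num) hJ).trans
        (Nat.pow_log_le_self 2 (by omega))
      exact_mod_cast this
    have hnR : (1 : ℝ) ≤ n := by exact_mod_cast hn
    have h7 : 8 * (2 * (n : ℝ) + 1) * ∑ i ∈ Finset.range J, (2 : ℝ) ^ i ≤
        8 * (2 * (n : ℝ) + 1) * n := mul_le_mul_of_nonneg_left (h5.trans h6) (by positivity)
    nlinarith
  push_cast at h2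
  push_cast
  linarith

/-- **Lower bound at all scales.** -/
theorem main_lo : ∃ C : ℝ, 0 < C ∧ ∀ n : ℕ, 1 ≤ n → ∀ (ω : sqLattice.edgeSet → Bool) (X : ℕ),
    1 ≤ X → X ≤ (2 * n + 1) ^ 2 →
    (2 * n + 1) ^ 2 * (cN / 4 * Real.log X) ≤ (SX n X (opn ω) : ℝ) +
      37 * QQ n (FF (UB n) ω) + C * (2 * n + 1) ^ 2 := by
  classical
  obtain ⟨C0, hC0, hee⟩ := ee_bound
  have hc := cN_pos
  refine ⟨C0 + 1 + cN * 8, by positivity, ?_⟩
  intro n hn ω X hX1 hX2
  obtain ⟨J, hJ, h4J, hXJ⟩ := scale hn hX1 hX2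
  set F := FF (UB n) ω with hF
  have hnR : (1 : ℝ) ≤ n := by exact_mod_cast hn
  have hcard : ((vb n).card : ℝ) = (2 * n + 1) ^ 2 := by
    rw [card_vb]
    push_cast
    ring
  set J' := J - 1 with hJ'
  have hJ'n : J' ≤ Nat.log 2 n := by omega
  have hdd : ∀ v ∈ vb n, 1 ≤ dd n v := by
    intro v hv
    have := vb_abs hv
    unfold dd
    omega
  have hjd : ∀ v ∈ vb n, 2 ^ jd n v ≤ dd n v := by
    intro v hv
    unfold jd
    exact Nat.pow_log_le_self 2 (by have := hdd v hv; omega)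
  have hK1 : ∀ v ∈ vb n, 2 ^ (min J' (jd n v)) ≤ dd n v := fun v hv =>
    (Nat.pow_le_pow_right (by norm_num) (min_le_right _ _)).trans (hjd v hv)
  have h1 := sum_lower (opn ω) n X (fun v => 2 ^ (min J' (jd n v)))
    (fun v _ => Nat.one_le_two_pow)
    (by
      intro v hv
      have h2 := hK1 v hv
      have h3 := vb_abs hv
      have h4 : ((2 ^ (min J' (jd n v)) : ℕ) : ℤ) ≤ dd n v := by exact_mod_cast h2
      unfold dd at h4
      rcases abs_cases v.1 with h5 | h5 <;> rcases abs_cases v.2 with h6 | h6 <;>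
      constructor <;> omega)
    (by
      intro v _
      have h2 : 2 ^ (min J' (jd n v)) ≤ 2 ^ J' :=
        Nat.pow_le_pow_right (by norm_num) (min_le_left _ _)
      rcases Nat.eq_zero_or_pos J with h0 | h0
      · have hJ0 : J' = 0 := by omega
        have h2' : 2 ^ J' = 1 := by rw [hJ0, pow_zero]
        rw [h2'] at h2
        have h3 : 2 * 2 ^ (min J' (jd n v)) - 1 ≤ 1 := by omega
        calc (2 * 2 ^ (min J' (jd n v)) - 1) ^ 2 ≤ 1 ^ 2 := Nat.pow_le_pow_left h3 2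
          _ = 1 := by norm_num
          _ ≤ X := hX1
      · have h3 : 2 * 2 ^ (min J' (jd n v)) - 1 ≤ 2 ^ J := by
          have : 2 ^ J = 2 * 2 ^ J' := by
            rw [← pow_succ']
            congr 1
            omega
          omega
        calc (2 * 2 ^ (min J' (jd n v)) - 1) ^ 2 ≤ (2 ^ J) ^ 2 := Nat.pow_le_pow_left h3 2
          _ = 4 ^ J := by rw [← pow_mul, mul_comm, pow_mul]; norm_num
          _ ≤ X := h4J)
  have h1' : ∑ v ∈ vb n, (((NS (opn ω) v 0 (2 ^ (min J' (jd n v))) + 1) / 2 : ℕ) : ℝ) ≤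
      (SX n X (opn ω) : ℝ) := by exact_mod_cast h1
  have h2 : ∑ v ∈ vb n, (NA F v 0 (2 ^ (min J' (jd n v))) : ℝ) / 2 ≤
      ∑ v ∈ vb n, (((NS (opn ω) v 0 (2 ^ (min J' (jd n v))) + 1) / 2 : ℕ) : ℝ) := by
    apply Finset.sum_le_sum
    intro v hv
    have h3 : 2 ^ (min J' (jd n v)) ≤ 4 * n := by
      have := hK1 v hv
      unfold dd at this
      omega
    rw [NS_FF hv h3 ω]
    have h4 : NA F v 0 (2 ^ (min J' (jd n v))) ≤ 2 * ((NA F v 0 (2 ^ (min J' (jd n v))) + 1) / 2) := by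
      omega
    have h5 : (NA F v 0 (2 ^ (min J' (jd n v))) : ℝ) ≤
        2 * (((NA F v 0 (2 ^ (min J' (jd n v))) + 1) / 2 : ℕ) : ℝ) := by exact_mod_cast h4
    linarith
  have h3 := layer_sum hn (fun v => min J' (jd n v)) J' hJ'n (fun v _ => min_le_left _ _) F
  have h4 : ∑ i ∈ Finset.range J', |fl n i ((vb n).filter (fun v => i < min J' (jd n v))) F| =
      ∑ i ∈ Finset.range J', |fl n i ((vb n).filter (fun v => i < jd n v)) F| := by
    apply Finset.sum_congr rfl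
    intro i hi
    rw [Finset.mem_range] at hi
    congr 2
    apply Finset.filter_congr
    intro v _
    rw [lt_min_iff]
    exact ⟨fun h => h.2, fun h => ⟨hi, h⟩⟩
  have h5 := QQ_ge_lo hJ'n F
  have h6 : ∑ v ∈ vb n, ee (2 ^ (min J' (jd n v))) ≤
      ∑ v ∈ vb n, (NA F v 0 (2 ^ (min J' (jd n v))) : ℝ) + 2 * (vb n).card + QQ n F := by
    have h7 := (abs_le.1 h3).1
    have h8 := h4 ▸ h7
    linarith
  have h7 : cN * Real.log 2 * ∑ v ∈ vb n, ((min J' (jd n v) : ℕ) : ℝ) - C0 * (vb n).card ≤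
      ∑ v ∈ vb n, ee (2 ^ (min J' (jd n v))) := by
    rw [Finset.mul_sum]
    have h8 : ∑ v ∈ vb n, (cN * Real.log 2 * ((min J' (jd n v) : ℕ) : ℝ) - C0) ≤
        ∑ v ∈ vb n, ee (2 ^ (min J' (jd n v))) := by
      apply Finset.sum_le_sum
      intro v _
      have := (hee (min J' (jd n v))).1
      linarith
    rw [Finset.sum_sub_distrib, Finset.sum_const, nsmul_eq_mul] at h8
    linarith
  have h8 := bdry_loss hn hJ'n
  have h9 := (log_scale h4J hXJ).2
  have hl2 : 0 < Real.log 2 := Real.log_pos (by norm_num)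
  have hl2' : Real.log 2 ≤ 1 := by
    have := Real.log_le_sub_one_of_pos (show (0:ℝ) < 2 by norm_num)
    linarith
  have hJR : (J : ℝ) ≤ J' + 1 := by exact_mod_cast (by omega : J ≤ J' + 1)
  have hQ := QQ_nonneg n F
  have h10 : Real.log X / 2 ≤ J' * Real.log 2 + 4 := by nlinarith
  have h11 : (J' : ℝ) * (2 * n + 1) ^ 2 * (cN * Real.log 2) ≤
      (∑ v ∈ vb n, ((min J' (jd n v) : ℕ) : ℝ) + 4 * (2 * n + 1) ^ 2) * (cN * Real.log 2) :=
    mul_le_mul_of_nonneg_right h8 (by positivity)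
  have h12 : (2 * (n : ℝ) + 1) ^ 2 * (cN / 2) * (Real.log X / 2) ≤
      (2 * (n : ℝ) + 1) ^ 2 * (cN / 2) * (J' * Real.log 2 + 4) :=
    mul_le_mul_of_nonneg_left h10 (by positivity)
  rw [← Finset.sum_div] at h2
  rw [hcard] at h6 h7
  have h13 : 4 * (2 * (n : ℝ) + 1) ^ 2 * (cN * Real.log 2) ≤ 4 * (2 * (n : ℝ) + 1) ^ 2 * cN := by
    have : cN * Real.log 2 ≤ cN := by nlinarith
    exact mul_le_mul_of_nonneg_left this (by positivity)
  have h14 : (2 * (n : ℝ) + 1) ^ 2 * (cN / 4 * Real.log X) =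
      (2 * (n : ℝ) + 1) ^ 2 * (cN / 2) * (Real.log X / 2) := by ring
  have h15 : 0 ≤ (2 * (n : ℝ) + 1) ^ 2 := by positivity
  have h16 : 0 ≤ C0 * (2 * (n : ℝ) + 1) ^ 2 := by positivity
  have h17 : 0 ≤ cN * (2 * (n : ℝ) + 1) ^ 2 := by positivity
  rw [h14]
  linarith

end Pool.Agent.H78CZ
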