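import Pool.Agent.H78CZ.H

/-!
# Probabilities: all scales at once
-/

set_option autoImplicit false

namespace Pool.Agent.H78CZ
open H974 H906.Cyl Finset MeasureTheory
open Pool.Agent.W819.EN (Ch nb St lnk Mv fc nmv DA NS start_eq vb P2 bx an NA Geo geoNA Lnk Cir Rad
  LTail ltail)
open Pool.Agent.H863R2.NL (ET cN)

open Classical in
/-- the number of open clusters of the box whose hull has area at least `a` -/
noncomputable def cn (n a : ℕ) (G : Set Edg) : ℕ := ((CLf n G).filter (fun K => a ≤ area G K)).card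

theorem sum_cn (n X : ℕ) (G : Set Edg) : ∑ a ∈ Finset.Icc 1 X, cn n a G = SX n X G := by
  classical
  unfold cn SX
  simp_rw [Finset.card_filter]
  rw [Finset.sum_comm]
  apply Finset.sum_congr rfl
  intro K _
  rw [← Finset.card_filter]
  have : (Finset.Icc 1 X).filter (fun a => a ≤ area G K) = Finset.Icc 1 (min (area G K) X) := by
    ext a
    simp only [Finset.mem_filter, Finset.mem_Icc, le_min_iff]
    tauto
  rw [this, Nat.card_Icc]
  omega

/-- the constant -/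
noncomputable def kap0 : ℝ := cN / 4

theorem kap0_pos : 0 < kap0 := by
  have := cN_pos
  unfold kap0
  positivity

/-- the size of the box -/
noncomputable def vol (n : ℕ) : ℝ := (2 * (n : ℝ) + 1) ^ 2

theorem vol_pos (n : ℕ) : 0 < vol n := by unfold vol; positivity

/-- the deviation at the scale `X` -/
noncomputable def dev (n X : ℕ) (G : Set Edg) : ℝ :=
  |∑ a ∈ Finset.Icc 1 X, (cn n a G : ℝ) - vol n * (kap0 * Real.log X)|

theorem dev_le : ∃ C : ℝ, 0 < C ∧ ∀ n : ℕ, 1 ≤ n → ∀ (ω : sqLattice.edgeSet → Bool) (X : ℕ),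
    1 ≤ X → X ≤ (2 * n + 1) ^ 2 →
    dev n X (opn ω) ≤ 37 * QQ n (FF (UB n) ω) + C * vol n := by
  obtain ⟨C1, hC1, h1⟩ := main_up
  obtain ⟨C2, hC2, h2⟩ := main_lo
  refine ⟨max C1 C2, lt_max_of_lt_left hC1, ?_⟩
  intro n hn ω X hX1 hX2
  have e1 := h1 n hn ω X hX1 hX2
  have e2 := h2 n hn ω X hX1 hX2
  have e3 : ∑ a ∈ Finset.Icc 1 X, (cn n a (opn ω) : ℝ) = (SX n X (opn ω) : ℝ) := by
    rw [← sum_cn]
    push_cast
    rfl
  have hv := vol_pos n
  have m1 : C1 * vol n ≤ max C1 C2 * vol n := mul_le_mul_of_nonneg_right (le_max_left _ _) hv.le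
  have m2 : C2 * vol n ≤ max C1 C2 * vol n := mul_le_mul_of_nonneg_right (le_max_right _ _) hv.le
  unfold dev
  rw [e3, abs_le]
  unfold kap0
  unfold vol at *
  constructor <;> linarith

/-- **All scales at once, with large probability.** -/
theorem dev_pr : ∃ C : ℝ, 0 < C ∧ ∀ n : ℕ, 1 ≤ n → ∀ L : ℝ, 0 < L →
    (bondLaw hlf).real {ω | ∃ X : ℕ, 1 ≤ X ∧ X ≤ (2 * n + 1) ^ 2 ∧
      L * vol n < dev n X (opn ω)} ≤ C / L ^ 2 := by
  obtain ⟨C1, hC1, h1⟩ := dev_le
  obtain ⟨C2, hC2, h2⟩ := QQ_pr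
  refine ⟨max (4 * C1 ^ 2) (C2 * 74 ^ 2), lt_max_of_lt_left (by positivity), ?_⟩
  intro n hn L hL
  have hnR : (1 : ℝ) ≤ n := by exact_mod_cast hn
  rcases le_or_gt L (2 * C1) with h | h
  · have h3 : (bondLaw hlf).real {ω | ∃ X : ℕ, 1 ≤ X ∧ X ≤ (2 * n + 1) ^ 2 ∧
      L * vol n < dev n X (opn ω)} ≤ 1 := measureReal_le_one
    refine h3.trans ?_
    rw [le_div_iff₀ (by positivity), one_mul]
    have : L ^ 2 ≤ (2 * C1) ^ 2 := pow_le_pow_left₀ hL.le h 2
    exact (this.trans (by ring_nf; exact le_rfl)).trans (le_max_left _ _)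
  · have h3 : {ω | ∃ X : ℕ, 1 ≤ X ∧ X ≤ (2 * n + 1) ^ 2 ∧ L * vol n < dev n X (opn ω)} ⊆
        {ω : sqLattice.edgeSet → Bool | L / 74 * (n : ℝ) ^ 2 < QQ n (FF (UB n) ω)} := by
      rintro ω ⟨X, hX1, hX2, hX⟩
      have h4 := h1 n hn ω X hX1 hX2
      have h5 : (n : ℝ) ^ 2 ≤ vol n := by unfold vol; nlinarith
      have h6 : C1 * vol n ≤ L / 2 * vol n :=
        mul_le_mul_of_nonneg_right (by linarith) (vol_pos n).le
      have h7 : L / 2 * (n : ℝ) ^ 2 ≤ L / 2 * vol n := mul_le_mul_of_nonneg_left h5 (by positivity)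
      show L / 74 * (n : ℝ) ^ 2 < QQ n (FF (UB n) ω)
      linarith
    have h4 := law_event hlf (UB n) (fun F => L / 74 * (n : ℝ) ^ 2 < QQ n F)
    have h5 := h2 n hn (L / 74) (by positivity)
    have h6 : (bondLaw hlf).real {ω : sqLattice.edgeSet → Bool |
        L / 74 * (n : ℝ) ^ 2 < QQ n (FF (UB n) ω)} ≤ C2 / (L / 74) ^ 2 := by
      rw [h4]
      exact h5
    refine (measureReal_mono h3 (measure_ne_top _ _)).trans (h6.trans ?_)
    have e : C2 / (L / 74) ^ 2 = (C2 * 74 ^ 2) / L ^ 2 := by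
      field_simp
    rw [e]
    exact div_le_div_of_nonneg_right (le_max_right _ _) (by positivity)

end Pool.Agent.H78CZ
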