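import Pool.Agent.H78CZ.I

/-!
# Almost sure asymptotics, uniformly in the scale
-/

set_option autoImplicit false

namespace Pool.Agent.H78CZ
open H974 H906.Cyl Finset MeasureTheory Filter
open Pool.Agent.W819.EN (Ch nb St lnk Mv fc nmv DA NS start_eq vb P2 bx an NA Geo geoNA Lnk Cir Rad
  LTail ltail)
open Pool.Agent.H863R2.NL (ET cN)

theorem CL_mono {n n' : ℕ} (h : n ≤ n') (G : Set Edg) : CLf n G ⊆ CLf n' G := by
  intro K hK
  rw [mem_CLf] at hK ⊢
  refine ⟨hK.1, fun p hp => (hK.2 p hp).trans ?_⟩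
  have : (n : ℤ) ≤ n' := by exact_mod_cast h
  omega

theorem cn_mono {n n' : ℕ} (h : n ≤ n') (a : ℕ) (G : Set Edg) : cn n a G ≤ cn n' a G := by
  classical
  unfold cn
  exact Finset.card_le_card (Finset.filter_subset_filter _ (CL_mono h G))

/-- the truncated sum as a real number -/
noncomputable def SR (n X : ℕ) (G : Set Edg) : ℝ := ∑ a ∈ Finset.Icc 1 X, (cn n a G : ℝ)

theorem SR_mono {n n' X X' : ℕ} (h : n ≤ n') (hX : X ≤ X') (G : Set Edg) :
    SR n X G ≤ SR n' X' G := by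
  unfold SR
  calc ∑ a ∈ Finset.Icc 1 X, (cn n a G : ℝ) ≤ ∑ a ∈ Finset.Icc 1 X, (cn n' a G : ℝ) :=
        Finset.sum_le_sum fun a _ => by exact_mod_cast cn_mono h a G
    _ ≤ _ := Finset.sum_le_sum_of_subset_of_nonneg (Finset.Icc_subset_Icc le_rfl hX)
        fun _ _ _ => Nat.cast_nonneg _

theorem vol_mono {n n' : ℕ} (h : n ≤ n') : vol n ≤ vol n' := by
  unfold vol
  have : (n : ℝ) ≤ n' := by exact_mod_cast h
  have h0 : (0 : ℝ) ≤ n := Nat.cast_nonneg _
  nlinarith

theorem vol_cast (n : ℕ) : (((2 * n + 1) ^ 2 : ℕ) : ℝ) = vol n := by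
  unfold vol
  push_cast
  ring

/-- interpolation between two sizes -/
theorem interp {G : Set Edg} {n1 n n2 X : ℕ} {D δ : ℝ} (h1 : n1 ≤ n) (h2 : n ≤ n2)
    (hδ0 : 0 ≤ δ) (hδ1 : δ ≤ 15) (hvol : vol n2 ≤ (1 + δ) * vol n1) (hD : 0 ≤ D)
    (hd1 : ∀ X : ℕ, 1 ≤ X → X ≤ (2 * n1 + 1) ^ 2 → dev n1 X G ≤ D * vol n1)
    (hd2 : ∀ X : ℕ, 1 ≤ X → X ≤ (2 * n2 + 1) ^ 2 → dev n2 X G ≤ D * vol n2)
    (hX1 : 1 ≤ X) (hX2 : X ≤ (2 * n + 1) ^ 2) :
    dev n X G ≤ vol n * (δ * kap0 * Real.log (vol n) + 15 * kap0 + 16 * D) := by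
  have hk := kap0_pos
  have hA := vol_pos n1
  have hV := vol_pos n
  have hB := vol_pos n2
  have hAV := vol_mono h1
  have hVB := vol_mono h2
  have hXV : (X : ℝ) ≤ vol n := by
    rw [← vol_cast]
    exact_mod_cast hX2
  have hX0 : (0 : ℝ) < X := by exact_mod_cast hX1
  have hl0 : 0 ≤ Real.log X := Real.log_nonneg (by exact_mod_cast hX1)
  have hlV : Real.log X ≤ Real.log (vol n) := Real.log_le_log hX0 hXV
  have hB16 : vol n2 ≤ 16 * vol n := by nlinarith
  have eD : dev n X G = |SR n X G - vol n * (kap0 * Real.log X)| := rfl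
  rw [eD, abs_le]
  constructor
  · -- lower bound
    set X' := min X ((2 * n1 + 1) ^ 2) with hX'
    have hX'1 : 1 ≤ X' := le_min hX1 (Nat.one_le_pow _ _ (by omega))
    have h3 := hd1 X' hX'1 (min_le_right _ _)
    have e3 : dev n1 X' G = |SR n1 X' G - vol n1 * (kap0 * Real.log X')| := rfl
    rw [e3, abs_le] at h3
    have h4 : SR n1 X' G ≤ SR n X G := SR_mono h1 (min_le_left _ _) G
    have h5 : Real.log X - 15 ≤ Real.log X' := by
      rcases le_total X ((2 * n1 + 1) ^ 2) with h | h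
      · have : X' = X := min_eq_left h
        rw [this]
        linarith
      · have : X' = (2 * n1 + 1) ^ 2 := min_eq_right h
        rw [this, vol_cast]
        have h6 : (X : ℝ) ≤ (1 + δ) * vol n1 := hXV.trans (hVB.trans hvol)
        have h7 : Real.log X ≤ Real.log (1 + δ) + Real.log (vol n1) := by
          rw [← Real.log_mul (by linarith) hA.ne']
          exact Real.log_le_log hX0 h6
        have h8 : Real.log (1 + δ) ≤ δ := by
          have := Real.log_le_sub_one_of_pos (show 0 < 1 + δ by linarith)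
          linarith
        linarith
    have h6 : vol n1 * (kap0 * (Real.log X - 15)) ≤ vol n1 * (kap0 * Real.log X') :=
      mul_le_mul_of_nonneg_left (mul_le_mul_of_nonneg_left h5 hk.le) hA.le
    have h7 : (vol n - vol n1) * (kap0 * Real.log X) ≤ (δ * vol n) * (kap0 * Real.log (vol n)) := by
      apply mul_le_mul _ (mul_le_mul_of_nonneg_left hlV hk.le) (by positivity) (by positivity)
      nlinarith
    have h8 : vol n1 * (kap0 * 15) ≤ vol n * (kap0 * 15) :=
      mul_le_mul_of_nonneg_right hAV (by positivity)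
    have h9 : D * vol n1 ≤ D * vol n := mul_le_mul_of_nonneg_left hAV hD
    have h10 : 0 ≤ D * vol n := by positivity
    nlinarith [h3.1]
  · have h3 := hd2 X hX1 (hX2.trans (Nat.pow_le_pow_left (by omega) 2))
    have e3 : dev n2 X G = |SR n2 X G - vol n2 * (kap0 * Real.log X)| := rfl
    rw [e3, abs_le] at h3
    have h4 : SR n X G ≤ SR n2 X G := SR_mono h2 le_rfl G
    have h7 : (vol n2 - vol n) * (kap0 * Real.log X) ≤
        (δ * vol n) * (kap0 * Real.log (vol n)) := by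
      apply mul_le_mul _ (mul_le_mul_of_nonneg_left hlV hk.le) (by positivity) (by positivity)
      nlinarith
    have h9 : D * vol n2 ≤ D * (16 * vol n) := mul_le_mul_of_nonneg_left hB16 hD
    have h10 : 0 ≤ vol n * (15 * kap0) := by positivity
    nlinarith [h3.2]

/-- the subsequence -/
noncomputable def nk (m k : ℕ) : ℕ := ⌊((1 : ℝ) + 1 / m) ^ k⌋₊

theorem nk_one {m : ℕ} (k : ℕ) : 1 ≤ nk m k := by
  unfold nk
  apply Nat.le_floor
  rw [Nat.cast_one]
  apply one_le_pow₀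
  have : (0 : ℝ) ≤ 1 / m := by positivity
  linarith

/-- along the subsequence -/
theorem ae_sub (m i : ℕ) (hi : 1 ≤ i) : ∀ᵐ ω ∂(bondLaw hlf), ∀ᶠ k : ℕ in atTop,
    ∀ X : ℕ, 1 ≤ X → X ≤ (2 * nk m k + 1) ^ 2 →
      dev (nk m k) X (opn ω) ≤ ((k : ℝ) + 1) / i * vol (nk m k) := by
  obtain ⟨C, hC, h⟩ := dev_pr
  have hi0 : (0 : ℝ) < i := by exact_mod_cast hi
  set s : ℕ → Set (sqLattice.edgeSet → Bool) := fun k => {ω | ∃ X : ℕ, 1 ≤ X ∧
    X ≤ (2 * nk m k + 1) ^ 2 ∧ ((k : ℝ) + 1) / i * vol (nk m k) < dev (nk m k) X (opn ω)} with hs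
  have h1 : ∀ k : ℕ, (bondLaw hlf) (s k) ≤ ENNReal.ofReal (C * i ^ 2 * (1 / ((k : ℝ) + 1) ^ 2)) := by
    intro k
    have h2 := h (nk m k) (nk_one k) (((k : ℝ) + 1) / i) (by positivity)
    have h3 : C / (((k : ℝ) + 1) / i) ^ 2 = C * i ^ 2 * (1 / ((k : ℝ) + 1) ^ 2) := by
      field_simp
    rw [h3] at h2
    rw [← ENNReal.ofReal_toReal (measure_ne_top (bondLaw hlf) (s k))]
    exact ENNReal.ofReal_le_ofReal h2
  have hsum : Summable (fun k : ℕ => C * i ^ 2 * (1 / ((k : ℝ) + 1) ^ 2)) := by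
    apply Summable.mul_left
    have := (summable_nat_add_iff 1).2 (Real.summable_one_div_nat_pow (p := 2) |>.2 (by norm_num))
    refine this.congr fun k => ?_
    push_cast
    rfl
  have h4 : ∑' k, (bondLaw hlf) (s k) ≠ ⊤ := by
    apply ne_top_of_le_ne_top _ (ENNReal.tsum_le_tsum h1)
    rw [← ENNReal.ofReal_tsum_of_nonneg (fun k => by positivity) hsum]
    exact ENNReal.ofReal_ne_top
  filter_upwards [ae_eventually_notMem h4] with ω hω
  filter_upwards [hω] with k hk X hX1 hX2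
  by_contra hc
  exact hk ⟨X, hX1, hX2, not_le.1 hc⟩

/-- **Almost sure asymptotics, uniformly in the scale.** -/
theorem ae_dev : ∀ᵐ ω ∂(bondLaw hlf), ∀ ε : ℝ, 0 < ε → ∀ᶠ n : ℕ in atTop,
    ∀ X : ℕ, 1 ≤ X → X ≤ (2 * n + 1) ^ 2 → dev n X (opn ω) ≤ ε * (vol n * Real.log n) := by
  have h1 : ∀ᵐ ω ∂(bondLaw hlf), ∀ m i : ℕ, 1 ≤ i → ∀ᶠ k : ℕ in atTop,
      ∀ X : ℕ, 1 ≤ X → X ≤ (2 * nk m k + 1) ^ 2 →
      dev (nk m k) X (opn ω) ≤ ((k : ℝ) + 1) / i * vol (nk m k) := by
    rw [ae_all_iff]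
    intro m
    rw [ae_all_iff]
    intro i
    by_cases hi : 1 ≤ i
    · filter_upwards [ae_sub m i hi] with ω hω _
      exact hω
    · exact Eventually.of_forall fun ω h => absurd h hi
  filter_upwards [h1] with ω hω
  intro ε hε
  have hk := kap0_pos
  -- parameters
  obtain ⟨m, hm⟩ := exists_nat_gt (max 1 (120 * kap0 * 15 / ε))
  have hm1 : (1 : ℝ) < m := (le_max_left _ _).trans_lt hm
  have hm2 : 120 * kap0 * 15 / ε < m := (le_max_right _ _).trans_lt hm
  have hm0 : (0 : ℝ) < m := by linarith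
  obtain ⟨i, hi⟩ := exists_nat_gt (max 1 (128 * m / ε))
  have hi1 : (1 : ℝ) < i := (le_max_left _ _).trans_lt hi
  have hi2 : 128 * m / ε < i := (le_max_right _ _).trans_lt hi
  have hi0 : (0 : ℝ) < i := by linarith
  obtain ⟨K0, hK0⟩ := eventually_atTop.1 (hω m i (by exact_mod_cast hi1.le))
  set q : ℝ := 1 + 1 / m with hq
  have hq1 : 1 < q := by
    have : (0 : ℝ) < 1 / m := by positivity
    linarith
  have hq2 : q ≤ 2 := by
    have : (1 : ℝ) / m ≤ 1 := by
      rw [div_le_one hm0]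
      exact hm1.le
    linarith
  -- constant term
  set cst : ℝ := 45 / m * kap0 + 15 * kap0 + 32 / i with hcst
  obtain ⟨T, hT⟩ := exists_nat_gt (Real.exp (2 * cst / ε))
  obtain ⟨T', hT'⟩ := exists_nat_gt (q ^ K0)
  rw [eventually_atTop]
  refine ⟨T + T' + 2 * m + 2, fun n hn X hX1 hX2 => ?_⟩
  have hnT : (T : ℝ) ≤ n := by exact_mod_cast (by omega : T ≤ n)
  have hnT' : (T' : ℝ) ≤ n := by exact_mod_cast (by omega : T' ≤ n)
  have hnm : 2 * (m : ℝ) + 2 ≤ n := by exact_mod_cast (by omega : 2 * m + 2 ≤ n)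
  have hn1 : (1 : ℝ) ≤ n := by linarith
  have hn0 : (0 : ℝ) < n := by linarith
  obtain ⟨k, hk1, hk2⟩ := exists_nat_pow_near hn1 hq1
  have hkK : K0 ≤ k := by
    by_contra hc
    push Not at hc
    have : q ^ (k + 1) ≤ q ^ K0 := pow_le_pow_right₀ hq1.le (by omega)
    linarith
  have hn_lo : nk m k ≤ n := by
    unfold nk
    have h2 : ⌊q ^ k⌋₊ ≤ ⌊(n : ℝ)⌋₊ := Nat.floor_le_floor hk1
    rwa [Nat.floor_natCast] at h2
  have hn_up : n ≤ nk m (k + 1) := by
    unfold nk
    exact Nat.le_floor hk2.le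
  -- the volumes
  have hnk : (m : ℝ) ≤ nk m k := by
    have h2 : q ^ k < nk m k + 1 := by
      unfold nk
      exact Nat.lt_floor_add_one _
    have h3 : q ^ (k + 1) ≤ 2 * q ^ k := by
      rw [pow_succ]
      have : 0 < q ^ k := by positivity
      nlinarith
    linarith
  have hvol : vol (nk m (k + 1)) ≤ (1 + 15 / m) * vol (nk m k) := by
    have h2 : (nk m (k + 1) : ℝ) ≤ q ^ (k + 1) := Nat.floor_le (by positivity)
    have h3 : q ^ k < nk m k + 1 := by
      unfold nk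
      exact Nat.lt_floor_add_one _
    have h4 : (nk m (k + 1) : ℝ) ≤ q * (nk m k + 1) := by
      refine h2.trans ?_
      rw [pow_succ, mul_comm]
      exact mul_le_mul_of_nonneg_left h3.le (by linarith)
    set N := (nk m k : ℝ) with hN
    have h5 : 2 * (nk m (k + 1) : ℝ) + 1 ≤ (1 + 3 / m) * (2 * N + 1) := by
      have h6 : q * (N + 1) = N + 1 + (N + 1) / m := by
        rw [hq]
        field_simp
      have h7 : (1 + 3 / m) * (2 * N + 1) = 2 * N + 1 + (6 * N + 3) / m := by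
        field_simp
        ring
      have h8 : 2 * (N + 1) / m + 2 ≤ (6 * N + 3) / m := by
        rw [div_add' _ _ _ hm0.ne', div_le_div_iff_of_pos_right hm0]
        linarith
      have h9 : 2 * ((N + 1) / m) = 2 * (N + 1) / m := by ring
      linarith
    have h6 : (1 + 3 / (m : ℝ)) ^ 2 ≤ 1 + 15 / m := by
      have h7 : (1 : ℝ) / m ≤ 1 := by
        rw [div_le_one hm0]
        exact hm1.le
      have h8 : (0 : ℝ) ≤ 1 / m := by positivity
      have e1 : 3 / (m : ℝ) = 3 * (1 / m) := by ring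
      have e2 : 15 / (m : ℝ) = 15 * (1 / m) := by ring
      rw [e1, e2]
      nlinarith
    unfold vol
    have h10 : (0 : ℝ) ≤ 2 * (nk m (k + 1) : ℝ) + 1 := by positivity
    calc (2 * (nk m (k + 1) : ℝ) + 1) ^ 2 ≤ ((1 + 3 / m) * (2 * N + 1)) ^ 2 :=
          pow_le_pow_left₀ h10 h5 2
      _ = (1 + 3 / m) ^ 2 * (2 * N + 1) ^ 2 := by ring
      _ ≤ _ := mul_le_mul_of_nonneg_right h6 (by positivity)
  set D : ℝ := ((k : ℝ) + 2) / i with hD
  have hD0 : 0 ≤ D := by positivity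
  have hd1 : ∀ X : ℕ, 1 ≤ X → X ≤ (2 * nk m k + 1) ^ 2 →
      dev (nk m k) X (opn ω) ≤ D * vol (nk m k) := by
    intro X h2 h3
    refine (hK0 k hkK X h2 h3).trans (mul_le_mul_of_nonneg_right ?_ (vol_pos _).le)
    exact div_le_div_of_nonneg_right (by linarith) hi0.le
  have hd2 : ∀ X : ℕ, 1 ≤ X → X ≤ (2 * nk m (k + 1) + 1) ^ 2 →
      dev (nk m (k + 1)) X (opn ω) ≤ D * vol (nk m (k + 1)) := by
    intro X h2 h3
    refine (hK0 (k + 1) (by omega) X h2 h3).trans (mul_le_mul_of_nonneg_right ?_ (vol_pos _).le)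
    apply div_le_div_of_nonneg_right _ hi0.le
    push_cast
    linarith
  have h15 : (15 : ℝ) / m ≤ 15 := by
    rw [div_le_iff₀ hm0]
    linarith
  have key := interp (G := opn ω) hn_lo hn_up (by positivity : (0:ℝ) ≤ 15 / m) h15 hvol hD0
    hd1 hd2 hX1 hX2
  refine key.trans ?_
  have e0 : ε * (vol n * Real.log n) = vol n * (ε * Real.log n) := by ring
  rw [e0]
  apply mul_le_mul_of_nonneg_left _ (vol_pos n).le
  -- the logarithms
  have hlog : Real.log (vol n) ≤ 2 * Real.log n + 3 := by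
    have h2 : vol n ≤ (3 * n) ^ 2 := by
      unfold vol
      apply pow_le_pow_left₀ (by positivity)
      linarith
    have h3 := Real.log_le_log (vol_pos n) h2
    rw [Real.log_pow, Real.log_mul (by norm_num) hn0.ne'] at h3
    have h4 : Real.log 3 ≤ 3 / 2 := by
      have h5 : Real.log 3 = Real.log 2 + Real.log (3 / 2) := by
        rw [← Real.log_mul (by norm_num) (by norm_num)]
        norm_num
      have h6 := Real.log_le_sub_one_of_pos (show (0:ℝ) < 2 by norm_num)
      have h7 := Real.log_le_sub_one_of_pos (show (0:ℝ) < 3 / 2 by norm_num)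
      linarith
    push_cast at h3
    linarith
  have hlq : 1 / (2 * (m : ℝ)) ≤ Real.log q := by
    have h2 := Real.one_sub_inv_le_log_of_pos (show 0 < q by linarith)
    have h3 : 1 - q⁻¹ = 1 / (m + 1) := by
      rw [hq]
      field_simp
      ring
    rw [h3] at h2
    refine le_trans ?_ h2
    apply one_div_le_one_div_of_le (by linarith)
    linarith
  have hkl : (k : ℝ) ≤ 2 * m * Real.log n := by
    have h2 : Real.log (q ^ k) ≤ Real.log n := Real.log_le_log (by positivity) hk1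
    rw [Real.log_pow] at h2
    have h3 : (k : ℝ) * (1 / (2 * m)) ≤ Real.log n :=
      (mul_le_mul_of_nonneg_left hlq (Nat.cast_nonneg k)).trans h2
    rw [mul_one_div, div_le_iff₀ (by positivity)] at h3
    linarith
  have hln : 2 * cst / ε < Real.log n := by
    rw [Real.lt_log_iff_exp_lt hn0]
    linarith
  have hln0 : 0 ≤ Real.log n := Real.log_nonneg hn1
  have t1 : 15 / m * kap0 * Real.log (vol n) ≤ 30 / m * kap0 * Real.log n + 45 / m * kap0 := by
    have : 15 / m * kap0 * Real.log (vol n) ≤ 15 / m * kap0 * (2 * Real.log n + 3) :=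
      mul_le_mul_of_nonneg_left hlog (by positivity)
    refine this.trans (le_of_eq ?_)
    ring
  have t2 : 16 * D ≤ 32 * m / i * Real.log n + 32 / i := by
    have : D ≤ (2 * m * Real.log n + 2) / i := div_le_div_of_nonneg_right (by linarith) hi0.le
    have e : 16 * ((2 * m * Real.log n + 2) / i) = 32 * m / i * Real.log n + 32 / i := by ring
    linarith
  have t3 : 30 / m * kap0 ≤ ε / 4 := by
    rw [div_mul_eq_mul_div, div_le_iff₀ hm0]
    rw [div_lt_iff₀ hε] at hm2
    nlinarith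
  have t4 : 32 * m / i ≤ ε / 4 := by
    rw [div_le_iff₀ hi0]
    rw [div_lt_iff₀ hε] at hi2
    linarith
  have t5 := mul_le_mul_of_nonneg_right t3 hln0
  have t6 := mul_le_mul_of_nonneg_right t4 hln0
  have t7 : cst ≤ ε / 2 * Real.log n := by
    rw [div_lt_iff₀ hε] at hln
    linarith
  linarith

end Pool.Agent.H78CZ
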