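import Pool.Agent.H78CZ.J
import Pool.Agent.W918.EN.Loc
import Pool.Agent.W21.EN.Tr

/-!
# The local functional: clusters marked at their smallest vertex
-/

set_option autoImplicit false

namespace Pool.Agent.H78CZ
open H974 H906.Cyl Finset
open Pool.Agent.W819.EN (Ch nb St lnk Mv fc nmv DA NS start_eq vb P2 bx an NA Geo geoNA Lnk Cir Rad
  LTail ltail)
open Relation (ReflTransGen)

variable {G : Set Edg}

/-! ### locality -/

theorem lnk_loc {G G' : Set Edg} {v : Vtx} {R : ℕ}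
    (h : ∀ e ∈ bx v R, (e ∈ G ↔ e ∈ G')) {p q : ℤ × ℤ}
    (hp : nmv v p < 2 * R ∨ nmv v q < 2 * R) (hl : lnk G p q) : lnk G' p q := by
  obtain ⟨a, s⟩ := p
  obtain ⟨b, t⟩ := q
  obtain ⟨h1, h2⟩ := hl
  simp only at h1 h2
  subst h1
  refine ⟨rfl, ?_⟩
  rcases h2 with ⟨h2, h3⟩ | ⟨h2, h3⟩
  · subst h2
    have e := h (edz a s) (Pool.Agent.W918.EN.edz_mem (Or.inl hp))
    refine Or.inl ⟨rfl, ?_⟩
    simpa only [e] using h3
  · subst h2
    have e := h (edz b s) (Pool.Agent.W918.EN.edz_mem (Or.inr hp))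
    refine Or.inr ⟨rfl, ?_⟩
    simpa only [e] using h3

theorem Mv_loc {G G' : Set Edg} {v : Vtx} {R : ℕ}
    (h : ∀ e ∈ bx v R, (e ∈ G ↔ e ∈ G')) {p q : ℤ × ℤ}
    (hp : nmv v p < 2 * R ∨ nmv v q < 2 * R) (hl : Mv G p q) : Mv G' p q := by
  rcases hl with hl | hl
  · exact Or.inl (lnk_loc h hp hl)
  · exact Or.inr (lnk_loc h hp.symm hl)

theorem cl_loc {G G' : Set Edg} {v : Vtx} {R : ℕ}
    (h : ∀ e ∈ bx v R, (e ∈ G ↔ e ∈ G')) {u : ℤ × ℤ}
    (hK : ∀ p ∈ cl G u, nmv v p < 2 * R) : cl G' u = cl G u := by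
  apply Set.Subset.antisymm
  · intro q hq
    have hq' : ReflTransGen (Mv G') u q := hq
    induction hq' with
    | refl => exact cl_self _
    | tail h1 h2 ih =>
      have h3 := ih h1
      exact ReflTransGen.tail h3 (Mv_loc (fun e he => (h e he).symm) (Or.inl (hK _ h3)) h2)
  · intro q hq
    have hq' : ReflTransGen (Mv G) u q := hq
    induction hq' with
    | refl => exact cl_self _
    | tail h1 h2 ih =>
      have h3 : _ ∈ cl G' u := ih h1
      exact ReflTransGen.tail h3 (Mv_loc h (Or.inl (hK _ h1)) h2)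

theorem Esc_loc {G G' : Set Edg} {v : Vtx} {R : ℕ}
    (h : ∀ e ∈ bx v R, (e ∈ G ↔ e ∈ G')) {K : Set (ℤ × ℤ)}
    (hK : ∀ p ∈ K, nmv v p < 2 * (R : ℤ)) {p : ℤ × ℤ} (hE : Esc G K p) : Esc G' K p := by
  rw [esc_iff hK] at hE ⊢
  obtain ⟨h1, q, hq, h2⟩ := hE
  refine ⟨h1, ?_⟩
  have key : ∀ q : ℤ × ℤ, ReflTransGen (fun a b => TA G a b ∧ b ∉ K) p q →
      ReflTransGen (fun a b => TA G' a b ∧ b ∉ K) p q ∨
      ∃ q', 2 * (R : ℤ) ≤ nmv v q' ∧ ReflTransGen (fun a b => TA G' a b ∧ b ∉ K) p q' := by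
    intro q hq
    induction hq with
    | refl => exact Or.inl ReflTransGen.refl
    | @tail b c _ h4 ih =>
      rcases ih with ih | ih
      · by_cases hb : 2 * (R : ℤ) ≤ nmv v b
        · exact Or.inr ⟨b, hb, ih⟩
        · refine Or.inl (ReflTransGen.tail ih ⟨?_, h4.2⟩)
          rcases h4.1 with h5 | h5
          · exact Or.inl (Mv_loc h (Or.inl (not_le.1 hb)) h5)
          · exact Or.inr h5
      · exact Or.inr ih
  rcases key q h2 with h3 | h3
  · exact ⟨q, hq, h3⟩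
  · exact h3

theorem hul_loc {G G' : Set Edg} {v : Vtx} {R : ℕ}
    (h : ∀ e ∈ bx v R, (e ∈ G ↔ e ∈ G')) {K : Set (ℤ × ℤ)}
    (hK : ∀ p ∈ K, nmv v p < 2 * (R : ℤ)) : hul G' K = hul G K := by
  ext u
  constructor
  · intro h1 h2
    exact h1 (Esc_loc h hK h2)
  · intro h1 h2
    exact h1 (Esc_loc (fun e he => (h e he).symm) hK h2)

/-! ### translations -/

open Pool.Agent.W21.EN (sh hs sh_hs nmv_sh Mv_sh St_sh)

theorem hs_sh (v : Vtx) (p : ℤ × ℤ) : hs v (sh v p) = p := by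
  unfold hs sh
  ext <;> simp

theorem sh_inj {v : Vtx} {p q : ℤ × ℤ} (h : sh v p = sh v q) : p = q := by
  rw [← hs_sh v p, h, hs_sh]

theorem sh_fc (v w : Vtx) : sh v (fc w) = fc (w.1 + v.1, w.2 + v.2) := by
  unfold sh fc
  ext <;> simp only <;> ring

theorem cl_sh (F : Finset Edg) (v : Vtx) (p q : ℤ × ℤ) :
    sh v q ∈ cl (↑((trl v.1 v.2).mp F) : Set Edg) (sh v p) ↔ q ∈ cl (↑F : Set Edg) p := by
  constructor
  · intro h
    have h1 : ∀ q', ReflTransGen (Mv (↑((trl v.1 v.2).mp F) : Set Edg)) (sh v p) q' →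
        ReflTransGen (Mv (↑F : Set Edg)) p (hs v q') := by
      intro q' hq'
      induction hq' with
      | refl => rw [hs_sh]
      | @tail b c _ h2 ih =>
        refine ReflTransGen.tail ih ?_
        rw [← Mv_sh F v, sh_hs, sh_hs]
        exact h2
    have h2 := h1 _ h
    rw [hs_sh] at h2
    exact h2
  · intro h
    have h' : ReflTransGen (Mv (↑F : Set Edg)) p q := h
    clear h
    induction h' with
    | refl => exact cl_self _
    | tail h1 h2 ih => exact ReflTransGen.tail ih ((Mv_sh F v _ _).2 h2)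

theorem TA_sh (F : Finset Edg) (v : Vtx) (p q : ℤ × ℤ) :
    TA (↑((trl v.1 v.2).mp F) : Set Edg) (sh v p) (sh v q) ↔ TA (↑F : Set Edg) p q := by
  unfold TA
  rw [Mv_sh, St_sh]

theorem Esc_sh (F : Finset Edg) (v w : Vtx) (R : ℤ) {K K' : Set (ℤ × ℤ)}
    (hKK : ∀ p, sh v p ∈ K' ↔ p ∈ K) (hK : ∀ p ∈ K, nmv w p < R) (p : ℤ × ℤ) :
    Esc (↑((trl v.1 v.2).mp F) : Set Edg) K' (sh v p) ↔ Esc (↑F : Set Edg) K p := by
  have hK' : ∀ p ∈ K', nmv (w.1 + v.1, w.2 + v.2) p < R := by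
    intro p hp
    rw [← sh_hs v p, nmv_sh]
    apply hK
    rw [← hKK, sh_hs]
    exact hp
  rw [esc_iff hK, esc_iff hK']
  constructor
  · rintro ⟨h1, q, hq, h2⟩
    refine ⟨fun h => h1 ((hKK p).2 h), hs v q, ?_, ?_⟩
    · rw [← nmv_sh v w, sh_hs]
      exact hq
    · have h3 : ∀ q', ReflTransGen (fun a b => TA (↑((trl v.1 v.2).mp F) : Set Edg) a b ∧ b ∉ K')
          (sh v p) q' → ReflTransGen (fun a b => TA (↑F : Set Edg) a b ∧ b ∉ K) p (hs v q') := by
        intro q' hq'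
        induction hq' with
        | refl => rw [hs_sh]
        | @tail b c _ h2 ih =>
          refine ReflTransGen.tail ih ⟨?_, ?_⟩
          · rw [← TA_sh F v, sh_hs, sh_hs]
            exact h2.1
          · rw [← hKK, sh_hs]
            exact h2.2
      exact h3 _ h2
  · rintro ⟨h1, q, hq, h2⟩
    refine ⟨fun h => h1 ((hKK p).1 h), sh v q, ?_, ?_⟩
    · rw [nmv_sh]
      exact hq
    · clear hq
      induction h2 with
      | refl => exact ReflTransGen.refl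
      | @tail b c _ h2 ih =>
        refine ReflTransGen.tail ih ⟨?_, ?_⟩
        · rw [TA_sh]
          exact h2.1
        · rw [hKK]
          exact h2.2

theorem area_sh (F : Finset Edg) (v w : Vtx) (R : ℤ) {K K' : Set (ℤ × ℤ)}
    (hKK : ∀ p, sh v p ∈ K' ↔ p ∈ K) (hK : ∀ p ∈ K, nmv w p < R) :
    area (↑((trl v.1 v.2).mp F) : Set Edg) K' = area (↑F : Set Edg) K := by
  unfold area
  have e : hul (↑((trl v.1 v.2).mp F) : Set Edg) K' =
      (fun u : Vtx => (u.1 + v.1, u.2 + v.2)) '' hul (↑F : Set Edg) K := by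
    ext u
    constructor
    · intro hu
      refine ⟨(u.1 - v.1, u.2 - v.2), ?_, by ext <;> simp⟩
      intro h
      apply hu
      have := (Esc_sh F v w R hKK hK (fc (u.1 - v.1, u.2 - v.2))).2 h
      rw [sh_fc] at this
      simpa using this
    · rintro ⟨u, hu, rfl⟩ h
      apply hu
      rw [← Esc_sh F v w R hKK hK, sh_fc]
      exact h
  rw [e]
  apply Set.ncard_image_of_injective
  intro a b h
  simp only [Prod.mk.injEq, add_left_inj] at h
  exact Prod.ext h.1 h.2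

/-! ### the local functional -/

/-- `v` is the smallest vertex of its cluster -/
def Fst (G : Set Edg) (v : Vtx) : Prop :=
  ∀ w : Vtx, fc w ∈ cl G (fc v) → v.1 < w.1 ∨ (v.1 = w.1 ∧ v.2 ≤ w.2)

/-- `v` is the smallest vertex of a cluster of range less than `m` and of area at least `a` -/
def Lo (m a : ℕ) (G : Set Edg) (v : Vtx) : Prop :=
  (∀ p ∈ cl G (fc v), nmv v p < 2 * (m : ℤ)) ∧ Fst G v ∧ a ≤ area G (cl G (fc v))

theorem Lo_loc' {G G' : Set Edg} {v : Vtx} {m a : ℕ}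
    (h : ∀ e ∈ bx v m, (e ∈ G ↔ e ∈ G')) (hL : Lo m a G v) : Lo m a G' v := by
  obtain ⟨h1, h2, h3⟩ := hL
  have e := cl_loc h h1
  refine ⟨?_, ?_, ?_⟩
  · rw [e]
    exact h1
  · unfold Fst
    rw [e]
    exact h2
  · rw [e]
    unfold area
    rw [hul_loc h h1]
    exact h3

theorem Lo_loc {G G' : Set Edg} {v : Vtx} {m a : ℕ}
    (h : ∀ e ∈ bx v m, (e ∈ G ↔ e ∈ G')) : Lo m a G v ↔ Lo m a G' v :=
  ⟨Lo_loc' h, Lo_loc' fun e he => (h e he).symm⟩

theorem Lo_sh (F : Finset Edg) (v : Vtx) (m a : ℕ) :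
    Lo m a (↑((trl v.1 v.2).mp F) : Set Edg) v ↔ Lo m a (↑F : Set Edg) (0, 0) := by
  have hKK : ∀ p, sh v p ∈ cl (↑((trl v.1 v.2).mp F) : Set Edg) (fc v) ↔
      p ∈ cl (↑F : Set Edg) (fc (0, 0)) := by
    intro p
    have e : fc v = sh v (fc (0, 0)) := by
      rw [sh_fc]
      simp
    rw [e, cl_sh]
  have hn : ∀ p, nmv v (sh v p) = nmv (0, 0) p := by
    intro p
    have e := nmv_sh v (0, 0) p
    simp only [zero_add] at e
    exact e
  have hF : Fst (↑((trl v.1 v.2).mp F) : Set Edg) v ↔ Fst (↑F : Set Edg) (0, 0) := by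
    constructor
    · intro h u hu
      rw [← hKK, sh_fc] at hu
      have := h _ hu
      simp only at this ⊢
      omega
    · intro h u hu
      have e : fc u = sh v (fc (u.1 - v.1, u.2 - v.2)) := by
        rw [sh_fc]
        simp
      rw [e, hKK] at hu
      have := h _ hu
      simp only at this ⊢
      omega
  have hD : (∀ p ∈ cl (↑((trl v.1 v.2).mp F) : Set Edg) (fc v), nmv v p < 2 * (m : ℤ)) ↔
      (∀ p ∈ cl (↑F : Set Edg) (fc (0, 0)), nmv (0, 0) p < 2 * (m : ℤ)) := by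
    constructor
    · intro h p hp
      rw [← hn]
      exact h _ ((hKK p).2 hp)
    · intro h p hp
      rw [← sh_hs v p, hKK] at hp
      rw [← sh_hs v p, hn]
      exact h _ hp
  unfold Lo
  rw [hD, hF]
  constructor
  · rintro ⟨h1, h2, h3⟩
    rw [area_sh F v (0, 0) _ hKK h1] at h3
    exact ⟨h1, h2, h3⟩
  · rintro ⟨h1, h2, h3⟩
    rw [← area_sh F v (0, 0) _ hKK h1] at h3
    exact ⟨h1, h2, h3⟩

end Pool.Agent.H78CZ
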