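import Pool.Agent.H78CZ.K

/-!
# Clusters of the box and marked vertices
-/

set_option autoImplicit false

namespace Pool.Agent.H78CZ
open H974 H906.Cyl Finset
open Pool.Agent.W819.EN (Ch nb St lnk Mv fc nmv DA NS start_eq vb P2 bx an NA Geo geoNA Lnk Cir Rad
  LTail ltail)
open Pool.Agent.W21.EN (nmv_move)
open Relation (ReflTransGen)

variable {G : Set Edg}

/-- all the distances are taken inside a cluster -/
theorem ivt {v : Vtx} {q : ℤ × ℤ} (h : q ∈ cl G (fc v)) : ∀ k : ℕ, 2 * (k : ℤ) ≤ nmv v q →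
    ∃ w : Vtx, fc w ∈ cl G (fc v) ∧ nmv v (fc w) = 2 * k := by
  have h' : ReflTransGen (Mv G) (fc v) q := h
  clear h
  induction h' with
  | refl =>
    intro k hk
    rw [nmv_fc] at hk
    simp only [sub_self, abs_zero, max_self, mul_zero] at hk
    have : k = 0 := by omega
    subst this
    exact ⟨v, cl_self _, by rw [nmv_fc]; simp⟩
  | @tail b c h1 h2 ih =>
    intro k hk
    by_cases hb : 2 * (k : ℤ) ≤ nmv v b
    · exact ih k hb
    · have h3 : c ∈ cl G (fc v) := ReflTransGen.tail h1 h2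
      have h1' : b ∈ cl G (fc v) := h1
      rw [cl_fc] at h3 h1'
      obtain ⟨w, rfl, hw⟩ := h3
      obtain ⟨u, rfl, hu⟩ := h1'
      refine ⟨w, cl_fc'.2 hw, ?_⟩
      have h4 := nmv_move v (Or.inl h2)
      rw [nmv_fc, nmv_fc] at *
      omega

open Classical in
/-- the vertices of the box in the cluster of `v` -/
noncomputable def VV (n : ℕ) (G : Set Edg) (v : Vtx) : Finset Vtx :=
  (vb n).filter (fun w => fc w ∈ cl G (fc v))

theorem card_VV {n m : ℕ} {v : Vtx} (hK : ∀ p ∈ cl G (fc v), nmo p ≤ 2 * (n : ℤ)) {q : ℤ × ℤ}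
    (hq : q ∈ cl G (fc v)) (hm : 2 * (m : ℤ) ≤ nmv v q) : m + 1 ≤ (VV n G v).card := by
  classical
  have h1 : Finset.range (m + 1) ⊆ (VV n G v).image (fun w => (nmv v (fc w) / 2).toNat) := by
    intro k hk
    rw [Finset.mem_range] at hk
    obtain ⟨w, hw, hw2⟩ := ivt hq k (by omega)
    rw [Finset.mem_image]
    refine ⟨w, ?_, ?_⟩
    · unfold VV
      rw [Finset.mem_filter]
      exact ⟨mem_vb.2 (hK _ hw), hw⟩
    · rw [hw2]
      omega
  have h2 := Finset.card_le_card h1
  rw [Finset.card_range] at h2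
  exact h2.trans Finset.card_image_le

theorem Fst_eq {v w : Vtx} (hv : Fst G v) (hw : Fst G w) (h : fc w ∈ cl G (fc v)) : v = w := by
  have h1 := hv w h
  have h2 := hw v (by
    rw [cl_eq h]
    exact cl_self _)
  ext <;> omega

/-- every cluster of the box has a smallest vertex -/
theorem exists_Fst {n : ℕ} {K : Set (ℤ × ℤ)} (hK : K ∈ CL n G) :
    ∃ v ∈ vb n, Fst G v ∧ cl G (fc v) = K := by
  classical
  obtain ⟨⟨u, rfl⟩, h⟩ := hK
  have hne : (VV n G u).Nonempty := ⟨u, by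
    unfold VV
    rw [Finset.mem_filter]
    exact ⟨mem_vb.2 (h _ (cl_self _)), cl_self _⟩⟩
  obtain ⟨v, hv, hmin⟩ := Finset.exists_min_image (VV n G u) (fun w => toLex w) hne
  have hv' := hv
  unfold VV at hv'
  rw [Finset.mem_filter] at hv'
  refine ⟨v, hv'.1, ?_, cl_eq hv'.2⟩
  intro w hw
  rw [cl_eq hv'.2] at hw
  have h1 := hmin w (by
    unfold VV
    rw [Finset.mem_filter]
    exact ⟨mem_vb.2 (h _ hw), hw⟩)
  rw [Prod.Lex.toLex_le_toLex] at h1
  exact h1

open Classical in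
/-- marked vertices whose cluster is in the box -/
noncomputable def A1 (n a : ℕ) (G : Set Edg) : Finset Vtx :=
  (vb n).filter (fun v => Fst G v ∧ cl G (fc v) ∈ CL n G ∧ a ≤ area G (cl G (fc v)))

open Classical in
/-- marked vertices with a cluster of small range -/
noncomputable def A2 (n m a : ℕ) (G : Set Edg) : Finset Vtx := (vb n).filter (fun v => Lo m a G v)

theorem card_A1 (n a : ℕ) (G : Set Edg) : (A1 n a G).card = cn n a G := by
  classical
  unfold A1 cn
  apply Finset.card_bij (fun v _ => cl G (fc v))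
  · intro v hv
    rw [Finset.mem_filter] at hv ⊢
    exact ⟨mem_CLf.2 hv.2.2.1, hv.2.2.2⟩
  · intro v hv w hw h
    rw [Finset.mem_filter] at hv hw
    apply Fst_eq hv.2.1 hw.2.1
    have : cl G (fc v) = cl G (fc w) := h
    rw [this]
    exact cl_self _
  · intro K hK
    rw [Finset.mem_filter, mem_CLf] at hK
    obtain ⟨v, hv, h1, rfl⟩ := exists_Fst hK.1
    refine ⟨v, ?_, rfl⟩
    rw [Finset.mem_filter]
    exact ⟨hv, h1, hK.1, hK.2⟩

theorem card_diff1 (n m a : ℕ) (G : Set Edg) :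
    (A1 n a G \ A2 n m a G).card * (m + 1) ≤ (2 * n + 1) ^ 2 := by
  classical
  set B := A1 n a G \ A2 n m a G with hB
  have h1 : ∀ v ∈ B, m + 1 ≤ (VV n G v).card := by
    intro v hv
    rw [hB, Finset.mem_sdiff] at hv
    unfold A1 A2 at hv
    rw [Finset.mem_filter, Finset.mem_filter] at hv
    obtain ⟨⟨hv1, hv2, hv3, hv4⟩, hv5⟩ := hv
    have h2 : ¬ ∀ p ∈ cl G (fc v), nmv v p < 2 * (m : ℤ) := fun h => hv5 ⟨hv1, h, hv2, hv4⟩
    push Not at h2
    obtain ⟨q, hq, hq2⟩ := h2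
    exact card_VV hv3.2 hq hq2
  have h2 : (B.biUnion (VV n G)).card = ∑ v ∈ B, (VV n G v).card := by
    apply Finset.card_biUnion
    intro v hv w hw hvw
    rw [hB, Finset.mem_coe, Finset.mem_sdiff] at hv hw
    unfold A1 at hv hw
    rw [Finset.mem_filter] at hv hw
    rw [Function.onFun, Finset.disjoint_left]
    intro u hu hu'
    unfold VV at hu hu'
    rw [Finset.mem_filter] at hu hu'
    apply hvw
    apply Fst_eq hv.1.2.1 hw.1.2.1
    rw [← cl_eq hu.2, cl_eq hu'.2]
    exact cl_self _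
  have h3 : (B.biUnion (VV n G)).card ≤ (vb n).card := by
    apply Finset.card_le_card
    rw [Finset.biUnion_subset]
    intro v _
    exact Finset.filter_subset _ _
  have h4 : B.card * (m + 1) ≤ ∑ v ∈ B, (VV n G v).card := by
    rw [← smul_eq_mul]
    exact Finset.card_nsmul_le_sum _ _ _ h1
  rw [card_vb] at h3
  omega

theorem card_diff2 (n m a : ℕ) (G : Set Edg) :
    (A2 n m a G \ A1 n a G).card ≤ 4 * m * (2 * n + 1) := by
  classical
  refine le_trans (Finset.card_le_card ?_) (slab_card n m)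
  intro v hv
  rw [Finset.mem_sdiff] at hv
  unfold A1 A2 at hv
  rw [Finset.mem_filter, Finset.mem_filter] at hv
  rw [Finset.mem_filter]
  refine ⟨hv.1.1, ?_⟩
  by_contra hc
  apply hv.2
  refine ⟨hv.1.1, hv.1.2.2.1, ⟨⟨v, rfl⟩, ?_⟩, hv.1.2.2.2⟩
  intro p hp
  have h1 := hv.1.2.1 p hp
  rw [cl_fc] at hp
  obtain ⟨u, rfl, -⟩ := hp
  unfold dd at hc
  unfold nmo
  rw [nmv_fc] at h1 ⊢
  simp only [sub_zero]
  rcases abs_cases (u.1 - v.1) with h5 | h5 <;> rcases abs_cases (u.2 - v.2) with h6 | h6 <;>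
  rcases abs_cases u.1 with h7 | h7 <;> rcases abs_cases u.2 with h8 | h8 <;>
  rcases max_cases |u.1 - v.1| |u.2 - v.2| with h11 | h11 <;>
  rcases max_cases |u.1| |u.2| with h12 | h12 <;> omega

/-- **Comparison.** -/
theorem cn_A2 (n m a : ℕ) (G : Set Edg) : |(cn n a G : ℝ) - ((A2 n m a G).card : ℝ)| ≤
    vol n / (m + 1) + 4 * m * (2 * n + 1) := by
  classical
  rw [← card_A1]
  have h1 : (A1 n a G).card ≤ (A2 n m a G).card + (A1 n a G \ A2 n m a G).card := by
    have := Finset.card_le_card_sdiff_add_card (s := A1 n a G) (t := A2 n m a G)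
    omega
  have h2 : (A2 n m a G).card ≤ (A1 n a G).card + (A2 n m a G \ A1 n a G).card := by
    have := Finset.card_le_card_sdiff_add_card (s := A2 n m a G) (t := A1 n a G)
    omega
  have h3 : ((A1 n a G \ A2 n m a G).card : ℝ) ≤ vol n / (m + 1) := by
    rw [le_div_iff₀ (by positivity)]
    have := card_diff1 n m a G
    have h : (((A1 n a G \ A2 n m a G).card * (m + 1) : ℕ) : ℝ) ≤ (((2 * n + 1) ^ 2 : ℕ) : ℝ) := by
      exact_mod_cast this
    unfold vol
    push_cast at h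
    exact h
  have h4 : ((A2 n m a G \ A1 n a G).card : ℝ) ≤ 4 * m * (2 * n + 1) := by
    have := card_diff2 n m a G
    exact_mod_cast this
  have h1' : ((A1 n a G).card : ℝ) ≤ (A2 n m a G).card + (A1 n a G \ A2 n m a G).card := by
    exact_mod_cast h1
  have h2' : ((A2 n m a G).card : ℝ) ≤ (A1 n a G).card + (A2 n m a G \ A1 n a G).card := by
    exact_mod_cast h2
  have h5 : (0 : ℝ) ≤ vol n / (m + 1) := div_nonneg (vol_pos n).le (by positivity)
  have h6 : (0 : ℝ) ≤ 4 * m * (2 * n + 1) := by positivity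
  rw [abs_le]
  constructor <;> linarith

end Pool.Agent.H78CZ
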