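import Pool.Agent.H78CZ.L

/-!
# The law of large numbers for the clusters
-/

set_option autoImplicit false

namespace Pool.Agent.H78CZ
open H974 H906.Cyl Finset MeasureTheory Filter Topology
open Pool.Agent.W819.EN (Ch nb St lnk Mv fc nmv DA NS start_eq vb P2 bx an NA Geo geoNA Lnk Cir Rad
  LTail ltail)

/-- the probability that a vertex is marked -/
noncomputable def pm (m a : ℕ) : ℝ :=
  Ex P2 (bx (0, 0) m) (fun F => ind (Lo m a (↑F : Set Edg) (0, 0)))

theorem Lo_fin (F : Finset Edg) {S : Finset Edg} {v : Vtx} {m a : ℕ} (hS : bx v m ⊆ S) :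
    Lo m a (↑F : Set Edg) v ↔ Lo m a (↑(F ∩ S) : Set Edg) v := by
  apply Lo_loc
  intro e he
  rw [Finset.mem_coe, Finset.mem_coe, Finset.mem_inter]
  exact ⟨fun h => ⟨h, hS he⟩, fun h => h.1⟩

theorem mean_Lo {v : Vtx} {m a : ℕ} {S : Finset Edg} (hS : bx v m ⊆ S) :
    Ex P2 S (fun F => ind (Lo m a (↑F : Set Edg) v)) = pm m a := by
  rw [Ex_local hS (f := fun F => ind (Lo m a (↑F : Set Edg) v))
    (fun F _ => by show ind (Lo m a (↑F : Set Edg) v) = ind (Lo m a (↑(F ∩ bx v m) : Set Edg) v)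
                   rw [← Lo_fin F (Finset.Subset.refl _)])]
  rw [ex_tr]
  unfold pm
  apply Ex_congr
  intro F _
  rw [Lo_sh]

/-- the edges of a large box -/
noncomputable def UM (n m : ℕ) : Finset Edg := bx (0, 0) ((n + m : ℕ) : ℤ)

theorem bx_UM {n m : ℕ} {v : Vtx} (hv : v ∈ vb n) : bx v (m : ℤ) ⊆ UM n m := by
  have h := vb_abs hv
  intro e he
  obtain ⟨x, y, _ | _⟩ := e
  · unfold UM
    unfold bx at he ⊢
    rw [mem_RE_false] at he ⊢
    simp only at he ⊢
    push_cast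
    omega
  · unfold UM
    unfold bx at he ⊢
    rw [mem_RE_true] at he ⊢
    simp only at he ⊢
    push_cast
    omega

/-- the number of marked vertices -/
noncomputable def MM (n m a : ℕ) (F : Finset Edg) : ℝ :=
  ∑ v ∈ vb n, ind (Lo m a (↑F : Set Edg) v)

theorem MM_card (n m a : ℕ) (F : Finset Edg) : MM n m a F = ((A2 n m a (↑F : Set Edg)).card : ℝ) := by
  classical
  unfold MM A2
  rw [Finset.card_filter]
  push_cast
  apply Finset.sum_congr rfl
  intro v _
  split_ifs with h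
  · rw [ind_of h]
  · rw [ind_not_of h]

theorem A2_opn (n m a : ℕ) (ω : sqLattice.edgeSet → Bool) :
    ((A2 n m a (opn ω)).card : ℝ) = MM n m a (FF (UM n m) ω) := by
  classical
  rw [MM_card]
  congr 2
  unfold A2
  apply Finset.filter_congr
  intro v hv
  apply Lo_loc
  intro e he
  rw [Finset.mem_coe, mem_FF]
  exact ⟨fun h => ⟨bx_UM hv he, h⟩, fun h => h.2⟩

theorem mean_MM (n m a : ℕ) : Ex P2 (UM n m) (MM n m a) = vol n * pm m a := by
  have h1 : Ex P2 (UM n m) (MM n m a) =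
      ∑ v ∈ vb n, Ex P2 (UM n m) (fun F => ind (Lo m a (↑F : Set Edg) v)) := by
    unfold MM
    rw [Ex_sum]
  rw [h1, Finset.sum_congr rfl (fun v hv => mean_Lo (bx_UM hv)), Finset.sum_const, card_vb,
    nsmul_eq_mul]
  unfold vol
  push_cast
  ring

theorem var_MM (n m a : ℕ) : Ex P2 (UM n m) (fun F => (MM n m a F - vol n * pm m a) ^ 2) ≤
    (4 * m + 1) ^ 2 * vol n := by
  classical
  have h := var_sum (U := UM n m) (vb n) (fun v F => ind (Lo m a (↑F : Set Edg) v))
    (fun v => bx v (m : ℤ)) (fun v hv => bx_UM hv) (fun v F => ind_nonneg _)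
    (fun v _ F => by
      show ind (Lo m a (↑F : Set Edg) v) = ind (Lo m a (↑(F ∩ bx v m) : Set Edg) v)
      rw [← Lo_fin F (Finset.Subset.refl _)]) ((4 * m + 1) ^ 2)
    (fun v w => |v.1 - w.1| ≤ 2 * (m : ℤ) ∧ |v.2 - w.2| ≤ 2 * (m : ℤ))
    (fun v _ w _ h => by
      apply bx_disj
      by_contra hc
      push Not at hc
      exact h hc)
    (fun v _ => by
      have h1 : ((vb n).filter (fun w => |v.1 - w.1| ≤ 2 * (m : ℤ) ∧
          |v.2 - w.2| ≤ 2 * (m : ℤ))).card ≤ (4 * m + 1) * (4 * m + 1) := by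
        have h2 : (vb n).filter (fun w => |v.1 - w.1| ≤ 2 * (m : ℤ) ∧ |v.2 - w.2| ≤ 2 * (m : ℤ)) ⊆
            Finset.Icc (v.1 - 2 * m) (v.1 + 2 * m) ×ˢ Finset.Icc (v.2 - 2 * m) (v.2 + 2 * m) := by
          intro w hw
          rw [Finset.mem_filter, abs_le, abs_le] at hw
          rw [Finset.mem_product, Finset.mem_Icc, Finset.mem_Icc]
          omega
        refine (Finset.card_le_card h2).trans (le_of_eq ?_)
        rw [Finset.card_product, Int.card_Icc, Int.card_Icc]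
        congr 1 <;> omega
      have h2 : (((vb n).filter (fun w => |v.1 - w.1| ≤ 2 * (m : ℤ) ∧
          |v.2 - w.2| ≤ 2 * (m : ℤ))).card : ℝ) ≤ ((4 * m + 1) * (4 * m + 1) : ℕ) := by
        exact_mod_cast h1
      refine h2.trans (le_of_eq ?_)
      push_cast
      ring) (B := 1) zero_le_one
    (fun v hv => by
      have h1 : Ex P2 (UM n m) (fun F => ind (Lo m a (↑F : Set Edg) v) *
          ind (Lo m a (↑F : Set Edg) v)) ≤ Ex P2 (UM n m) (fun _ => 1) := by
        apply Ex_mono ok2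
        intro F _
        rw [ind_sq]
        exact ind_le_one _
      rwa [Ex_const] at h1)
  have e : ∑ v ∈ vb n, Ex P2 (UM n m) (fun F => ind (Lo m a (↑F : Set Edg) v)) =
      vol n * pm m a := by
    rw [← mean_MM]
    unfold MM
    rw [Ex_sum]
  rw [e, card_vb] at h
  have e2 : (((2 * n + 1) ^ 2 : ℕ) : ℝ) = vol n := vol_cast n
  rw [e2, mul_one] at h
  exact h

theorem pr_MM (n m a : ℕ) {ε : ℝ} (hε : 0 < ε) :
    Pr P2 (UM n m) (fun F => ε * vol n < |MM n m a F - vol n * pm m a|) ≤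
      (4 * m + 1) ^ 2 / ε ^ 2 * (1 / vol n) := by
  have hv := vol_pos n
  have h1 : Pr P2 (UM n m) (fun F => ε * vol n < |MM n m a F - vol n * pm m a|) *
      (ε * vol n) ^ 2 ≤ Ex P2 (UM n m) (fun F => (MM n m a F - vol n * pm m a) ^ 2) := by
    unfold Pr
    rw [← Ex_mul_right]
    apply Ex_mono ok2
    intro F _
    by_cases hQ : ε * vol n < |MM n m a F - vol n * pm m a|
    · rw [ind_of hQ, one_mul, ← sq_abs (MM n m a F - vol n * pm m a)]
      exact pow_le_pow_left₀ (by positivity) hQ.le 2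
    · rw [ind_not_of hQ, zero_mul]
      positivity
  have h2 := h1.trans (var_MM n m a)
  rw [← le_div_iff₀ (by positivity)] at h2
  refine h2.trans (le_of_eq ?_)
  field_simp

theorem ae_MM1 (m a i : ℕ) : ∀ᵐ ω ∂(bondLaw hlf), ∀ᶠ n : ℕ in atTop,
    |((A2 n m a (opn ω)).card : ℝ) - vol n * pm m a| ≤ 1 / ((i : ℝ) + 1) * vol n := by
  set s : ℕ → Set (sqLattice.edgeSet → Bool) := fun n =>
    {ω | 1 / ((i : ℝ) + 1) * vol n < |MM n m a (FF (UM n m) ω) - vol n * pm m a|} with hs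
  set C : ℝ := (4 * m + 1) ^ 2 / (1 / ((i : ℝ) + 1)) ^ 2 with hC
  have hC0 : 0 ≤ C := by positivity
  have h1 : ∀ n : ℕ, (bondLaw hlf) (s n) ≤ ENNReal.ofReal (C * (1 / ((n : ℝ) + 1) ^ 2)) := by
    intro n
    have h2 := pr_MM n m a (show (0 : ℝ) < 1 / ((i : ℝ) + 1) by positivity)
    have h3 : (bondLaw hlf).real (s n) = Pr P2 (UM n m)
        (fun F => 1 / ((i : ℝ) + 1) * vol n < |MM n m a F - vol n * pm m a|) :=
      law_event hlf (UM n m) (fun F => 1 / ((i : ℝ) + 1) * vol n < |MM n m a F - vol n * pm m a|)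
    rw [← h3] at h2
    rw [← ENNReal.ofReal_toReal (measure_ne_top (bondLaw hlf) (s n))]
    apply ENNReal.ofReal_le_ofReal
    refine h2.trans ?_
    apply mul_le_mul_of_nonneg_left _ hC0
    apply one_div_le_one_div_of_le (by positivity)
    unfold vol
    apply pow_le_pow_left₀ (by positivity)
    have : (0 : ℝ) ≤ n := Nat.cast_nonneg n
    linarith
  have hsum : Summable (fun n : ℕ => C * (1 / ((n : ℝ) + 1) ^ 2)) := by
    apply Summable.mul_left
    have := (summable_nat_add_iff 1).2 (Real.summable_one_div_nat_pow (p := 2) |>.2 (by norm_num))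
    refine this.congr fun k => ?_
    push_cast
    rfl
  have h4 : ∑' k, (bondLaw hlf) (s k) ≠ ⊤ := by
    apply ne_top_of_le_ne_top _ (ENNReal.tsum_le_tsum h1)
    rw [← ENNReal.ofReal_tsum_of_nonneg (fun k => by positivity) hsum]
    exact ENNReal.ofReal_ne_top
  filter_upwards [ae_eventually_notMem h4] with ω hω
  filter_upwards [hω] with n hn
  rw [A2_opn]
  by_contra hc
  exact hn (not_le.1 hc)

/-- the almost sure event of the law of large numbers -/
theorem ae_MM : ∀ᵐ ω ∂(bondLaw hlf), ∀ m a i : ℕ, ∀ᶠ n : ℕ in atTop,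
    |((A2 n m a (opn ω)).card : ℝ) - vol n * pm m a| ≤ 1 / ((i : ℝ) + 1) * vol n := by
  rw [ae_all_iff]
  intro m
  rw [ae_all_iff]
  intro a
  rw [ae_all_iff]
  exact fun i => ae_MM1 m a i

/-- the number of clusters is close to its limit -/
theorem cn_close : ∀ᵐ ω ∂(bondLaw hlf), ∀ m a : ℕ, ∀ ε : ℝ, 0 < ε → ∀ᶠ n : ℕ in atTop,
    |(cn n a (opn ω) : ℝ) / vol n - pm m a| ≤ 1 / (m + 1) + ε := by
  filter_upwards [ae_MM] with ω hω m a ε hε
  obtain ⟨i, hi⟩ := exists_nat_one_div_lt (half_pos hε)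
  obtain ⟨N, hN⟩ := exists_nat_gt (8 * (m : ℝ) / ε)
  filter_upwards [hω m a i, eventually_ge_atTop N] with n hn hnN
  have hv := vol_pos n
  have h1 := cn_A2 n m a (opn ω)
  have h2 : |(cn n a (opn ω) : ℝ) - vol n * pm m a| ≤
      vol n / (m + 1) + 4 * m * (2 * n + 1) + 1 / ((i : ℝ) + 1) * vol n := by
    have h3 := abs_sub_le (cn n a (opn ω) : ℝ) ((A2 n m a (opn ω)).card : ℝ) (vol n * pm m a)
    linarith
  have h4 : 4 * (m : ℝ) * (2 * n + 1) ≤ ε / 2 * vol n := by
    have hnN' : (N : ℝ) ≤ n := by exact_mod_cast hnN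
    have h5 : 8 * (m : ℝ) ≤ ε * n := by
      rw [div_lt_iff₀ hε] at hN
      nlinarith
    have h6 : 4 * (m : ℝ) ≤ ε / 2 * (2 * n + 1) := by nlinarith [Nat.cast_nonneg (α := ℝ) n]
    calc 4 * (m : ℝ) * (2 * n + 1) ≤ ε / 2 * (2 * n + 1) * (2 * n + 1) :=
          mul_le_mul_of_nonneg_right h6 (by positivity)
      _ = ε / 2 * vol n := by unfold vol; ring
  have h5 : 1 / ((i : ℝ) + 1) * vol n ≤ ε / 2 * vol n :=
    mul_le_mul_of_nonneg_right hi.le hv.le
  have h6 : |(cn n a (opn ω) : ℝ) - vol n * pm m a| ≤ (1 / (m + 1) + ε) * vol n := by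
    have e : (1 / ((m : ℝ) + 1) + ε) * vol n = vol n / (m + 1) + ε / 2 * vol n + ε / 2 * vol n := by
      ring
    rw [e]
    linarith
  have e : (cn n a (opn ω) : ℝ) / vol n - pm m a = ((cn n a (opn ω) : ℝ) - vol n * pm m a) / vol n := by
    field_simp
  rw [e, abs_div, abs_of_pos hv, div_le_iff₀ hv]
  exact h6

end Pool.Agent.H78CZ
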