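import Pool.Agent.H78CZ.M

/-!
# The density of clusters with large hulls
-/

set_option autoImplicit false

namespace Pool.Agent.H78CZ
open H974 H906.Cyl Finset MeasureTheory Filter Topology
open Pool.Agent.W819.EN (Ch nb St lnk Mv fc nmv DA NS start_eq vb P2 bx an NA Geo geoNA Lnk Cir Rad
  LTail ltail)

theorem Lo_mono {m m' a : ℕ} (h : m ≤ m') {G : Set Edg} {v : Vtx} (hL : Lo m a G v) :
    Lo m' a G v := by
  refine ⟨fun p hp => (hL.1 p hp).trans_le ?_, hL.2⟩
  have : (m : ℤ) ≤ m' := by exact_mod_cast h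
  omega

theorem Lo_anti {m a a' : ℕ} (h : a' ≤ a) {G : Set Edg} {v : Vtx} (hL : Lo m a G v) :
    Lo m a' G v := ⟨hL.1, hL.2.1, h.trans hL.2.2⟩

theorem ind_imp {P Q : Prop} (h : P → Q) : ind P ≤ ind Q := by
  by_cases hP : P
  · rw [ind_of hP, ind_of (h hP)]
  · rw [ind_not_of hP]
    exact ind_nonneg _

theorem pm_mono (a : ℕ) : Monotone (fun m => pm m a) := by
  intro m m' h
  show pm m a ≤ pm m' a
  have h0 : bx (0, 0) (m : ℤ) ⊆ bx (0, 0) (m' : ℤ) := bx_mono _ (by exact_mod_cast h)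
  rw [← mean_Lo (v := (0, 0)) (a := a) h0]
  unfold pm
  exact Ex_mono ok2 fun F _ => ind_imp (Lo_mono h)

theorem pm_anti (m : ℕ) {a a' : ℕ} (h : a' ≤ a) : pm m a ≤ pm m a' := by
  unfold pm
  exact Ex_mono ok2 fun F _ => ind_imp (Lo_anti h)

theorem pm_nonneg (m a : ℕ) : 0 ≤ pm m a := Ex_nonneg ok2 fun _ _ => ind_nonneg _

theorem pm_le_one (m a : ℕ) : pm m a ≤ 1 := by
  have h : pm m a ≤ Ex P2 (bx (0, 0) m) (fun _ => 1) := Ex_mono ok2 fun F _ => ind_le_one _
  rwa [Ex_const] at h

/-- the density of the clusters of area at least `a` -/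
noncomputable def nu (a : ℕ) : ℝ := ⨆ m, pm m a

theorem pm_bdd (a : ℕ) : BddAbove (Set.range (fun m => pm m a)) :=
  ⟨1, by rintro _ ⟨m, rfl⟩; exact pm_le_one m a⟩

theorem pm_tendsto (a : ℕ) : Tendsto (fun m => pm m a) atTop (𝓝 (nu a)) :=
  tendsto_atTop_ciSup (pm_mono a) (pm_bdd a)

theorem nu_nonneg (a : ℕ) : 0 ≤ nu a := (pm_nonneg 0 a).trans (le_ciSup (pm_bdd a) 0)

theorem nu_anti {a a' : ℕ} (h : a' ≤ a) : nu a ≤ nu a' :=
  ciSup_mono (pm_bdd a') fun m => pm_anti m h

theorem exists_of_ae {P : (sqLattice.edgeSet → Bool) → Prop} (h : ∀ᵐ ω ∂(bondLaw hlf), P ω) :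
    ∃ ω, P ω := h.exists

theorem pm_nu (m a : ℕ) : |pm m a - nu a| ≤ 1 / (m + 1) := by
  obtain ⟨ω, hω⟩ := exists_of_ae cn_close
  have h1 : ∀ m' : ℕ, |pm m a - pm m' a| ≤ 1 / (m + 1) + 1 / (m' + 1) := by
    intro m'
    apply le_of_forall_pos_le_add
    intro ε hε
    obtain ⟨n, hn1, hn2⟩ := ((hω m a (ε / 2) (by positivity)).and
      (hω m' a (ε / 2) (by positivity))).exists
    have h2 := abs_sub_le (pm m a) ((cn n a (opn ω) : ℝ) / vol n) (pm m' a)
    rw [abs_sub_comm (pm m a) ((cn n a (opn ω) : ℝ) / vol n)] at h2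
    linarith
  have h2 : Tendsto (fun m' : ℕ => |pm m a - pm m' a|) atTop (𝓝 |pm m a - nu a|) :=
    (tendsto_const_nhds.sub (pm_tendsto a)).abs
  have h3 : Tendsto (fun m' : ℕ => 1 / ((m : ℝ) + 1) + 1 / ((m' : ℝ) + 1)) atTop
      (𝓝 (1 / ((m : ℝ) + 1) + 0)) :=
    tendsto_const_nhds.add tendsto_one_div_add_atTop_nhds_zero_nat
  rw [add_zero] at h3
  exact le_of_tendsto_of_tendsto' h2 h3 h1

/-- **The density exists.** -/
theorem ae_nu : ∀ᵐ ω ∂(bondLaw hlf), ∀ a : ℕ,
    Tendsto (fun n => (cn n a (opn ω) : ℝ) / vol n) atTop (𝓝 (nu a)) := by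
  filter_upwards [cn_close] with ω hω a
  rw [Metric.tendsto_atTop]
  intro ε hε
  obtain ⟨m, hm⟩ := exists_nat_one_div_lt (show 0 < ε / 4 by positivity)
  obtain ⟨N, hN⟩ := eventually_atTop.1 (hω m a (ε / 4) (by positivity))
  refine ⟨N, fun n hn => ?_⟩
  have h1 := hN n hn
  have h2 := pm_nu m a
  have h3 := abs_sub_le ((cn n a (opn ω) : ℝ) / vol n) (pm m a) (nu a)
  rw [Real.dist_eq]
  linarith

/-- events of probability at most one half do not become almost sure -/
theorem half_false {P : ℕ → (sqLattice.edgeSet → Bool) → Prop}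
    (h : ∀ᵐ ω ∂(bondLaw hlf), ∀ᶠ n : ℕ in atTop, P n ω) {N0 : ℕ}
    (hb : ∀ n : ℕ, N0 ≤ n → (bondLaw hlf).real {ω | P n ω} ≤ 1 / 2) : False := by
  set B : ℕ → Set (sqLattice.edgeSet → Bool) := fun N => {ω | ∀ n ≥ N, P n ω} with hB
  have hmono : Monotone B := by
    intro N N' hN ω hω n hn
    exact hω n (hN.trans hn)
  have h1 : (bondLaw hlf) (⋃ N, B N) = 1 := by
    have h2 : (⋃ N, B N) =ᵐ[bondLaw hlf] Set.univ := by
      rw [ae_eq_univ]
      refine measure_mono_null ?_ (ae_iff.1 h)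
      intro ω hω h3
      apply hω
      obtain ⟨N, hN⟩ := eventually_atTop.1 h3
      exact Set.mem_iUnion.2 ⟨N, hN⟩
    rw [measure_congr h2, measure_univ]
  rw [hmono.measure_iUnion] at h1
  have h2 : ⨆ N, (bondLaw hlf) (B N) ≤ ENNReal.ofReal (1 / 2) := by
    apply iSup_le
    intro N
    have h3 : B N ⊆ {ω | P (max N N0) ω} := fun ω hω => hω _ (le_max_left _ _)
    refine (measure_mono h3).trans ?_
    rw [← ENNReal.ofReal_toReal (measure_ne_top (bondLaw hlf) _)]
    exact ENNReal.ofReal_le_ofReal (hb _ (le_max_right _ _))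
  rw [h1] at h2
  have h3 : ENNReal.ofReal (1 / 2) < 1 := by
    rw [← ENNReal.ofReal_one]
    exact (ENNReal.ofReal_lt_ofReal_iff one_pos).2 (by norm_num)
  exact absurd h2 (not_le.2 h3)

/-- the truncated sums of the density -/
noncomputable def SN (X : ℕ) : ℝ := ∑ a ∈ Finset.Icc 1 X, nu a

/-- **The integrated law.** -/
theorem nu_law : ∃ C : ℝ, 0 < C ∧ ∀ X : ℕ, 1 ≤ X → |SN X - kap0 * Real.log X| ≤ C := by
  obtain ⟨C, hC, h⟩ := dev_pr
  set L : ℝ := Real.sqrt (2 * C) + 1 with hL
  have hL0 : 0 < L := by positivity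
  have hL2 : C / L ^ 2 ≤ 1 / 2 := by
    rw [div_le_iff₀ (by positivity)]
    have h1 : Real.sqrt (2 * C) ^ 2 = 2 * C := Real.sq_sqrt (by positivity)
    have h2 : 0 ≤ Real.sqrt (2 * C) := Real.sqrt_nonneg _
    rw [hL]
    nlinarith
  refine ⟨L, hL0, ?_⟩
  intro X hX
  by_contra hc
  push Not at hc
  apply half_false (P := fun n ω => L * vol n < dev n X (opn ω)) (N0 := max 1 X)
  · filter_upwards [ae_nu] with ω hω
    have h1 : Tendsto (fun n => dev n X (opn ω) / vol n) atTop (𝓝 |SN X - kap0 * Real.log X|) := by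
      have h2 : Tendsto (fun n => ∑ a ∈ Finset.Icc 1 X, (cn n a (opn ω) : ℝ) / vol n) atTop
          (𝓝 (SN X)) := tendsto_finsetSum _ fun a _ => hω a
      have h3 := (h2.sub_const (kap0 * Real.log X)).abs
      refine h3.congr fun n => ?_
      have hv := vol_pos n
      unfold dev
      rw [← abs_of_pos hv, ← abs_div, abs_of_pos hv]
      congr 1
      rw [← Finset.sum_div]
      field_simp
    filter_upwards [h1.eventually (lt_mem_nhds hc)] with n hn
    rwa [lt_div_iff₀ (vol_pos n)] at hn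
  · intro n hn
    have hn1 : 1 ≤ n := (le_max_left _ _).trans hn
    have hn2 : X ≤ n := (le_max_right _ _).trans hn
    refine le_trans (measureReal_mono ?_ (measure_ne_top _ _)) ((h n hn1 L hL0).trans hL2)
    intro ω hω
    refine ⟨X, hX, ?_, hω⟩
    nlinarith

/-- **The density decays like `1 / a`.** -/
theorem nu_bounds : ∃ c C : ℝ, 0 < c ∧ 0 < C ∧ ∀ a : ℕ, 1 ≤ a → c / a ≤ nu a ∧ nu a ≤ C / a := by
  obtain ⟨D, hD, h⟩ := nu_law
  have hk := kap0_pos
  obtain ⟨K, hK⟩ := exists_nat_gt (Real.exp ((2 * D + 1) / kap0))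
  have hK1 : (1 : ℝ) < K := (Real.one_lt_exp_iff.2 (by positivity)).trans hK
  have hK1' : 1 < K := by exact_mod_cast hK1
  refine ⟨1 / K, max 1 (4 * kap0 + 4 * D), by positivity, lt_max_of_lt_left one_pos, ?_⟩
  intro a ha
  have haR : (1 : ℝ) ≤ a := by exact_mod_cast ha
  have ha0 : (0 : ℝ) < a := by linarith
  have hsplit : ∀ x y : ℕ, x ≤ y → SN y - SN x = ∑ b ∈ Finset.Ioc x y, nu b := by
    intro x y hxy
    unfold SN
    have e : Finset.Icc 1 y = Finset.Icc 1 x ∪ Finset.Ioc x y := by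
      ext b
      simp only [Finset.mem_union, Finset.mem_Icc, Finset.mem_Ioc]
      omega
    have hd : Disjoint (Finset.Icc 1 x) (Finset.Ioc x y) := by
      rw [Finset.disjoint_left]
      intro b hb hb'
      rw [Finset.mem_Icc] at hb
      rw [Finset.mem_Ioc] at hb'
      omega
    rw [e, Finset.sum_union hd]
    ring
  constructor
  · have h1 := h a ha
    have h2 := h (K * a) (by nlinarith)
    have hle : a ≤ K * a := by nlinarith
    have h3 := hsplit a (K * a) hle
    have h4 : ∑ b ∈ Finset.Ioc a (K * a), nu b ≤ (K : ℝ) * a * nu a := by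
      calc ∑ b ∈ Finset.Ioc a (K * a), nu b ≤ ∑ b ∈ Finset.Ioc a (K * a), nu a := by
            apply Finset.sum_le_sum
            intro b hb
            rw [Finset.mem_Ioc] at hb
            exact nu_anti hb.1.le
        _ = ((K * a - a : ℕ) : ℝ) * nu a := by
            rw [Finset.sum_const, Nat.card_Ioc, nsmul_eq_mul]
        _ ≤ (K : ℝ) * a * nu a := by
            apply mul_le_mul_of_nonneg_right _ (nu_nonneg a)
            have : K * a - a ≤ K * a := Nat.sub_le _ _
            exact_mod_cast this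
    have h5 : Real.log ((K * a : ℕ) : ℝ) = Real.log K + Real.log a := by
      push_cast
      rw [Real.log_mul (by positivity) (by positivity)]
    have h6 : (2 * D + 1) / kap0 < Real.log K := by
      rwa [Real.lt_log_iff_exp_lt (by positivity)]
    rw [div_lt_iff₀ hk] at h6
    rw [h5] at h2
    rw [abs_le] at h1 h2
    have h7 : 1 ≤ (K : ℝ) * a * nu a := by nlinarith [h1.2, h2.1]
    rw [div_div, div_le_iff₀ (by positivity)]
    linarith
  · rcases Nat.lt_or_ge a 2 with h2 | h2
    · have : a = 1 := by omega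
      subst this
      have h1 : nu 1 ≤ 1 := ciSup_le fun m => pm_le_one m 1
      rw [Nat.cast_one, div_one]
      exact h1.trans (le_max_left _ _)
    · set b := a / 2 with hb
      have hb1 : 1 ≤ b := by omega
      have hb4 : a ≤ 4 * b := by omega
      have hb2 : 2 * b ≤ a := by omega
      have hbR : (1 : ℝ) ≤ b := by exact_mod_cast hb1
      have e1 := h a ha
      have e2 := h b hb1
      have e3 := hsplit b a (by omega)
      have e4 : (a : ℝ) / 2 * nu a ≤ ∑ x ∈ Finset.Ioc b a, nu x := by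
        calc (a : ℝ) / 2 * nu a ≤ ((a - b : ℕ) : ℝ) * nu a := by
              apply mul_le_mul_of_nonneg_right _ (nu_nonneg a)
              rw [Nat.cast_sub (by omega)]
              have : (2 : ℝ) * b ≤ a := by exact_mod_cast hb2
              linarith
          _ = ∑ x ∈ Finset.Ioc b a, nu a := by
              rw [Finset.sum_const, Nat.card_Ioc, nsmul_eq_mul]
          _ ≤ _ := by
              apply Finset.sum_le_sum
              intro x hx
              rw [Finset.mem_Ioc] at hx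
              exact nu_anti hx.2
      have e5 : Real.log a ≤ Real.log b + 2 := by
        have h3 : Real.log a ≤ Real.log (4 * b) :=
          Real.log_le_log ha0 (by exact_mod_cast hb4)
        rw [Real.log_mul (by norm_num) (by positivity)] at h3
        have h4 : Real.log 4 ≤ 2 := by
          have e : (4 : ℝ) = 2 ^ 2 := by norm_num
          have h5 := Real.log_le_sub_one_of_pos (show (0:ℝ) < 2 by norm_num)
          rw [e, Real.log_pow]
          push_cast
          linarith
        linarith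
      rw [abs_le] at e1 e2
      have e6 : (a : ℝ) / 2 * nu a ≤ 2 * kap0 + 2 * D := by
        have := mul_le_mul_of_nonneg_left e5 hk.le
        nlinarith [e1.2, e2.1]
      refine le_trans ?_ (div_le_div_of_nonneg_right (le_max_right _ _) ha0.le)
      rw [le_div_iff₀ ha0]
      linarith

end Pool.Agent.H78CZ
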