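import Pool.Agent.H78CZ.N

/-!
# The ranked hull areas in a box
-/

set_option autoImplicit false

namespace Pool.Agent.H78CZ
open H974 H906.Cyl Finset MeasureTheory Filter Topology
open Pool.Agent.W819.EN (Ch nb St lnk Mv fc nmv DA NS start_eq vb P2 bx an NA Geo geoNA Lnk Cir Rad
  LTail ltail)

theorem cn_anti (n : ℕ) {a a' : ℕ} (h : a' ≤ a) (G : Set Edg) : cn n a G ≤ cn n a' G := by
  classical
  unfold cn
  apply Finset.card_le_card
  intro K hK
  rw [Finset.mem_filter] at hK ⊢
  exact ⟨hK.1, h.trans hK.2⟩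

theorem cn_le (n a : ℕ) (G : Set Edg) : (cn n a G : ℝ) ≤ vol n := by
  classical
  have h1 : cn n a G ≤ (CLf n G).card := Finset.card_filter_le _ _
  have h2 := h1.trans (CLf_card n G)
  rw [card_vb] at h2
  rw [← vol_cast]
  exact_mod_cast h2

theorem SR_split (n : ℕ) (G : Set Edg) {x y : ℕ} (hxy : x ≤ y) :
    SR n y G - SR n x G = ∑ b ∈ Finset.Ioc x y, (cn n b G : ℝ) := by
  unfold SR
  have e : Finset.Icc 1 y = Finset.Icc 1 x ∪ Finset.Ioc x y := by
    ext b
    simp only [Finset.mem_union, Finset.mem_Icc, Finset.mem_Ioc]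
    omega
  have hd : Disjoint (Finset.Icc 1 x) (Finset.Ioc x y) := by
    rw [Finset.disjoint_left]
    intro b hb hb'
    rw [Finset.mem_Icc] at hb
    rw [Finset.mem_Ioc] at hb'
    omega
  rw [e, Finset.sum_union hd]
  ring

theorem log_four : Real.log 4 ≤ 2 := by
  have e : (4 : ℝ) = 2 ^ 2 := by norm_num
  have h5 := Real.log_le_sub_one_of_pos (show (0:ℝ) < 2 by norm_num)
  rw [e, Real.log_pow]
  push_cast
  linarith

/-- the profile of the areas, from the truncated sums -/
theorem profile {n : ℕ} {G : Set Edg} {L : ℝ} (hL : 0 ≤ L)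
    (hd : ∀ X : ℕ, 1 ≤ X → X ≤ (2 * n + 1) ^ 2 → dev n X G ≤ L * vol n) {K : ℕ}
    (hK : Real.exp ((2 * L + 1) / kap0) < K) {a : ℕ} (ha : 1 ≤ a) :
    (a ≤ (2 * n + 1) ^ 2 → (cn n a G : ℝ) ≤ max 1 (4 * kap0 + 4 * L) * vol n / a) ∧
    (K * a ≤ (2 * n + 1) ^ 2 → vol n / (K * a) ≤ cn n a G) := by
  have hk := kap0_pos
  have hv := vol_pos n
  have hK1 : (1 : ℝ) < K := (Real.one_lt_exp_iff.2 (by positivity)).trans hK
  have hK1' : 1 < K := by exact_mod_cast hK1
  have haR : (1 : ℝ) ≤ a := by exact_mod_cast ha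
  have ha0 : (0 : ℝ) < a := by linarith
  have hd' : ∀ X : ℕ, 1 ≤ X → X ≤ (2 * n + 1) ^ 2 →
      |SR n X G - vol n * (kap0 * Real.log X)| ≤ L * vol n := hd
  constructor
  · intro ha2
    rcases Nat.lt_or_ge a 2 with h2 | h2
    · have : a = 1 := by omega
      subst this
      rw [Nat.cast_one, div_one]
      have h3 : (1 : ℝ) * vol n ≤ max 1 (4 * kap0 + 4 * L) * vol n :=
        mul_le_mul_of_nonneg_right (le_max_left _ _) hv.le
      have := cn_le n 1 G
      linarith
    · set b := a / 2 with hb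
      have hb1 : 1 ≤ b := by omega
      have hb4 : a ≤ 4 * b := by omega
      have hb2 : 2 * b ≤ a := by omega
      have hbR : (1 : ℝ) ≤ b := by exact_mod_cast hb1
      have e1 := hd' a ha ha2
      have e2 := hd' b hb1 (by omega)
      have e3 := SR_split n G (x := b) (y := a) (by omega)
      have e4 : (a : ℝ) / 2 * cn n a G ≤ ∑ x ∈ Finset.Ioc b a, (cn n x G : ℝ) := by
        calc (a : ℝ) / 2 * cn n a G ≤ ((a - b : ℕ) : ℝ) * cn n a G := by
              apply mul_le_mul_of_nonneg_right _ (Nat.cast_nonneg _)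
              rw [Nat.cast_sub (by omega)]
              have : (2 : ℝ) * b ≤ a := by exact_mod_cast hb2
              linarith
          _ = ∑ x ∈ Finset.Ioc b a, (cn n a G : ℝ) := by
              rw [Finset.sum_const, Nat.card_Ioc, nsmul_eq_mul]
          _ ≤ _ := by
              apply Finset.sum_le_sum
              intro x hx
              rw [Finset.mem_Ioc] at hx
              exact_mod_cast cn_anti n hx.2 G
      have e5 : Real.log a ≤ Real.log b + 2 := by
        have h3 : Real.log a ≤ Real.log (4 * b) :=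
          Real.log_le_log ha0 (by exact_mod_cast hb4)
        rw [Real.log_mul (by norm_num) (by positivity)] at h3
        have h4 := log_four
        linarith
      rw [abs_le] at e1 e2
      have e5' : vol n * (kap0 * Real.log a) ≤ vol n * (kap0 * (Real.log b + 2)) :=
        mul_le_mul_of_nonneg_left (mul_le_mul_of_nonneg_left e5 hk.le) hv.le
      have e6 : (a : ℝ) / 2 * cn n a G ≤ (2 * kap0 + 2 * L) * vol n := by
        have e7 : vol n * (kap0 * (Real.log b + 2)) =
            vol n * (kap0 * Real.log b) + 2 * kap0 * vol n := by ring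
        linarith [e1.2, e2.1]
      have e8 : (4 * kap0 + 4 * L) * vol n / a ≤ max 1 (4 * kap0 + 4 * L) * vol n / a :=
        div_le_div_of_nonneg_right (mul_le_mul_of_nonneg_right (le_max_right _ _) hv.le) ha0.le
      refine le_trans ?_ e8
      rw [le_div_iff₀ ha0]
      linarith
  · intro hKa
    have hle : a ≤ K * a := by nlinarith
    have h1 := hd' a ha (hle.trans hKa)
    have h2 := hd' (K * a) (by nlinarith) hKa
    have h3 := SR_split n G hle
    have h4 : ∑ b ∈ Finset.Ioc a (K * a), (cn n b G : ℝ) ≤ (K : ℝ) * a * cn n a G := by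
      calc ∑ b ∈ Finset.Ioc a (K * a), (cn n b G : ℝ) ≤
            ∑ b ∈ Finset.Ioc a (K * a), (cn n a G : ℝ) := by
            apply Finset.sum_le_sum
            intro b hb
            rw [Finset.mem_Ioc] at hb
            exact_mod_cast cn_anti n hb.1.le G
        _ = ((K * a - a : ℕ) : ℝ) * cn n a G := by
            rw [Finset.sum_const, Nat.card_Ioc, nsmul_eq_mul]
        _ ≤ (K : ℝ) * a * cn n a G := by
            apply mul_le_mul_of_nonneg_right _ (Nat.cast_nonneg _)
            have : K * a - a ≤ K * a := Nat.sub_le _ _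
            exact_mod_cast this
    have h5 : Real.log ((K * a : ℕ) : ℝ) = Real.log K + Real.log a := by
      push_cast
      rw [Real.log_mul (by positivity) (by positivity)]
    have h6 : (2 * L + 1) / kap0 < Real.log K := by
      rwa [Real.lt_log_iff_exp_lt (by positivity)]
    rw [div_lt_iff₀ hk] at h6
    rw [h5] at h2
    rw [abs_le] at h1 h2
    have h6' : vol n * (2 * L + 1) ≤ vol n * (Real.log K * kap0) :=
      mul_le_mul_of_nonneg_left h6.le hv.le
    have h7 : vol n ≤ (K : ℝ) * a * cn n a G := by nlinarith [h1.2, h2.1]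
    rw [div_le_iff₀ (by positivity)]
    linarith

/-- **The ranked areas obey a law of the inverse, with large probability.** -/
theorem zipf : ∀ ε : ℝ, 0 < ε → ∃ δ : ℝ, 0 < δ ∧ ∀ n : ℕ, 1 ≤ n →
    (bondLaw hlf).real {ω | ∃ a : ℕ, 1 ≤ a ∧ (a : ℝ) ≤ δ * vol n ∧
      ¬ (δ * vol n / a ≤ cn n a (opn ω) ∧ (cn n a (opn ω) : ℝ) ≤ vol n / (δ * a))} ≤ ε := by
  intro ε hε
  obtain ⟨C, hC, h⟩ := dev_pr
  have hk := kap0_pos
  set L : ℝ := Real.sqrt (C / ε) + 1 with hL
  have hL0 : 0 < L := by positivity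
  have hL2 : C / L ^ 2 ≤ ε := by
    rw [div_le_iff₀ (by positivity)]
    have h1 : Real.sqrt (C / ε) ^ 2 = C / ε := Real.sq_sqrt (by positivity)
    have h2 : 0 ≤ Real.sqrt (C / ε) := Real.sqrt_nonneg _
    have h3 : C / ε ≤ L ^ 2 := by
      rw [hL]
      nlinarith
    rw [div_le_iff₀ hε] at h3
    linarith
  obtain ⟨K, hK⟩ := exists_nat_gt (Real.exp ((2 * L + 1) / kap0))
  have hK1 : (1 : ℝ) < K := (Real.one_lt_exp_iff.2 (by positivity)).trans hK
  set M : ℝ := max 1 (4 * kap0 + 4 * L) with hM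
  have hM1 : 1 ≤ M := le_max_left _ _
  have hM0 : 0 < M := by linarith
  have hK0 : (0 : ℝ) < K := by linarith
  set δ : ℝ := 1 / (K * M) with hδ
  have hδ0 : 0 < δ := by positivity
  have hδK : δ ≤ 1 / K := by
    rw [hδ]
    apply one_div_le_one_div_of_le hK0
    nlinarith
  have hδM : δ ≤ 1 / M := by
    rw [hδ]
    apply one_div_le_one_div_of_le hM0
    nlinarith
  refine ⟨δ, hδ0, ?_⟩
  intro n hn
  refine le_trans (measureReal_mono ?_ (measure_ne_top _ _)) ((h n hn L hL0).trans hL2)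
  rintro ω ⟨a, ha1, ha2, ha3⟩
  by_contra hc
  apply ha3
  have hv := vol_pos n
  have haR : (1 : ℝ) ≤ a := by exact_mod_cast ha1
  have ha0 : (0 : ℝ) < a := by linarith
  have hd : ∀ X : ℕ, 1 ≤ X → X ≤ (2 * n + 1) ^ 2 → dev n X (opn ω) ≤ L * vol n := by
    intro X hX1 hX2
    by_contra h5
    exact hc ⟨X, hX1, hX2, not_le.1 h5⟩
  obtain ⟨p1, p2⟩ := profile hL0.le hd hK ha1
  have hKa : K * a ≤ (2 * n + 1) ^ 2 := by
    have h1 : (K : ℝ) * a ≤ vol n := by
      have h2 : (a : ℝ) ≤ 1 / K * vol n := ha2.trans (mul_le_mul_of_nonneg_right hδK hv.le)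
      rw [one_div, inv_mul_eq_div, le_div_iff₀ hK0] at h2
      linarith
    rw [← vol_cast] at h1
    exact_mod_cast h1
  have hK1' : 1 ≤ K := by
    have : (1 : ℝ) ≤ K := hK1.le
    exact_mod_cast this
  have haa : a ≤ (2 * n + 1) ^ 2 := le_trans (by nlinarith) hKa
  constructor
  · refine le_trans ?_ (p2 hKa)
    rw [div_le_div_iff₀ ha0 (by positivity)]
    have h1 : δ * K ≤ 1 := by
      rw [le_div_iff₀ hK0] at hδK
      exact hδK
    have h2 : δ * K * (vol n * a) ≤ 1 * (vol n * a) :=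
      mul_le_mul_of_nonneg_right h1 (by positivity)
    nlinarith
  · refine (p1 haa).trans ?_
    rw [div_le_div_iff₀ ha0 (by positivity)]
    have h1 : δ * M ≤ 1 := by
      rw [le_div_iff₀ hM0] at hδM
      exact hδM
    have h2 : δ * M * (vol n * a) ≤ 1 * (vol n * a) :=
      mul_le_mul_of_nonneg_right h1 (by positivity)
    nlinarith

end Pool.Agent.H78CZ
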